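import Pool.Agent.T9h62.SQ.First
import Pool.Agent.Y265.HY.SB5

/-! The Gaussian fourth moment and equidistribution just above the wave length. -/
set_option autoImplicit false
open MeasureTheory Filter Topology Set Complex
open scoped ContDiff Real

namespace Pool.Agent.T9h62.SQ

open Pool.Agent.Y265.HY (ev ev_re ev_im ev_norm ev_cont MM PP' Av fx fy MM_d NN_d Av_d PP0 MM0
  fx_sm fy_sm arg_cont disc_bound)
open Pool.Agent.W745.RW (TF lap)
open Pool.Agent.TH294.RS (TF.mulc TF.zero)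

noncomputable section

lemma ball_DM {G : ℂ → ℝ} (hG : Continuous G) {h R : ℝ} {z : ℂ} (hr : 0 < R * (h * z.im)) :
    ∫ w in Metric.ball z (R * (h * z.im)), G w = π * (R * (h * z.im)) ^ 2 * DM h R G z := by
  have hp := Real.pi_pos
  set r := R * (h * z.im) with hrd
  have e1 : ∫ w in Metric.ball z r, G w = ∫ w in Metric.ball (0:ℂ) r, G (z + w) := by
    rw [← integral_indicator measurableSet_ball, ← integral_indicator measurableSet_ball,
      ← integral_add_left_eq_self _ z]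
    congr 1; funext w
    by_cases hw : w ∈ Metric.ball (0:ℂ) r
    · have : z + w ∈ Metric.ball z r := by
        rw [mem_ball_zero_iff] at hw
        rw [Metric.mem_ball, dist_eq_norm, add_sub_cancel_left]; exact hw
      rw [indicator_of_mem hw, indicator_of_mem this]
    · have : z + w ∉ Metric.ball z r := by
        rw [mem_ball_zero_iff] at hw
        rw [Metric.mem_ball, dist_eq_norm, add_sub_cancel_left]; exact hw
      rw [indicator_of_notMem hw, indicator_of_notMem this]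
  have cF : Continuous (fun w => G (z + w)) := by fun_prop
  rw [e1, polar1 cF hr]
  have e2 := intervalIntegral.integral_comp_mul_left
    (fun s : ℝ => s * ∫ θ in (-π)..π, G (z + (s : ℂ) * ev θ)) hr.ne' (a := 0) (b := 1)
  rw [mul_zero, mul_one, smul_eq_mul] at e2
  have e3 : ∫ s in (0:ℝ)..r, s * ∫ θ in (-π)..π, G (z + (s : ℂ) * ev θ) =
      r * ∫ x in (0:ℝ)..1, r * x * ∫ θ in (-π)..π, G (z + ((r * x : ℝ) : ℂ) * ev θ) := by
    rw [e2, ← mul_assoc, mul_inv_cancel₀ hr.ne', one_mul]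
  rw [e3]
  unfold DM CM
  have e4 : ∫ x in (0:ℝ)..1, r * x * ∫ θ in (-π)..π, G (z + ((r * x : ℝ) : ℂ) * ev θ) =
      r * ∫ s in (0:ℝ)..1, s * ∫ θ in (-π)..π, G (z + ((h * z.im * (R * s) : ℝ) : ℂ) * ev θ) := by
    rw [← intervalIntegral.integral_const_mul]
    congr 1; funext s
    rw [mul_assoc]
    congr 2
    congr 1; funext θ
    congr 2
    rw [hrd]; congr 1; ring
  rw [e4]
  generalize (∫ s in (0:ℝ)..1, s * ∫ θ in (-π)..π, G (z + ((h * z.im * (R * s) : ℝ) : ℂ) * ev θ)) = J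
  field_simp

lemma DM_nonneg {h R : ℝ} {G : ℂ → ℝ} (hG0 : ∀ z, 0 ≤ G z) (z : ℂ) : 0 ≤ DM h R G z := by
  unfold DM CM
  have := Real.pi_pos
  refine mul_nonneg (by positivity) (intervalIntegral.integral_nonneg zero_le_one fun s hs =>
    mul_nonneg hs.1 (intervalIntegral.integral_nonneg (by linarith) fun θ _ => hG0 _))

/-- the pointwise bound by disc means -/
lemma ptw_bound {f : ℂ → ℝ} (hf : ContDiffOn ℝ ∞ f HH) {lam h : ℝ} (hh : 0 < h)
    (hhl : h ^ 2 * lam = 1) (pde : ∀ z ∈ HH, z.im ^ 2 * lap f z = -(lam * f z)) (hh4 : h ≤ 1 / 4)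
    {R : ℝ} (hR : 3 / 2 ≤ R) {G : ℂ → ℝ} (hG : Continuous G) (hG0 : ∀ z, 0 ≤ G z) {z : ℂ}
    (hz : z ∈ HH) (he : ∀ w ∈ Metric.ball z (R * (h * z.im)), G w = f w ^ 2) :
    f z ^ 2 ≤ 64 * R ^ 2 * DM h R G z := by
  have hp := Real.pi_pos
  have hy : 0 < z.im := hz
  have hlam : 0 < lam := by
    by_contra hn
    have := mul_nonpos_of_nonneg_of_nonpos (sq_nonneg h) (not_lt.1 hn)
    linarith
  have hsub : Metric.closedBall z (6 * z.im * (h / 2)) ⊆ HH := by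
    intro w hw
    rw [Metric.mem_closedBall, dist_eq_norm] at hw
    have h1 : |(w - z).im| ≤ ‖w - z‖ := abs_im_le_norm _
    have h2 := (abs_le.1 (h1.trans hw)).1
    rw [Complex.sub_im] at h2
    show 0 < w.im
    nlinarith
  have db := disc_bound HH_open hf hlam pde hy (R := h / 2) (by positivity) (by linarith) hsub (by
    have : 4 * lam * (h / 2) ^ 2 = h ^ 2 * lam := by ring
    rw [this, hhl])
  have s4 : √(4 * lam) = 2 / h := by
    have : 4 * lam = (2 / h) ^ 2 := by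
      rw [div_pow, eq_div_iff (by positivity)]
      linear_combination 4 * hhl
    rw [this, Real.sqrt_sq (by positivity)]
  rw [s4] at db
  have hr : 0 < R * (h * z.im) := by
    have : 0 < R := by linarith
    positivity
  have sub2 : Metric.ball z (3 * z.im * (h / 2)) ⊆ Metric.ball z (R * (h * z.im)) :=
    Metric.ball_subset_ball (by nlinarith [mul_pos hh hy])
  have i1 : ∫ w in Metric.ball z (3 * z.im * (h / 2)), f w ^ 2 =
      ∫ w in Metric.ball z (3 * z.im * (h / 2)), G w :=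
    setIntegral_congr_fun measurableSet_ball fun w hw => (he w (sub2 hw)).symm
  have iG : IntegrableOn G (Metric.ball z (R * (h * z.im))) :=
    (hG.continuousOn.integrableOn_compact (isCompact_closedBall z (R * (h * z.im)))).mono_set
      Metric.ball_subset_closedBall
  have i2 : ∫ w in Metric.ball z (3 * z.im * (h / 2)), G w ≤
      ∫ w in Metric.ball z (R * (h * z.im)), G w :=
    setIntegral_mono_set iG (Eventually.of_forall fun w => hG0 w) (Eventually.of_forall sub2)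
  rw [ball_DM hG hr] at i2
  rw [i1] at db
  have h3 : 16 / π * (2 / h / (h / 2)) * ((z.im ^ 2)⁻¹ *
      ∫ w in Metric.ball z (3 * z.im * (h / 2)), G w) ≤
      16 / π * (2 / h / (h / 2)) * ((z.im ^ 2)⁻¹ * (π * (R * (h * z.im)) ^ 2 * DM h R G z)) :=
    mul_le_mul_of_nonneg_left (mul_le_mul_of_nonneg_left i2 (by positivity)) (by positivity)
  refine db.trans (h3.trans (le_of_eq ?_))
  field_simp
  ring

/-- a cutoff function equal to one near the support -/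
lemma nice_cutoff {ψ : ℂ → ℝ} (hψ : TF HH ψ) : ∃ (ζ : ℂ → ℝ) (U1 : Set ℂ), TF HH ζ ∧
    (∀ z, 0 ≤ ζ z) ∧ (∀ z, ζ z ≤ 1) ∧ IsOpen U1 ∧ (∀ z ∈ U1, ζ z = 1) ∧ tsupport ψ ⊆ U1 := by
  obtain ⟨δ0, hδ0, hδU⟩ := hψ.2.1.isCompact.exists_cthickening_subset_open HH_open hψ.2.2
  obtain ⟨ζ, hζ, hζ0, hζ2, hζ1⟩ := Pool.Agent.Y265.RW.cutoff HH_open
    hψ.2.1.isCompact.cthickening hδU
  exact ⟨ζ, Metric.thickening δ0 (tsupport ψ), hζ, hζ0, hζ2, Metric.isOpen_thickening,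
    fun z hz => hζ1 z (Metric.thickening_subset_cthickening _ _ hz),
    Metric.self_subset_thickening hδ0 _⟩

/-- the data -/
structure Dat (lam : ℕ → ℝ) (f : ℕ → ℂ → ℝ) : Prop where
  pos : ∀ n, 0 < lam n
  lim : Tendsto lam atTop atTop
  sm : ∀ n, ContDiffOn ℝ ∞ (f n) HH
  pde : ∀ n, ∀ z ∈ HH, z.im ^ 2 * lap (f n) z = -(lam n * f n z)
  qe : ∀ φ, TF HH φ → Tendsto (fun n => ∫ z, φ z * f n z ^ 2) atTop (𝓝 (∫ z, φ z))
  sps : SPS lam (fun n z => f n z ^ 2)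

variable {lam : ℕ → ℝ} {f : ℕ → ℂ → ℝ}

lemma Dat.hlim (H : Dat lam f) : Tendsto (fun n => 1 / √(lam n)) atTop (𝓝 0) :=
  tendsto_const_nhds.div_atTop (Real.tendsto_sqrt_atTop.comp H.lim)

lemma Dat.hpos (H : Dat lam f) (n : ℕ) : 0 < 1 / √(lam n) := by
  have := Real.sqrt_pos.2 (H.pos n); positivity

lemma Dat.hsq (H : Dat lam f) (n : ℕ) : (1 / √(lam n)) ^ 2 * lam n = 1 := by
  rw [div_pow, Real.sq_sqrt (H.pos n).le, one_pow]
  exact one_div_mul_cancel (H.pos n).ne'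

lemma inv_sm : ContDiffOn ℝ ∞ (fun z : ℂ => (z.im ^ 2)⁻¹) HH := by
  refine ContDiffOn.inv ((imCLM.contDiff.pow 2).contDiffOn) fun z hz => ?_
  exact pow_ne_zero 2 (show 0 < z.im from hz).ne'

/-- fourth moments -/
def I4 (f : ℂ → ℝ) (ψ : ℂ → ℝ) : ℝ := ∫ z, ψ z * (f z ^ 2) ^ 2 / z.im ^ 2
/-- areas -/
def Ar (ψ : ℂ → ℝ) : ℝ := ∫ z, ψ z / z.im ^ 2
/-- mean square deviation of the local masses -/
def Vn (lam R : ℝ) (f : ℂ → ℝ) (ψ : ℂ → ℝ) : ℝ :=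
  ∫ z, ψ z * (DM (1 / √lam) R (fun w => f w ^ 2) z - 1) ^ 2 / z.im ^ 2

lemma Ar_nonneg {ψ : ℂ → ℝ} (h : ∀ z, 0 ≤ ψ z) : 0 ≤ Ar ψ :=
  integral_nonneg fun z => div_nonneg (h z) (sq_nonneg _)

lemma Vn_nonneg {lam R : ℝ} {f ψ : ℂ → ℝ} (h : ∀ z, 0 ≤ ψ z) : 0 ≤ Vn lam R f ψ :=
  integral_nonneg fun z => div_nonneg (mul_nonneg (h z) (sq_nonneg _)) (sq_nonneg _)

/-- boundedness of the fourth moments from the mean square of the local masses -/
lemma bdd (H : Dat lam f) {ζ : ℂ → ℝ} (hζ : TF HH ζ) {R C : ℝ} (hR : 3 / 2 ≤ R)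
    (hV : ∀ᶠ n in atTop, Vn (lam n) R (f n) (fun z => ζ z * (ζ z * z.im ^ 2)) ≤ C) :
    ∃ C' : ℝ, ∀ᶠ n in atTop, ∫ z, (ζ z * f n z ^ 2) ^ 2 ≤ C' := by
  have hR0 : 0 < R := by linarith
  obtain ⟨χ, U1, hχ, hχ0, hχ2, hU1, hχ1, hsub⟩ := nice_cutoff hζ
  refine ⟨(64 * R ^ 2) ^ 2 * (2 * C + 2 * ∫ z, ζ z ^ 2), ?_⟩
  have ev1 := discs hζ.2.1 hU1 hsub R H.hpos H.hlim
  have ev2 : ∀ᶠ n in atTop, 1 / √(lam n) < 1 / 4 := H.hlim.eventually (gt_mem_nhds (by norm_num))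
  filter_upwards [hV, ev1, ev2] with n h1 h2 h3
  set h := 1 / √(lam n) with hh
  have hh0 : 0 < h := H.hpos n
  set G : ℂ → ℝ := fun z => χ z * f n z ^ 2 with hG
  have tG : TF HH G := TF.mulc HH_open hχ ((H.sm n).pow 2)
  have cG := tG.1.continuous
  have hG0 : ∀ z, 0 ≤ G z := fun z => mul_nonneg (hχ0 z) (sq_nonneg _)
  have cD := DM_cont cG h R
  have cζ := hζ.1.continuous
  have e1 : ∀ z, ζ z ≠ 0 → DM h R (fun w => f n w ^ 2) z = DM h R G z := by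
    intro z hz
    refine DM_congr (fun t ht w hw => ?_) hR0.le
    simp only [hG]
    rw [hχ1 _ (h2 z hz t ht w hw), one_mul]
  have e2 : Vn (lam n) R (f n) (fun z => ζ z * (ζ z * z.im ^ 2)) =
      ∫ z, ζ z ^ 2 * (DM h R G z - 1) ^ 2 := by
    have := zeta_int hζ (fun z => (DM h R (fun w => f n w ^ 2) z - 1) ^ 2)
    unfold Vn
    rw [this]
    congr 1; funext z
    by_cases hz : ζ z = 0
    · rw [hz]; ring
    · rw [e1 z hz]
  rw [e2] at h1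
  have e3 : ∀ z, (ζ z * f n z ^ 2) ^ 2 ≤ (64 * R ^ 2) ^ 2 *
      (2 * (ζ z ^ 2 * (DM h R G z - 1) ^ 2) + 2 * ζ z ^ 2) := by
    intro z
    by_cases hz : ζ z = 0
    · rw [hz]; norm_num
    have hzH : z ∈ HH := by
      by_contra hn
      exact hz (TF.zero hζ hn)
    have hy : 0 < z.im := hzH
    have pb := ptw_bound (H.sm n) hh0 (H.hsq n) (H.pde n) h3.le hR cG hG0 hzH (fun w hw => by
      have hw' : w ∈ U1 := by
        rw [Metric.mem_ball, dist_eq_norm] at hw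
        have hr : 0 < R * (h * z.im) := by positivity
        have := h2 z hz R ⟨hR0.le, le_rfl⟩ ((w - z) / ((h * z.im * R : ℝ) : ℂ)) (by
          rw [norm_div, Complex.norm_real, Real.norm_eq_abs, abs_of_pos (by positivity),
            div_le_one (by positivity)]
          linarith)
        rwa [mul_div_cancel₀ _ (by
          have : (h * z.im * R : ℝ) ≠ 0 := by positivity
          exact_mod_cast this), add_sub_cancel] at this
      simp only [hG]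
      rw [hχ1 w hw', one_mul])
    set D := DM h R G z with hD
    have hD0 : 0 ≤ D := DM_nonneg hG0 z
    have q1 : (f n z ^ 2) ^ 2 ≤ (64 * R ^ 2 * D) ^ 2 := pow_le_pow_left₀ (sq_nonneg _) pb 2
    have q2 : D ^ 2 ≤ 2 * (D - 1) ^ 2 + 2 := by nlinarith [sq_nonneg (D - 2)]
    calc (ζ z * f n z ^ 2) ^ 2 = ζ z ^ 2 * (f n z ^ 2) ^ 2 := by ring
      _ ≤ ζ z ^ 2 * (64 * R ^ 2 * D) ^ 2 := mul_le_mul_of_nonneg_left q1 (sq_nonneg _)
      _ = (64 * R ^ 2) ^ 2 * (ζ z ^ 2 * D ^ 2) := by ring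
      _ ≤ (64 * R ^ 2) ^ 2 * (ζ z ^ 2 * (2 * (D - 1) ^ 2 + 2)) :=
          mul_le_mul_of_nonneg_left (mul_le_mul_of_nonneg_left q2 (sq_nonneg _)) (by positivity)
      _ = _ := by ring
  have cs1 : HasCompactSupport (fun z => ζ z ^ 2 * (DM h R G z - 1) ^ 2) := by
    have : HasCompactSupport (fun z => ζ z * (ζ z * (DM h R G z - 1) ^ 2)) := hζ.2.1.mul_right
    have e : (fun z => ζ z ^ 2 * (DM h R G z - 1) ^ 2) =
      fun z => ζ z * (ζ z * (DM h R G z - 1) ^ 2) := by funext z; ring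
    rw [e]; exact this
  have i1 : Integrable (fun z => ζ z ^ 2 * (DM h R G z - 1) ^ 2) :=
    (by fun_prop : Continuous (fun z => ζ z ^ 2 * (DM h R G z - 1) ^ 2)
      ).integrable_of_hasCompactSupport cs1
  have i2 : Integrable (fun z => ζ z ^ 2) := by
    have : HasCompactSupport (fun z : ℂ => ζ z * ζ z) := hζ.2.1.mul_right
    have h5 : Integrable (fun z : ℂ => ζ z * ζ z) := (cζ.mul cζ).integrable_of_hasCompactSupport this
    simpa only [pow_two] using h5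
  have i3 : Integrable (fun z => (ζ z * f n z ^ 2) ^ 2) := by
    have t3 : TF HH (fun z => ζ z * f n z ^ 2) := TF.mulc HH_open hζ ((H.sm n).pow 2)
    have : HasCompactSupport (fun z : ℂ => (ζ z * f n z ^ 2) * (ζ z * f n z ^ 2)) :=
      t3.2.1.mul_right
    have h5 : Integrable (fun z : ℂ => (ζ z * f n z ^ 2) * (ζ z * f n z ^ 2)) :=
      (t3.1.continuous.mul t3.1.continuous).integrable_of_hasCompactSupport this
    simpa only [pow_two] using h5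
  calc ∫ z, (ζ z * f n z ^ 2) ^ 2 ≤ ∫ z, (64 * R ^ 2) ^ 2 *
      (2 * (ζ z ^ 2 * (DM h R G z - 1) ^ 2) + 2 * ζ z ^ 2) :=
        integral_mono i3 (((i1.const_mul 2).add (i2.const_mul 2)).const_mul _) e3
    _ = (64 * R ^ 2) ^ 2 * (2 * (∫ z, ζ z ^ 2 * (DM h R G z - 1) ^ 2) + 2 * ∫ z, ζ z ^ 2) := by
        rw [integral_const_mul, integral_add (i1.const_mul 2) (i2.const_mul 2),
          integral_const_mul, integral_const_mul]
    _ ≤ _ := by
        refine mul_le_mul_of_nonneg_left ?_ (by positivity)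
        linarith

/-- the asymptotic formula for bounded fourth moments -/
lemma V_formula (H : Dat lam f) {R : ℝ} (hR : 0 < R) {ψ : ℂ → ℝ} (hψ : TF HH ψ)
    (hN : ∀ ζ, TF HH ζ → ∃ C' : ℝ, ∀ᶠ n in atTop, ∫ z, (ζ z * f n z ^ 2) ^ 2 ≤ C') :
    Tendsto (fun n => Vn (lam n) R (f n) ψ - vr R * Ar ψ -
      (2 + jj (2 * R) ^ 2) / 3 * (I4 (f n) ψ - 3 * Ar ψ)) atTop (𝓝 0) := by
  obtain ⟨χ, U1, hχ, hχ0, hχ2, hU1, hχ1, hsub⟩ := nice_cutoff hψ
  obtain ⟨C', hC'⟩ := hN χ hχ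
  have tφ : TF HH (fun z => ψ z * (z.im ^ 2)⁻¹) := TF.mulc HH_open hψ inv_sm
  have t1 := first_moment tφ hR (g := fun n z => f n z ^ 2) (fun n => (H.sm n).pow 2)
    (fun n z => sq_nonneg _) H.qe H.hpos H.hlim
  have t2 : Tendsto (fun n => (∫ z, ψ z * DM (1 / √(lam n)) R (fun z => f n z ^ 2) z ^ 2 /
      z.im ^ 2) - (1 + vr R) * (∫ z, ψ z / z.im ^ 2) - (2 + jj (2 * R) ^ 2) / 3 *
        ((∫ z, ψ z * (f n z ^ 2) ^ 2 / z.im ^ 2) - 3 * ∫ z, ψ z / z.im ^ 2)) atTop (𝓝 0) := by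
    rw [Metric.tendsto_atTop']
    intro ε hε
    have e1 := small_scale H.pos H.lim (g := fun n z => f n z ^ 2) (fun n => (H.sm n).pow 2)
      H.sps hR hψ hχ hU1 hχ1 hsub (ε := ε / (2 * (1 + |C'|))) (by positivity)
    have := e1.and hC'
    rw [eventually_atTop] at this
    obtain ⟨n0, hn0⟩ := this
    refine ⟨n0, fun n hn => ?_⟩
    obtain ⟨h1, h2⟩ := hn0 n hn.le
    rw [Real.dist_eq, sub_zero]
    refine h1.trans_lt ?_
    have h3 : 1 + ∫ z, (χ z * f n z ^ 2) ^ 2 ≤ 1 + |C'| := by linarith [le_abs_self C']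
    calc ε / (2 * (1 + |C'|)) * (1 + ∫ z, (χ z * f n z ^ 2) ^ 2) ≤
        ε / (2 * (1 + |C'|)) * (1 + |C'|) := mul_le_mul_of_nonneg_left h3 (by positivity)
      _ = ε / 2 := by field_simp
      _ < ε := by linarith
  have t3 := t2.sub ((t1.sub_const (Ar ψ)).const_mul 2)
  have e0 : ∫ z, ψ z * (z.im ^ 2)⁻¹ = Ar ψ := by
    unfold Ar; congr 1
  rw [e0, sub_self, mul_zero, sub_zero] at t3
  refine t3.congr' ?_
  filter_upwards [discs hψ.2.1 hU1 hsub R H.hpos H.hlim] with n h2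
  set h := 1 / √(lam n) with hh
  set G : ℂ → ℝ := fun z => χ z * f n z ^ 2 with hG
  have tG : TF HH G := TF.mulc HH_open hχ ((H.sm n).pow 2)
  have cG := tG.1.continuous
  have cD := DM_cont cG h R
  have e1 : ∀ z, ψ z ≠ 0 → DM h R (fun w => f n w ^ 2) z = DM h R G z := by
    intro z hz
    refine DM_congr (fun t ht w hw => ?_) hR.le
    simp only [hG]
    rw [hχ1 _ (h2 z hz t ht w hw), one_mul]
  set φ : ℂ → ℝ := fun z => ψ z * (z.im ^ 2)⁻¹ with hφd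
  have cφ := tφ.1.continuous
  have a2 : ∫ z, ψ z * DM h R (fun z => f n z ^ 2) z ^ 2 / z.im ^ 2 =
      ∫ z, φ z * DM h R G z ^ 2 := by
    congr 1; funext z
    by_cases hz : ψ z = 0
    · simp [hφd, hz]
    · rw [e1 z hz]; simp only [hφd]; ring
  have a1 : ∫ z, φ z * DM h R (fun z => f n z ^ 2) z = ∫ z, φ z * DM h R G z := by
    congr 1; funext z
    by_cases hz : ψ z = 0
    · simp [hφd, hz]
    · rw [e1 z hz]
  have a0 : Vn (lam n) R (f n) ψ = ∫ z, φ z * (DM h R G z - 1) ^ 2 := by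
    unfold Vn
    congr 1; funext z
    by_cases hz : ψ z = 0
    · simp [hφd, hz]
    · rw [e1 z hz]; simp only [hφd]; ring
  have j2 : Integrable (fun z => φ z * DM h R G z ^ 2) :=
    (cφ.mul (cD.pow 2)).integrable_of_hasCompactSupport tφ.2.1.mul_right
  have j1 : Integrable (fun z => φ z * DM h R G z) :=
    (cφ.mul cD).integrable_of_hasCompactSupport tφ.2.1.mul_right
  have j0 : Integrable φ := cφ.integrable_of_hasCompactSupport tφ.2.1
  have a3 : ∫ z, φ z * (DM h R G z - 1) ^ 2 = (∫ z, φ z * DM h R G z ^ 2) -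
      2 * (∫ z, φ z * DM h R G z) + Ar ψ := by
    have e : (fun z => φ z * (DM h R G z - 1) ^ 2) = fun z => (φ z * DM h R G z ^ 2 -
        2 * (φ z * DM h R G z)) + φ z := by funext z; ring
    have j3 : Integrable (fun z => 2 * (φ z * DM h R G z)) := j1.const_mul 2
    have j4 : Integrable (fun z => φ z * DM h R G z ^ 2 - 2 * (φ z * DM h R G z)) := j2.sub j3
    rw [e, integral_add j4 j0, integral_sub j2 j3, integral_const_mul]
    rfl
  show (∫ z, ψ z * DM h R (fun z => f n z ^ 2) z ^ 2 / z.im ^ 2) -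
    (1 + vr R) * (∫ z, ψ z / z.im ^ 2) - (2 + jj (2 * R) ^ 2) / 3 *
        ((∫ z, ψ z * (f n z ^ 2) ^ 2 / z.im ^ 2) - 3 * ∫ z, ψ z / z.im ^ 2) -
      2 * ((∫ z, φ z * DM h R (fun z => f n z ^ 2) z) - Ar ψ) = _
  rw [a2, a1, a0, a3]
  unfold I4 Ar
  ring

lemma sgn {a : (ℂ → ℝ) → ℕ → ℝ} {b : (ℂ → ℝ) → ℝ}
    (ha : ∀ ψ χ, TF HH ψ → TF HH χ → ∀ c n, a (fun z => ψ z + c * χ z) n = a ψ n + c * a χ n)
    (hb : ∀ ψ χ, TF HH ψ → TF HH χ → ∀ c, b (fun z => ψ z + c * χ z) = b ψ + c * b χ)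
    (h : ∀ ψ, TF HH ψ → (∀ z, 0 ≤ ψ z) → Tendsto (a ψ) atTop (𝓝 (b ψ))) :
    ∀ ψ, TF HH ψ → Tendsto (a ψ) atTop (𝓝 (b ψ)) := by
  intro ψ hψ
  obtain ⟨χ, U1, hχ, hχ0, -, -, hχ1, hsub⟩ := nice_cutoff hψ
  obtain ⟨C, hC⟩ := hψ.2.1.isCompact.exists_bound_of_continuousOn hψ.1.continuous.continuousOn
  have t1 : TF HH (fun z => ψ z + |C| * χ z) := by
    refine ⟨hψ.1.add (contDiff_const.mul hχ.1), hψ.2.1.add hχ.2.1.mul_left, ?_⟩
    refine (tsupport_add _ _).trans (union_subset hψ.2.2 ?_)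
    refine (closure_mono ?_).trans hχ.2.2
    intro z hz
    exact right_ne_zero_of_mul hz
  have h1 := h _ t1 (fun z => by
    by_cases hz : ψ z = 0
    · rw [hz, zero_add]; exact mul_nonneg (abs_nonneg _) (hχ0 z)
    · have hz' := subset_tsupport _ hz
      rw [hχ1 z (hsub hz'), mul_one]
      have h2 := hC z hz'
      rw [Real.norm_eq_abs] at h2
      have := neg_abs_le (ψ z)
      linarith [le_abs_self C])
  have h2 := h χ hχ hχ0
  have h3 := h1.sub (h2.const_mul |C|)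
  have e1 : b (fun z => ψ z + |C| * χ z) - |C| * b χ = b ψ := by rw [hb _ _ hψ hχ]; ring
  rw [e1] at h3
  refine h3.congr fun n => ?_
  rw [ha _ _ hψ hχ]; ring

lemma I4_int (H : Dat lam f) {ψ : ℂ → ℝ} (hψ : TF HH ψ) (n : ℕ) :
    Integrable (fun z => ψ z * (f n z ^ 2) ^ 2 / z.im ^ 2) := by
  have t := TF.mulc HH_open hψ ((((H.sm n).pow 2).pow 2).mul inv_sm)
  refine (t.1.continuous.integrable_of_hasCompactSupport t.2.1).congr
    (Eventually.of_forall fun z => ?_)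
  show ψ z * ((f n z ^ 2) ^ 2 * (z.im ^ 2)⁻¹) = ψ z * (f n z ^ 2) ^ 2 / z.im ^ 2
  ring

lemma Ar_int {ψ : ℂ → ℝ} (hψ : TF HH ψ) : Integrable (fun z => ψ z / z.im ^ 2) := by
  have t := TF.mulc HH_open hψ inv_sm
  exact t.1.continuous.integrable_of_hasCompactSupport t.2.1

lemma I4_add (H : Dat lam f) (ψ χ : ℂ → ℝ) (hψ : TF HH ψ) (hχ : TF HH χ) (c : ℝ) (n : ℕ) :
    I4 (f n) (fun z => ψ z + c * χ z) = I4 (f n) ψ + c * I4 (f n) χ := by
  unfold I4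
  rw [← integral_const_mul, ← integral_add (I4_int H hψ n) ((I4_int H hχ n).const_mul c)]
  congr 1; funext z; ring

lemma Ar_add (ψ χ : ℂ → ℝ) (hψ : TF HH ψ) (hχ : TF HH χ) (c : ℝ) :
    Ar (fun z => ψ z + c * χ z) = Ar ψ + c * Ar χ := by
  unfold Ar
  rw [← integral_const_mul, ← integral_add (Ar_int hψ) ((Ar_int hχ).const_mul c)]
  congr 1; funext z; ring

lemma sq_test {ζ : ℂ → ℝ} (hζ : TF HH ζ) : TF HH (fun z => ζ z * (ζ z * z.im ^ 2)) ∧
    ∀ z, 0 ≤ ζ z * (ζ z * z.im ^ 2) := by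
  refine ⟨TF.mulc HH_open hζ (hζ.1.contDiffOn.mul ((imCLM.contDiff.pow 2).contDiffOn)),
    fun z => ?_⟩
  have : ζ z * (ζ z * z.im ^ 2) = (ζ z * z.im) ^ 2 := by ring
  rw [this]; positivity

/-- (a) implies bounded fourth moments -/
lemma bdd_a (H : Dat lam f)
    (ha : ∀ ψ, TF HH ψ → Tendsto (fun n => I4 (f n) ψ) atTop (𝓝 (3 * Ar ψ))) :
    ∀ ζ, TF HH ζ → ∃ C' : ℝ, ∀ᶠ n in atTop, ∫ z, (ζ z * f n z ^ 2) ^ 2 ≤ C' := by
  intro ζ hζ
  have h1 := ha _ (sq_test hζ).1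
  refine ⟨3 * Ar (fun z => ζ z * (ζ z * z.im ^ 2)) + 1, ?_⟩
  filter_upwards [h1.eventually (gt_mem_nhds (lt_add_one _))] with n hn
  refine le_trans (le_of_eq ?_) hn.le
  unfold I4
  have := zeta_int hζ (fun z => (f n z ^ 2) ^ 2)
  rw [this]
  congr 1; funext z; ring

/-- (a) ⟹ (b) -/
theorem a_b (H : Dat lam f)
    (ha : ∀ ψ, TF HH ψ → Tendsto (fun n => I4 (f n) ψ) atTop (𝓝 (3 * Ar ψ))) {R : ℝ}
    (hR : 0 < R) {ψ : ℂ → ℝ} (hψ : TF HH ψ) :
    Tendsto (fun n => Vn (lam n) R (f n) ψ) atTop (𝓝 (vr R * Ar ψ)) := by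
  have h1 := V_formula H hR hψ (bdd_a H ha)
  have h2 := ((ha ψ hψ).sub_const (3 * Ar ψ)).const_mul ((2 + jj (2 * R) ^ 2) / 3)
  rw [sub_self, mul_zero] at h2
  have h3 := (h1.add h2).add_const (vr R * Ar ψ)
  rw [add_zero, zero_add] at h3
  refine h3.congr fun n => ?_
  ring

lemma kap_pos (R : ℝ) : 2 / 3 ≤ (2 + jj (2 * R) ^ 2) / 3 := by
  have := sq_nonneg (jj (2 * R)); linarith

/-- (c) ⟹ (a) -/
theorem c_a (H : Dat lam f) {R : ℝ} (hR : 3 / 2 ≤ R)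
    (hc : ∀ ψ, TF HH ψ → (∀ z, 0 ≤ ψ z) →
      Tendsto (fun n => Vn (lam n) R (f n) ψ) atTop (𝓝 (vr R * Ar ψ))) :
    ∀ ψ, TF HH ψ → Tendsto (fun n => I4 (f n) ψ) atTop (𝓝 (3 * Ar ψ)) := by
  have hN : ∀ ζ, TF HH ζ → ∃ C' : ℝ, ∀ᶠ n in atTop, ∫ z, (ζ z * f n z ^ 2) ^ 2 ≤ C' := by
    intro ζ hζ
    have h1 := hc _ (sq_test hζ).1 (sq_test hζ).2
    exact bdd H hζ hR ((h1.eventually (gt_mem_nhds (lt_add_one _))).mono fun n hn => hn.le)
  refine sgn (a := fun ψ n => I4 (f n) ψ) (b := fun ψ => 3 * Ar ψ)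
    (fun ψ χ hψ hχ c n => I4_add H ψ χ hψ hχ c n)
    (fun ψ χ hψ hχ c => by rw [Ar_add ψ χ hψ hχ c]; ring) ?_
  intro ψ hψ hψ0
  have hk := kap_pos R
  set κ := (2 + jj (2 * R) ^ 2) / 3 with hκ
  have h1 := V_formula H (by linarith : 0 < R) hψ hN
  have h2 := ((hc ψ hψ hψ0).sub_const (vr R * Ar ψ)).sub h1
  rw [sub_self, sub_zero] at h2
  have h3 := (h2.const_mul κ⁻¹).add_const (3 * Ar ψ)
  rw [mul_zero, zero_add] at h3
  refine h3.congr fun n => ?_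
  have hκ0 : κ ≠ 0 := by linarith
  have e : Vn (lam n) R (f n) ψ - vr R * Ar ψ - (Vn (lam n) R (f n) ψ - vr R * Ar ψ -
      κ * (I4 (f n) ψ - 3 * Ar ψ)) = κ * (I4 (f n) ψ - 3 * Ar ψ) := by ring
  rw [e, ← mul_assoc, inv_mul_cancel₀ hκ0]
  ring

/-- (b) ⟹ (d) -/
theorem b_d (hb : ∀ R, 0 < R → ∀ ψ, TF HH ψ →
      Tendsto (fun n => Vn (lam n) R (f n) ψ) atTop (𝓝 (vr R * Ar ψ))) :
    ∀ ψ, TF HH ψ → (∀ z, 0 ≤ ψ z) → ∀ ε, 0 < ε → ∃ R0, ∀ R, R0 ≤ R → ∀ᶠ n in atTop,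
      Vn (lam n) R (f n) ψ ≤ ε := by
  intro ψ hψ hψ0 ε hε
  have h1 : Tendsto (fun R => vr R * Ar ψ) atTop (𝓝 0) := by
    simpa using vr_tendsto.mul_const (Ar ψ)
  have h2 := h1.eventually (gt_mem_nhds hε)
  obtain ⟨R0, hR0⟩ := eventually_atTop.1 (h2.and (eventually_gt_atTop 0))
  refine ⟨R0, fun R hR => ?_⟩
  obtain ⟨h3, h4⟩ := hR0 R hR
  exact ((hb R h4 ψ hψ).eventually (gt_mem_nhds h3)).mono fun n hn => hn.le

/-- (d) ⟹ (a) -/
theorem d_a (H : Dat lam f)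
    (hd : ∀ ψ, TF HH ψ → (∀ z, 0 ≤ ψ z) → ∀ ε, 0 < ε → ∃ R0, ∀ R, R0 ≤ R → ∀ᶠ n in atTop,
      Vn (lam n) R (f n) ψ ≤ ε) :
    ∀ ψ, TF HH ψ → Tendsto (fun n => I4 (f n) ψ) atTop (𝓝 (3 * Ar ψ)) := by
  have hN : ∀ ζ, TF HH ζ → ∃ C' : ℝ, ∀ᶠ n in atTop, ∫ z, (ζ z * f n z ^ 2) ^ 2 ≤ C' := by
    intro ζ hζ
    obtain ⟨R0, hR0⟩ := hd _ (sq_test hζ).1 (sq_test hζ).2 1 one_pos
    exact bdd H hζ (le_max_right R0 (3 / 2)) (hR0 _ (le_max_left _ _))
  refine sgn (a := fun ψ n => I4 (f n) ψ) (b := fun ψ => 3 * Ar ψ)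
    (fun ψ χ hψ hχ c n => I4_add H ψ χ hψ hχ c n)
    (fun ψ χ hψ hχ c => by rw [Ar_add ψ χ hψ hχ c]; ring) ?_
  intro ψ hψ hψ0
  show Tendsto (fun n => I4 (f n) ψ) atTop (𝓝 (3 * Ar ψ))
  rw [Metric.tendsto_atTop']
  intro ε hε
  obtain ⟨R0, hR0⟩ := hd ψ hψ hψ0 (ε / 8) (by positivity)
  have h1 : Tendsto (fun R => vr R * Ar ψ) atTop (𝓝 0) := by
    simpa using vr_tendsto.mul_const (Ar ψ)
  obtain ⟨R1, hR1⟩ := eventually_atTop.1 ((h1.eventually (gt_mem_nhds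
    (by positivity : 0 < ε / 8))).and (eventually_gt_atTop 0))
  set R := max R0 R1 with hR
  obtain ⟨h3, h4⟩ := hR1 R (le_max_right _ _)
  have hA0 := Ar_nonneg hψ0
  have hv0 : 0 ≤ vr R * Ar ψ := mul_nonneg (vr_nonneg R) hA0
  have h5 := V_formula H h4 hψ hN
  have h6 := h5.eventually (Metric.ball_mem_nhds _ (by positivity : 0 < ε / 8))
  obtain ⟨n0, hn0⟩ := eventually_atTop.1 (h6.and (hR0 R (le_max_left _ _)))
  refine ⟨n0, fun n hn => ?_⟩
  obtain ⟨h7, h8⟩ := hn0 n hn.le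
  rw [Real.dist_eq, sub_zero] at h7
  rw [Real.dist_eq]
  have hV0 : 0 ≤ Vn (lam n) R (f n) ψ := Vn_nonneg hψ0
  have hk := kap_pos R
  set κ := (2 + jj (2 * R) ^ 2) / 3 with hκ
  set X := I4 (f n) ψ - 3 * Ar ψ with hX
  set V := Vn (lam n) R (f n) ψ with hV
  rw [abs_lt] at h7
  have b1 : κ * X < ε / 4 := by linarith [h7.1]
  have b2 : -(ε / 4) < κ * X := by linarith [h7.2]
  have b3 : |κ * X| < ε / 4 := abs_lt.2 ⟨b2, b1⟩
  rw [abs_mul, abs_of_pos (by linarith : 0 < κ)] at b3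
  have b4 : 2 / 3 * |X| ≤ κ * |X| := mul_le_mul_of_nonneg_right hk (abs_nonneg _)
  linarith

end

end Pool.Agent.T9h62.SQ
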