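import Pool.Agent.T9h62.SQ.Circ

/-! Bounds for the pairings of circular means. -/
set_option autoImplicit false
open MeasureTheory Filter Topology Set Complex
open scoped ContDiff Real

namespace Pool.Agent.T9h62.SQ

open Pool.Agent.Y265.HY (ev ev_re ev_im ev_norm ev_cont MM PP' Av fx fy MM_d NN_d Av_d PP0 MM0
  fx_sm fy_sm arg_cont)

noncomputable section

/-- the real linear map `z ↦ z + (im z) a` -/
def SL (a : ℂ) : ℂ →ₗ[ℝ] ℂ := LinearMap.id + Complex.imLm.smulRight a

lemma SL_apply (a z : ℂ) : SL a z = z + (z.im : ℂ) * a := by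
  simp [SL, LinearMap.smulRight]

lemma SL_det (a : ℂ) : LinearMap.det (SL a) = 1 + a.im := by
  rw [← LinearMap.det_toMatrix Complex.basisOneI, Matrix.det_fin_two]
  simp [LinearMap.toMatrix_apply, SL_apply]

/-- the same map as a homeomorphism -/
def SH (a : ℂ) (ha : 1 + a.im ≠ 0) : ℂ ≃ₜ ℂ where
  toFun z := z + (z.im : ℂ) * a
  invFun w := w - ((w.im / (1 + a.im) : ℝ) : ℂ) * a
  left_inv z := by
    have : (z + (z.im : ℂ) * a).im = z.im * (1 + a.im) := by simp; ring
    simp only [this]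
    rw [mul_div_cancel_right₀ _ ha]
    ring
  right_inv w := by
    have : (w - ((w.im / (1 + a.im) : ℝ) : ℂ) * a).im = w.im / (1 + a.im) := by
      rw [Complex.sub_im, Complex.im_ofReal_mul]
      field_simp
      ring
    simp only [this]
    ring
  continuous_toFun := by fun_prop
  continuous_invFun := by fun_prop

lemma int_S {a : ℂ} (ha : 1 + a.im ≠ 0) (G : ℂ → ℝ) :
    ∫ z : ℂ, G (z + (z.im : ℂ) * a) = |(1 + a.im)⁻¹| * ∫ z, G z := by
  have h1 := Measure.map_linearMap_addHaar_eq_smul_addHaar (volume : Measure ℂ)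
    (f := SL a) (by rw [SL_det]; exact ha)
  rw [SL_det] at h1
  have h2 : ∫ z, G z ∂(Measure.map (SH a ha) volume) = ∫ z : ℂ, G (z + (z.im : ℂ) * a) :=
    (SH a ha).measurableEmbedding.integral_map G
  have h3 : (fun z => SL a z) = fun z => (SH a ha) z := by
    funext z; rw [SL_apply]; rfl
  have h4 : Measure.map (SH a ha) (volume : Measure ℂ) = Measure.map (SL a) volume := by
    congr 1
  rw [← h2, h4, h1, integral_smul_measure, ENNReal.toReal_ofReal (abs_nonneg _), smul_eq_mul]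

lemma cs_S {a : ℂ} (ha : 1 + a.im ≠ 0) {G : ℂ → ℝ} (hG : HasCompactSupport G) :
    HasCompactSupport (fun z : ℂ => G (z + (z.im : ℂ) * a)) :=
  hG.comp_homeomorph (SH a ha)

lemma young_S {a : ℂ} (ha : |a.im| ≤ 1 / 2) {q G : ℂ → ℝ} (hq : Continuous q)
    (hqs : HasCompactSupport q) (hG : Continuous G) (hGs : HasCompactSupport G) :
    ∫ z : ℂ, |q z * G (z + (z.im : ℂ) * a)| ≤ (∫ z, q z ^ 2) + ∫ z, G z ^ 2 := by
  have h0 : (1 / 2 : ℝ) ≤ 1 + a.im := by linarith [(abs_le.1 ha).1]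
  have h1 : 1 + a.im ≠ 0 := by linarith
  have c1 : Continuous (fun z : ℂ => G (z + (z.im : ℂ) * a)) := by fun_prop
  have i1 : Integrable (fun z : ℂ => |q z * G (z + (z.im : ℂ) * a)|) := by
    have : HasCompactSupport (fun z : ℂ => q z * G (z + (z.im : ℂ) * a)) := hqs.mul_right
    have h5 : Integrable (fun z : ℂ => q z * G (z + (z.im : ℂ) * a)) :=
      (hq.mul c1).integrable_of_hasCompactSupport this
    exact h5.abs
  have i2 : Integrable (fun z : ℂ => q z ^ 2) := by
    have : HasCompactSupport (fun z : ℂ => q z * q z) := hqs.mul_right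
    have h5 : Integrable (fun z : ℂ => q z * q z) :=
      (hq.mul hq).integrable_of_hasCompactSupport this
    simpa only [pow_two] using h5
  have i3 : Integrable (fun z : ℂ => G (z + (z.im : ℂ) * a) ^ 2) := by
    have : HasCompactSupport (fun z : ℂ => G (z + (z.im : ℂ) * a) * G (z + (z.im : ℂ) * a)) :=
      (cs_S h1 hGs).mul_right
    have h5 : Integrable (fun z : ℂ => G (z + (z.im : ℂ) * a) * G (z + (z.im : ℂ) * a)) :=
      (c1.mul c1).integrable_of_hasCompactSupport this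
    simpa only [pow_two] using h5
  have e3 := int_S h1 (fun z => G z ^ 2)
  have p3 : 0 ≤ ∫ z, G z ^ 2 := integral_nonneg fun z => sq_nonneg _
  have b3 : |(1 + a.im)⁻¹| ≤ 2 := by
    rw [abs_of_pos (by positivity)]
    rw [inv_le_comm₀ (by linarith) two_pos]
    linarith
  calc ∫ z : ℂ, |q z * G (z + (z.im : ℂ) * a)| ≤
      ∫ z : ℂ, (1 / 2 * q z ^ 2 + 1 / 2 * G (z + (z.im : ℂ) * a) ^ 2) := by
        refine integral_mono i1 ((i2.const_mul _).add (i3.const_mul _)) fun z => ?_
        show |q z * G (z + (z.im : ℂ) * a)| ≤ 1 / 2 * q z ^ 2 + 1 / 2 * G (z + (z.im : ℂ) * a) ^ 2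
        rw [abs_le]
        constructor
        · nlinarith [sq_nonneg (q z + G (z + (z.im : ℂ) * a))]
        · nlinarith [sq_nonneg (q z - G (z + (z.im : ℂ) * a))]
    _ = 1 / 2 * (∫ z, q z ^ 2) + 1 / 2 * (|(1 + a.im)⁻¹| * ∫ z, G z ^ 2) := by
        rw [integral_add (i2.const_mul _) (i3.const_mul _), integral_const_mul,
          integral_const_mul, e3]
    _ ≤ _ := by
        have p2 : 0 ≤ ∫ z, q z ^ 2 := integral_nonneg fun z => sq_nonneg _
        have := mul_le_mul_of_nonneg_right b3 p3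
        linarith

lemma arg_eq (h t θ : ℝ) (z : ℂ) : z + ((h * z.im * t : ℝ) : ℂ) * ev θ =
    z + (z.im : ℂ) * (((h * t : ℝ) : ℂ) * ev θ) := by
  push_cast; ring

/-- weighted circular means against `q` -/
lemma GG_bound {h t : ℝ} (ht : |h * t| ≤ 1 / 2) {q G : ℂ → ℝ} (hq : Continuous q)
    (hqs : HasCompactSupport q) (hG : Continuous G) (hGs : HasCompactSupport G)
    {w : ℝ → ℝ} (hw : Continuous w) {om : ℝ} (hom : ∀ θ, |w θ| ≤ om) :
    |∫ z, q z * ∫ θ in (-π)..π, w θ * G (z + ((h * z.im * t : ℝ) : ℂ) * ev θ)| ≤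
      om * (2 * π * ((∫ z, q z ^ 2) + ∫ z, G z ^ 2)) := by
  have hp := Real.pi_pos
  have hev := ev_cont
  have hom0 : 0 ≤ om := (abs_nonneg _).trans (hom 0)
  have e1 : ∫ z, q z * ∫ θ in (-π)..π, w θ * G (z + ((h * z.im * t : ℝ) : ℂ) * ev θ) =
      ∫ θ in (-π)..π, ∫ z, w θ * (q z * G (z + ((h * z.im * t : ℝ) : ℂ) * ev θ)) := by
    rw [← swap (H := fun z θ => w θ * (q z * G (z + ((h * z.im * t : ℝ) : ℂ) * ev θ))) ?_
      hqs.isCompact ?_]
    · congr 1; funext z
      rw [← intervalIntegral.integral_const_mul]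
      congr 1; funext θ; ring
    · unfold Function.uncurry
      fun_prop
    · intro z hz θ
      rw [image_eq_zero_of_notMem_tsupport hz]; ring
  rw [e1]
  have key : ∀ θ, ‖∫ z, w θ * (q z * G (z + ((h * z.im * t : ℝ) : ℂ) * ev θ))‖ ≤
      om * ((∫ z, q z ^ 2) + ∫ z, G z ^ 2) := by
    intro θ
    have ha : |(((h * t : ℝ) : ℂ) * ev θ).im| ≤ 1 / 2 := by
      have h1 : |(((h * t : ℝ) : ℂ) * ev θ).im| ≤ ‖((h * t : ℝ) : ℂ) * ev θ‖ := abs_im_le_norm _
      rw [norm_mul, ev_norm, mul_one, Complex.norm_real, Real.norm_eq_abs] at h1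
      exact h1.trans ht
    have y := young_S ha hq hqs hG hGs
    rw [integral_const_mul, norm_mul, Real.norm_eq_abs]
    refine mul_le_mul (hom θ) ?_ (norm_nonneg _) hom0
    refine (norm_integral_le_integral_norm _).trans ?_
    refine le_trans (le_of_eq ?_) y
    congr 1; funext z
    rw [Real.norm_eq_abs, arg_eq]
  have := intervalIntegral.norm_integral_le_of_norm_le_const (a := -π) (b := π)
    (fun θ _ => key θ)
  rw [Real.norm_eq_abs] at this
  refine this.trans (le_of_eq ?_)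
  rw [abs_of_pos (by linarith)]
  ring

end

end Pool.Agent.T9h62.SQ
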