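import Pool.Agent.T9h62.SQ.Main1

/-! The Bessel function `2 J₁(x) / x` as a disc mean, and its Taylor polynomials. -/
set_option autoImplicit false
open MeasureTheory Filter Topology Set Complex
open scoped ContDiff Real

namespace Pool.Agent.T9h62.SQ

open Pool.Agent.Y265.HY (ev ev_re ev_im ev_norm ev_cont MM PP' Av fx fy MM_d NN_d Av_d PP0 MM0
  fx_sm fy_sm arg_cont)

noncomputable section

lemma polar1 {F : ℂ → ℝ} (hF : Continuous F) {R : ℝ} (hR : 0 < R) :
    ∫ z in Metric.ball (0 : ℂ) R, F z =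
      ∫ s in (0:ℝ)..R, s * ∫ θ in (-π)..π, F ((s : ℂ) * ev θ) := by
  have hp := Real.pi_pos
  have pol := Complex.integral_comp_polarCoord_symm
    (fun z => (Metric.ball (0:ℂ) R).indicator (fun z => F z) z)
  rw [integral_indicator measurableSet_ball] at pol
  rw [← pol]
  have cG : Continuous (fun p : ℝ × ℝ => p.1 * F ((p.1 : ℂ) * ev p.2)) :=
    continuous_fst.mul (hF.comp arg_cont)
  have e1 : ∫ p in Ioi (0:ℝ) ×ˢ Ioo (-π) π, p.1 • (Metric.ball (0:ℂ) R).indicator
      (fun z => F z) (Complex.polarCoord.symm p) =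
      ∫ p in Ioo (0:ℝ) R ×ˢ Ioo (-π) π, p.1 * F ((p.1 : ℂ) * ev p.2) := by
    rw [← integral_indicator (measurableSet_Ioi.prod measurableSet_Ioo),
      ← integral_indicator (measurableSet_Ioo.prod measurableSet_Ioo)]
    congr 1; funext p
    have hs : Complex.polarCoord.symm p = (p.1 : ℂ) * ev p.2 := by
      rw [Complex.polarCoord_symm_apply]; rfl
    have hn : ‖(p.1 : ℂ) * ev p.2‖ = |p.1| := by
      rw [norm_mul, ev_norm, mul_one, Complex.norm_real, Real.norm_eq_abs]
    by_cases h1 : p ∈ Ioi (0:ℝ) ×ˢ Ioo (-π) π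
    · rw [indicator_of_mem h1]
      have h0 : 0 < p.1 := h1.1
      by_cases h2 : p.1 < R
      · have h3 : p ∈ Ioo (0:ℝ) R ×ˢ Ioo (-π) π := ⟨⟨h0, h2⟩, h1.2⟩
        have h4 : (p.1 : ℂ) * ev p.2 ∈ Metric.ball (0:ℂ) R := by
          rw [mem_ball_zero_iff, hn, abs_of_pos h0]; exact h2
        rw [indicator_of_mem h3, hs, indicator_of_mem h4, smul_eq_mul]
      · have h3 : p ∉ Ioo (0:ℝ) R ×ˢ Ioo (-π) π := fun h => h2 h.1.2
        have h4 : (p.1 : ℂ) * ev p.2 ∉ Metric.ball (0:ℂ) R := by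
          rw [mem_ball_zero_iff, hn, abs_of_pos h0]; exact h2
        rw [indicator_of_notMem h3, hs, indicator_of_notMem h4, smul_zero]
    · have h3 : p ∉ Ioo (0:ℝ) R ×ˢ Ioo (-π) π := fun h => h1 ⟨h.1.1, h.2⟩
      rw [indicator_of_notMem h1, indicator_of_notMem h3]
  have e0 : polarCoord.target = Ioi (0:ℝ) ×ˢ Ioo (-π) π := rfl
  rw [e0, e1]
  have hint : IntegrableOn (fun p : ℝ × ℝ => p.1 * F ((p.1 : ℂ) * ev p.2))
      (Ioo (0:ℝ) R ×ˢ Ioo (-π) π) (volume.prod volume) :=
    (cG.continuousOn.integrableOn_compact (isCompact_Icc.prod isCompact_Icc)).mono_set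
      (prod_mono Ioo_subset_Icc_self Ioo_subset_Icc_self)
  have e2 := setIntegral_prod (μ := volume) (ν := volume)
    (fun p : ℝ × ℝ => p.1 * F ((p.1 : ℂ) * ev p.2)) hint
  rw [Measure.volume_eq_prod, e2, intervalIntegral.integral_of_le hR.le,
    integral_Ioc_eq_integral_Ioo]
  congr 1; funext s
  rw [intervalIntegral.integral_of_le (by linarith), integral_Ioc_eq_integral_Ioo,
    integral_const_mul]

/-- averages over the unit disc -/
lemma avg_polar {F : ℂ → ℝ} (hF : Continuous F) :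
    ⨍ z in Metric.ball (0 : ℂ) 1, F z = 1 / π * ∫ s in (0:ℝ)..1, s * MM F s := by
  rw [setAverage_eq, polar1 hF one_pos]
  have h1 : (volume : Measure ℂ).real (Metric.ball (0:ℂ) 1) = π := by
    simp [Measure.real, Complex.volume_ball]
  rw [h1, smul_eq_mul, one_div]
  unfold MM Av
  simp

lemma DM_eq {G : ℂ → ℝ} (hG : Continuous G) (h R : ℝ) (z : ℂ) :
    DM h R G z = ⨍ w in Metric.ball (0 : ℂ) 1, G (z + ((R * (h * z.im) : ℝ) : ℂ) * w) := by
  rw [avg_polar (by fun_prop)]
  unfold DM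
  congr 2; funext s
  congr 1
  unfold CM MM Av
  congr 1; funext θ
  rw [one_mul]
  congr 2
  push_cast; ring

/-- `2 J₁(x) / x` -/
def jj (x : ℝ) : ℝ := ⨍ w in Metric.ball (0 : ℂ) 1, Real.cos (x * w.re)

/-- the plane wave -/
def pw (x : ℝ) (w : ℂ) : ℝ := Real.cos (x * w.re)

lemma pw_sm (x : ℝ) : ContDiff ℝ ∞ (pw x) := by
  unfold pw
  exact Real.contDiff_cos.comp (contDiff_const.mul reCLM.contDiff)

lemma pw_fx (x : ℝ) : fx (pw x) = fun w => - x * Real.sin (x * w.re) := by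
  funext w
  unfold fx pw
  have h1 : HasFDerivAt (fun w : ℂ => x * w.re) (x • reCLM) w :=
    (reCLM.hasFDerivAt (x := w)).const_mul x
  have h2 := h1.cos
  rw [h2.fderiv]
  simp
  ring

lemma pw_fy (x : ℝ) : fy (pw x) = fun _ => 0 := by
  funext w
  unfold fy pw
  have h1 : HasFDerivAt (fun w : ℂ => x * w.re) (x • reCLM) w :=
    (reCLM.hasFDerivAt (x := w)).const_mul x
  have h2 := h1.cos
  rw [h2.fderiv]
  simp

lemma pw_lp (x : ℝ) : lp (pw x) = fun w => - x ^ 2 * pw x w := by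
  funext w
  unfold lp
  rw [pw_fx, pw_fy]
  have h1 : HasFDerivAt (fun w : ℂ => x * w.re) (x • reCLM) w :=
    (reCLM.hasFDerivAt (x := w)).const_mul x
  have h2 := (h1.sin).const_mul (-x)
  unfold fx fy
  rw [h2.fderiv]
  simp [pw]
  ring

lemma MM_smul (c : ℝ) (F : ℂ → ℝ) (s : ℝ) : MM (fun w => c * F w) s = c * MM F s := by
  unfold MM Av
  rw [← intervalIntegral.integral_const_mul]
  congr 1; funext θ; ring

lemma MM_pw_bound (x s : ℝ) : |MM (pw x) s| ≤ 2 * π := by
  have hp := Real.pi_pos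
  unfold MM Av
  have := intervalIntegral.norm_integral_le_of_norm_le_const (a := -π) (b := π) (C := 1)
    (f := fun θ => (1 : ℝ) * pw x ((s : ℂ) * ev θ)) (fun θ _ => by
      rw [one_mul, Real.norm_eq_abs]; exact Real.abs_cos_le_one _)
  rw [Real.norm_eq_abs] at this
  refine this.trans (le_of_eq ?_)
  rw [abs_of_pos (by linarith)]; ring

lemma jj_series (x : ℝ) (K : ℕ) :
    |jj x - ∑ k ∈ Finset.range K, (-1) ^ k * dd k * x ^ (2 * k)| ≤ cc K * x ^ (2 * K) := by
  have hp := Real.pi_pos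
  have hsm := pw_sm x
  have cMM : Continuous (MM (pw x)) := MM_cont hsm
  have x2 : ∀ m, 0 ≤ x ^ (2 * m) := fun m => by rw [pow_mul]; positivity
  have it := iterate 1 0 (x ^ (2 * K) * (2 * π)) le_rfl (mul_nonneg (x2 K) (by positivity)) K
    (fun k t => x ^ (2 * k) * MM (pw x) t) (fun _ _ => 0) (fun k => continuous_const.mul cMM)
    (fun k => continuous_const) ?_ ?_ ?_
  rotate_left
  · intro k _ r _
    have h1 := MM_eq hsm 1 r
    simp only [one_mul, one_pow, pw_lp] at h1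
    have h2 : (fun t => MM (fun w => - x ^ 2 * pw x w) t) = fun t => - x ^ 2 * MM (pw x) t := by
      funext t; exact MM_smul _ _ _
    rw [h2, TT_smul] at h1
    have h3 : (fun t => x ^ (2 * (k + 1)) * MM (pw x) t + 0) =
        fun t => x ^ (2 * (k + 1)) * MM (pw x) t := by funext t; ring
    rw [h3, TT_smul]
    have h4 : MM (pw x) 0 = 2 * π * pw x 0 := MM0
    rw [h1, h4]
    ring
  · intro t _
    rw [abs_mul, abs_of_nonneg (x2 K)]
    exact mul_le_mul_of_nonneg_left (MM_pw_bound x t) (x2 K)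
  · intro k _ t _; simp
  simp only [zero_mul, add_zero, mul_zero, pow_zero, one_mul] at it
  have h4 : MM (pw x) 0 = 2 * π := by
    have : MM (pw x) 0 = 2 * π * pw x 0 := MM0
    rw [this]; simp [pw]
  rw [h4] at it
  have it2 : ∀ s ∈ Icc (0:ℝ) 1, |MM (pw x) s - ∑ k ∈ Finset.range K, (-1) ^ k * cc k * s ^ (2 * k) *
      (x ^ (2 * k) * (2 * π))| ≤ cc K * x ^ (2 * K) * (2 * π) := by
    intro s hs
    refine (it s hs).trans ?_
    have h5 : s ^ (2 * K) ≤ 1 := pow_le_one₀ hs.1 hs.2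
    have h6 : cc K * s ^ (2 * K) ≤ cc K * 1 := mul_le_mul_of_nonneg_left h5 (cc_pos K).le
    have h7 := mul_le_mul_of_nonneg_right h6 (mul_nonneg (x2 K) (by positivity : (0:ℝ) ≤ 2 * π))
    linarith
  have e0 : jj x = 1 / π * ∫ s in (0:ℝ)..1, s * MM (pw x) s := avg_polar hsm.continuous
  have e3 : ∑ k ∈ Finset.range K, (-1) ^ k * dd k * x ^ (2 * k) =
      1 / π * ∫ s in (0:ℝ)..1, s *
        ∑ k ∈ Finset.range K, (-1) ^ k * cc k * s ^ (2 * k) * (x ^ (2 * k) * (2 * π)) := by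
    have e4 : ∀ s : ℝ, s * ∑ k ∈ Finset.range K, (-1) ^ k * cc k * s ^ (2 * k) *
        (x ^ (2 * k) * (2 * π)) =
        ∑ k ∈ Finset.range K, ((-1) ^ k * cc k * x ^ (2 * k) * (2 * π)) * s ^ (2 * k + 1) := by
      intro s
      rw [Finset.mul_sum]
      refine Finset.sum_congr rfl fun k _ => ?_
      ring
    simp only [e4]
    rw [intervalIntegral.integral_finsetSum (fun k _ =>
      Continuous.intervalIntegrable (by fun_prop) _ _), Finset.mul_sum]
    refine Finset.sum_congr rfl fun k _ => ?_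
    rw [intervalIntegral.integral_const_mul, integral_pow]
    unfold dd
    push_cast
    have : (k : ℝ) + 1 ≠ 0 := by positivity
    have h2 : (2 * (k : ℝ) + 1 + 1) ≠ 0 := by positivity
    field_simp
    ring
  have i1 : IntervalIntegrable (fun s => s * MM (pw x) s) volume 0 1 :=
    (continuous_id.mul cMM).intervalIntegrable _ _
  have i2 : IntervalIntegrable (fun s : ℝ => s * ∑ k ∈ Finset.range K, (-1) ^ k * cc k *
      s ^ (2 * k) * (x ^ (2 * k) * (2 * π))) volume 0 1 :=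
    Continuous.intervalIntegrable (by fun_prop) _ _
  rw [e0, e3, ← mul_sub, ← intervalIntegral.integral_sub i1 i2, abs_mul,
    abs_of_pos (by positivity : (0:ℝ) < 1 / π)]
  have T0 : 0 ≤ cc K * x ^ (2 * K) := mul_nonneg (cc_pos K).le (x2 K)
  have h5 : |∫ s in (0:ℝ)..1, (s * MM (pw x) s - s * ∑ k ∈ Finset.range K, (-1) ^ k * cc k *
      s ^ (2 * k) * (x ^ (2 * k) * (2 * π)))| ≤
      ∫ s in (0:ℝ)..1, cc K * x ^ (2 * K) * (2 * π) * s := by
    have := intervalIntegral.norm_integral_le_of_norm_le (μ := volume) zero_le_one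
      (f := fun s => s * MM (pw x) s - s * ∑ k ∈ Finset.range K, (-1) ^ k * cc k *
      s ^ (2 * k) * (x ^ (2 * k) * (2 * π))) (g := fun s => cc K * x ^ (2 * K) * (2 * π) * s)
      (Eventually.of_forall fun s hs => ?_) (Continuous.intervalIntegrable (by fun_prop) _ _)
    · rw [Real.norm_eq_abs] at this
      exact this
    · rw [← mul_sub, norm_mul, Real.norm_eq_abs, Real.norm_eq_abs, abs_of_pos hs.1, mul_comm]
      exact mul_le_mul_of_nonneg_right (it2 s ⟨hs.1.le, hs.2⟩) hs.1.le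
  rw [intervalIntegral.integral_const_mul, integral_id] at h5
  calc 1 / π * _ ≤ 1 / π * (cc K * x ^ (2 * K) * (2 * π) * ((1 ^ 2 - 0 ^ 2) / 2)) :=
        mul_le_mul_of_nonneg_left h5 (by positivity)
    _ = cc K * x ^ (2 * K) := by field_simp; ring

lemma jj_abs (x : ℝ) : |jj x| ≤ 1 := by
  have := jj_series x 0
  simpa [cc_zero] using this

lemma jj_zero : jj 0 = 1 := by
  have h := jj_series 0 1
  simp [dd, cc_zero] at h
  linarith

lemma jj_even (x : ℝ) : jj (-x) = jj x := by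
  unfold jj
  simp only [neg_mul, Real.cos_neg]

lemma jj_decay {x : ℝ} (hx : 0 < x) : |jj x| ≤ 2 / x := by
  have hp := Real.pi_pos
  have hsm := pw_sm x
  have h1 := PP_eq hsm 1
  simp only [one_mul, pw_lp, MM_smul] at h1
  have e0 : jj x = 1 / π * ∫ s in (0:ℝ)..1, s * MM (pw x) s := avg_polar hsm.continuous
  have h2 : ∫ v in (0:ℝ)..1, v * (- x ^ 2 * MM (pw x) v) = - x ^ 2 * (π * jj x) := by
    rw [e0]
    have : ∀ v : ℝ, v * (- x ^ 2 * MM (pw x) v) = - x ^ 2 * (v * MM (pw x) v) := fun v => by ring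
    simp only [this]
    rw [intervalIntegral.integral_const_mul]
    field_simp
  rw [h2] at h1
  have h3 : |PP' (pw x) 1| ≤ x * (2 * π) := by
    unfold PP' Av
    rw [pw_fx, pw_fy]
    simp only [mul_zero, intervalIntegral.integral_zero, add_zero]
    have := intervalIntegral.norm_integral_le_of_norm_le_const (a := -π) (b := π) (C := x)
      (f := fun θ => Real.cos θ * (-x * Real.sin (x * (((1:ℝ) : ℂ) * ev θ).re))) (fun θ _ => by
        rw [Real.norm_eq_abs, abs_mul, abs_mul, abs_neg, abs_of_pos hx]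
        have a1 := Real.abs_cos_le_one θ
        have a2 := Real.abs_sin_le_one (x * (((1:ℝ) : ℂ) * ev θ).re)
        have a3 : x * |Real.sin (x * (((1:ℝ) : ℂ) * ev θ).re)| ≤ x :=
          mul_le_of_le_one_right hx.le a2
        exact (mul_le_of_le_one_left (mul_nonneg hx.le (abs_nonneg _)) a1).trans a3)
    rw [Real.norm_eq_abs] at this
    refine this.trans (le_of_eq ?_)
    rw [abs_of_pos (by linarith)]; ring
  rw [h1, abs_mul, abs_mul, abs_neg, abs_of_pos (by positivity : 0 < x ^ 2), abs_of_pos hp] at h3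
  rw [le_div_iff₀ hx]
  have h4 : (π * x) * (|jj x| * x) ≤ (π * x) * 2 := by nlinarith
  exact le_of_mul_le_mul_left h4 (by positivity)

lemma jj_cont : Continuous jj := by
  have e : jj = fun x => 1 / π * ∫ s in (0:ℝ)..1, s * MM (pw x) s := by
    funext x; exact avg_polar (pw_sm x).continuous
  rw [e]
  refine continuous_const.mul ?_
  refine intervalIntegral.continuous_parametric_intervalIntegral_of_continuous' ?_ _ _
  unfold Function.uncurry
  refine continuous_snd.mul ?_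
  unfold MM Av pw
  refine intervalIntegral.continuous_parametric_intervalIntegral_of_continuous' ?_ _ _
  unfold Function.uncurry
  have := ev_cont
  fun_prop

lemma jj_tendsto : Tendsto jj atTop (𝓝 0) := by
  rw [tendsto_zero_iff_abs_tendsto_zero]
  refine squeeze_zero' (Eventually.of_forall fun x => abs_nonneg _)
    ((eventually_gt_atTop 0).mono fun x hx => jj_decay hx) ?_
  exact tendsto_const_nhds.div_atTop tendsto_id

/-- the variance of the disc means of the square of the random wave -/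
def vr (R : ℝ) : ℝ :=
  1 / π * ∫ θ in (0:ℝ)..(2 * π), jj (R * √(2 - 2 * Real.cos θ)) ^ 2

lemma vr_nonneg (R : ℝ) : 0 ≤ vr R := by
  unfold vr
  have := Real.pi_pos
  refine mul_nonneg (by positivity) (intervalIntegral.integral_nonneg (by positivity)
    fun θ _ => sq_nonneg _)

lemma vr_le (R : ℝ) : vr R ≤ 2 := by
  have hp := Real.pi_pos
  unfold vr
  have h : ∫ θ in (0:ℝ)..(2 * π), jj (R * √(2 - 2 * Real.cos θ)) ^ 2 ≤
      ∫ θ in (0:ℝ)..(2 * π), (1:ℝ) := by
    have cj := jj_cont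
    refine intervalIntegral.integral_mono_on (by positivity)
      (Continuous.intervalIntegrable (by fun_prop) _ _) (Continuous.intervalIntegrable
      (by fun_prop) _ _) fun θ _ => ?_
    have := jj_abs (R * √(2 - 2 * Real.cos θ))
    rw [← sq_abs]
    exact pow_le_one₀ (abs_nonneg _) this
  rw [intervalIntegral.integral_const, smul_eq_mul, mul_one, sub_zero] at h
  calc 1 / π * _ ≤ 1 / π * (2 * π) := mul_le_mul_of_nonneg_left h (by positivity)
    _ = 2 := by field_simp

lemma vr_tendsto : Tendsto vr atTop (𝓝 0) := by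
  have hp := Real.pi_pos
  have cj := jj_cont
  have h : Tendsto (fun R => ∫ θ in (0:ℝ)..(2 * π), jj (R * √(2 - 2 * Real.cos θ)) ^ 2) atTop
      (𝓝 (∫ θ in (0:ℝ)..(2 * π), (0:ℝ))) := by
    refine intervalIntegral.tendsto_integral_filter_of_dominated_convergence (fun _ => 1)
      (Eventually.of_forall fun R => ?_) (Eventually.of_forall fun R => ?_)
      (Continuous.intervalIntegrable (by fun_prop) _ _) ?_
    · exact (by fun_prop : Continuous fun θ => jj (R * √(2 - 2 * Real.cos θ)) ^ 2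
        ).aestronglyMeasurable
    · refine Eventually.of_forall fun θ _ => ?_
      rw [norm_pow, Real.norm_eq_abs]
      exact pow_le_one₀ (abs_nonneg _) (jj_abs _)
    · have h0 : ∀ᵐ θ : ℝ ∂volume, θ ≠ 2 * π := by
        simp [ae_iff, measure_singleton]
      filter_upwards [h0] with θ hθ hI
      rw [uIoc_of_le (by positivity)] at hI
      have hc : 0 < 2 - 2 * Real.cos θ := by
        have h1 : Real.cos θ ≤ 1 := Real.cos_le_one θ
        rcases h1.lt_or_eq with h2 | h2
        · linarith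
        · exfalso
          rw [Real.cos_eq_one_iff_of_lt_of_lt (by linarith [hI.1])
            (lt_of_le_of_ne hI.2 hθ)] at h2
          linarith [hI.1]
      have h3 : Tendsto (fun R => R * √(2 - 2 * Real.cos θ)) atTop atTop :=
        tendsto_id.atTop_mul_const (Real.sqrt_pos.2 hc)
      have h4 := (jj_tendsto.comp h3).pow 2
      simpa using h4
  have h5 := h.const_mul (1 / π)
  simp only [intervalIntegral.integral_zero, mul_zero] at h5
  exact h5

/-- the Taylor polynomials of `s ↦ 2 J₁(R √s) / (R √s)` -/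
def Pol (K : ℕ) (R : ℝ) : Polynomial ℝ :=
  ∑ k ∈ Finset.range K, Polynomial.C ((-1) ^ k * dd k * R ^ (2 * k)) * Polynomial.X ^ k

lemma Pol_eval (K : ℕ) (R s : ℝ) : (Pol K R).eval s =
    ∑ k ∈ Finset.range K, (-1) ^ k * dd k * R ^ (2 * k) * s ^ k := by
  unfold Pol
  rw [Polynomial.eval_finsetSum]
  refine Finset.sum_congr rfl fun k _ => ?_
  simp

/-- the error bound -/
def ek (R : ℝ) (K : ℕ) : ℝ := cc K * (16 * R ^ 2) ^ K

lemma ek_tendsto (R : ℝ) : Tendsto (ek R) atTop (𝓝 0) := by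
  have h := FloorSemiring.tendsto_pow_div_factorial_atTop (16 * R ^ 2)
  refine squeeze_zero (fun K => ?_) (fun K => ?_) h
  · unfold ek; have := (cc_pos K).le; positivity
  · unfold ek cc
    rw [div_mul_eq_mul_div, one_mul]
    refine div_le_div_of_nonneg_left (by positivity) (by positivity) ?_
    have h1 : (1:ℝ) ≤ 4 ^ K := one_le_pow₀ (by norm_num)
    have h2 : (1:ℝ) ≤ (K.factorial : ℝ) := by exact_mod_cast Nat.one_le_iff_ne_zero.2 K.factorial_ne_zero
    nlinarith [mul_le_mul h1 h2 zero_le_one (by positivity)]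

lemma ek_nonneg (R : ℝ) (K : ℕ) : 0 ≤ ek R K := by
  unfold ek; have := (cc_pos K).le; positivity

lemma Pol_close (K : ℕ) {R s : ℝ} (hs : 0 ≤ s) (hs4 : s ≤ 4) :
    |(Pol K R).eval s - jj (R * √s)| ≤ ek R K := by
  have h := jj_series (R * √s) K
  rw [abs_sub_comm, Pol_eval]
  have e : ∀ k, (R * √s) ^ (2 * k) = R ^ (2 * k) * s ^ k := by
    intro k
    rw [mul_pow, pow_mul (√s), Real.sq_sqrt hs]
  simp only [e] at h
  have e2 : ∑ k ∈ Finset.range K, (-1) ^ k * dd k * R ^ (2 * k) * s ^ k =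
      ∑ k ∈ Finset.range K, (-1) ^ k * dd k * (R ^ (2 * k) * s ^ k) :=
    Finset.sum_congr rfl fun k _ => by ring
  rw [e2]
  refine h.trans ?_
  unfold ek
  refine mul_le_mul_of_nonneg_left ?_ (cc_pos K).le
  rw [pow_mul, ← mul_pow]
  refine pow_le_pow_left₀ (by positivity) ?_ K
  nlinarith [sq_nonneg R]

lemma arg4 (θ : ℝ) : 0 ≤ 2 - 2 * Real.cos θ ∧ 2 - 2 * Real.cos θ ≤ 4 := by
  constructor <;> linarith [Real.cos_le_one θ, Real.neg_one_le_cos θ]

/-- the Gaussian value -/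
def gs (F : Polynomial ℝ) : ℝ :=
  F.eval 0 ^ 2 + 1 / π * ∫ θ in (0 : ℝ)..(2 * π), F.eval (2 - 2 * Real.cos θ) ^ 2

lemma gs_le {F : Polynomial ℝ} {B : ℝ} (hB : ∀ s, 0 ≤ s → s ≤ 4 → |F.eval s| ≤ B) :
    gs F ≤ 3 * B ^ 2 := by
  have hp := Real.pi_pos
  unfold gs
  have h0 : F.eval 0 ^ 2 ≤ B ^ 2 := by
    rw [← sq_abs]; exact pow_le_pow_left₀ (abs_nonneg _) (hB 0 le_rfl (by norm_num)) 2
  have h : ∫ θ in (0:ℝ)..(2 * π), F.eval (2 - 2 * Real.cos θ) ^ 2 ≤
      ∫ θ in (0:ℝ)..(2 * π), B ^ 2 := by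
    refine intervalIntegral.integral_mono_on (by positivity)
      (Continuous.intervalIntegrable (by fun_prop) _ _) (Continuous.intervalIntegrable
      (by fun_prop) _ _) fun θ _ => ?_
    rw [← sq_abs]
    exact pow_le_pow_left₀ (abs_nonneg _) (hB _ (arg4 θ).1 (arg4 θ).2) 2
  rw [intervalIntegral.integral_const, smul_eq_mul, sub_zero] at h
  have h2 : 1 / π * ∫ θ in (0 : ℝ)..(2 * π), F.eval (2 - 2 * Real.cos θ) ^ 2 ≤
      1 / π * (2 * π * B ^ 2) := mul_le_mul_of_nonneg_left h (by positivity)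
  have h3 : 1 / π * (2 * π * B ^ 2) = 2 * B ^ 2 := by field_simp
  linarith

lemma gs_close (K : ℕ) (R : ℝ) : |gs (Pol K R) - (1 + vr R)| ≤ 3 * (ek R K * (2 + ek R K)) := by
  have hp := Real.pi_pos
  have cj := jj_cont
  have key : ∀ s, 0 ≤ s → s ≤ 4 → |(Pol K R).eval s ^ 2 - jj (R * √s) ^ 2| ≤
      ek R K * (2 + ek R K) := by
    intro s h0 h4
    have h1 := Pol_close K (R := R) h0 h4
    have h2 := jj_abs (R * √s)
    have e : (Pol K R).eval s ^ 2 - jj (R * √s) ^ 2 =
        ((Pol K R).eval s - jj (R * √s)) *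
          (2 * jj (R * √s) + ((Pol K R).eval s - jj (R * √s))) := by ring
    rw [e, abs_mul]
    refine mul_le_mul h1 ?_ (abs_nonneg _) (ek_nonneg R K)
    refine (abs_add_le _ _).trans (add_le_add ?_ h1)
    rw [abs_mul, abs_two]
    linarith
  have h0 := key 0 le_rfl (by norm_num)
  rw [Real.sqrt_zero, mul_zero, jj_zero] at h0
  have h1 : |(∫ θ in (0 : ℝ)..(2 * π), (Pol K R).eval (2 - 2 * Real.cos θ) ^ 2) -
      ∫ θ in (0 : ℝ)..(2 * π), jj (R * √(2 - 2 * Real.cos θ)) ^ 2| ≤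
      ek R K * (2 + ek R K) * (2 * π) := by
    rw [← intervalIntegral.integral_sub (Continuous.intervalIntegrable (by fun_prop) _ _)
      (Continuous.intervalIntegrable (by fun_prop) _ _)]
    have := intervalIntegral.norm_integral_le_of_norm_le_const (a := 0) (b := 2 * π)
      (C := ek R K * (2 + ek R K))
      (f := fun θ => (Pol K R).eval (2 - 2 * Real.cos θ) ^ 2 -
        jj (R * √(2 - 2 * Real.cos θ)) ^ 2) (fun θ _ => by
        rw [Real.norm_eq_abs]
        exact key _ (arg4 θ).1 (arg4 θ).2)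
    rw [Real.norm_eq_abs, sub_zero, abs_of_pos (by positivity : (0:ℝ) < 2 * π)] at this
    exact this
  have e : gs (Pol K R) - (1 + vr R) = ((Pol K R).eval 0 ^ 2 - 1 ^ 2) +
      1 / π * ((∫ θ in (0 : ℝ)..(2 * π), (Pol K R).eval (2 - 2 * Real.cos θ) ^ 2) -
      ∫ θ in (0 : ℝ)..(2 * π), jj (R * √(2 - 2 * Real.cos θ)) ^ 2) := by
    unfold gs vr; ring
  rw [e]
  refine (abs_add_le _ _).trans ?_
  rw [abs_mul, abs_of_pos (by positivity : (0:ℝ) < 1 / π)]
  have h2 := mul_le_mul_of_nonneg_left h1 (by positivity : (0:ℝ) ≤ 1 / π)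
  have h3 : 1 / π * (ek R K * (2 + ek R K) * (2 * π)) = 2 * (ek R K * (2 + ek R K)) := by
    field_simp
  rw [h3] at h2
  calc _ ≤ ek R K * (2 + ek R K) + 2 * (ek R K * (2 + ek R K)) := add_le_add h0 h2
    _ = _ := by ring

end

end Pool.Agent.T9h62.SQ
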