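import Mathlib

/-! The radial Volterra operator and its iteration. -/
set_option autoImplicit false
open MeasureTheory Filter Topology Set

namespace Pool.Agent.T9h62.SQ

noncomputable section

/-- `(TT A)(r) = ∫_0^r s⁻¹ ∫_0^s t A(t) dt ds`, written without singularity -/
def TT (A : ℝ → ℝ) (r : ℝ) : ℝ := ∫ s in (0:ℝ)..r, ∫ v in (0:ℝ)..1, s * v * A (s * v)

lemma inner_cont {A : ℝ → ℝ} (hA : Continuous A) :
    Continuous (fun s : ℝ => ∫ v in (0:ℝ)..1, s * v * A (s * v)) := by
  refine intervalIntegral.continuous_parametric_intervalIntegral_of_continuous' ?_ 0 1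
  unfold Function.uncurry
  fun_prop

lemma TT_cont {A : ℝ → ℝ} (hA : Continuous A) : Continuous (TT A) := by
  unfold TT
  exact intervalIntegral.continuous_primitive (fun a b => (inner_cont hA).intervalIntegrable a b) 0

lemma TT_congr {A B : ℝ → ℝ} {r : ℝ} (hr : 0 ≤ r) (h : ∀ t ∈ Icc 0 r, A t = B t) :
    TT A r = TT B r := by
  unfold TT
  refine intervalIntegral.integral_congr fun s hs => ?_
  rw [uIcc_of_le hr] at hs
  refine intervalIntegral.integral_congr fun v hv => ?_
  rw [uIcc_of_le zero_le_one] at hv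
  show s * v * A (s * v) = s * v * B (s * v)
  rw [h (s * v) ⟨mul_nonneg hs.1 hv.1, (mul_le_mul hs.2 hv.2 hv.1 hr).trans_eq (mul_one r)⟩]

lemma TT_mono {A B : ℝ → ℝ} (hA : Continuous A) (hB : Continuous B) {r : ℝ} (hr : 0 ≤ r)
    (h : ∀ t ∈ Icc 0 r, A t ≤ B t) : TT A r ≤ TT B r := by
  unfold TT
  refine intervalIntegral.integral_mono_on hr ((inner_cont hA).intervalIntegrable _ _)
    ((inner_cont hB).intervalIntegrable _ _) fun s hs => ?_
  refine intervalIntegral.integral_mono_on zero_le_one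
    (Continuous.intervalIntegrable (by fun_prop) _ _)
    (Continuous.intervalIntegrable (by fun_prop) _ _) fun v hv => ?_
  exact mul_le_mul_of_nonneg_left (h (s * v) ⟨mul_nonneg hs.1 hv.1,
    (mul_le_mul hs.2 hv.2 hv.1 hr).trans_eq (mul_one r)⟩) (mul_nonneg hs.1 hv.1)

lemma TT_neg (A : ℝ → ℝ) (r : ℝ) : TT (fun t => - A t) r = - TT A r := by
  unfold TT
  rw [← intervalIntegral.integral_neg]
  congr 1; funext s
  rw [← intervalIntegral.integral_neg]
  congr 1; funext v; ring

lemma TT_add {A B : ℝ → ℝ} (hA : Continuous A) (hB : Continuous B) (r : ℝ) :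
    TT (fun t => A t + B t) r = TT A r + TT B r := by
  unfold TT
  rw [← intervalIntegral.integral_add ((inner_cont hA).intervalIntegrable _ _)
    ((inner_cont hB).intervalIntegrable _ _)]
  congr 1; funext s
  rw [← intervalIntegral.integral_add (Continuous.intervalIntegrable (by fun_prop) _ _)
    (Continuous.intervalIntegrable (by fun_prop) _ _)]
  congr 1; funext v; ring

lemma TT_smul (c : ℝ) (A : ℝ → ℝ) (r : ℝ) : TT (fun t => c * A t) r = c * TT A r := by
  unfold TT
  rw [← intervalIntegral.integral_const_mul]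
  congr 1; funext s
  rw [← intervalIntegral.integral_const_mul]
  congr 1; funext v; ring

lemma TT_abs {A B : ℝ → ℝ} (hA : Continuous A) (hB : Continuous B) {r : ℝ} (hr : 0 ≤ r)
    (h : ∀ t ∈ Icc 0 r, |A t| ≤ B t) : |TT A r| ≤ TT B r := by
  rw [abs_le]
  constructor
  · rw [← TT_neg]
    exact TT_mono hB.neg hA hr fun t ht => (abs_le.1 (h t ht)).1
  · exact TT_mono hA hB hr fun t ht => (abs_le.1 (h t ht)).2

lemma TT_pow (m : ℕ) (r : ℝ) : TT (fun t => t ^ m) r = r ^ (m + 2) / (m + 2) ^ 2 := by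
  unfold TT
  have h1 : ∀ s : ℝ, (∫ v in (0:ℝ)..1, s * v * (s * v) ^ m) = s ^ (m + 1) * (1 / (m + 2)) := by
    intro s
    have : ∀ v : ℝ, s * v * (s * v) ^ m = s ^ (m + 1) * v ^ (m + 1) := fun v => by ring
    simp only [this]
    rw [intervalIntegral.integral_const_mul, integral_pow]
    push_cast
    ring
  simp only [h1]
  rw [intervalIntegral.integral_mul_const, integral_pow]
  push_cast
  have : (m : ℝ) + 2 ≠ 0 := by positivity
  field_simp
  ring

lemma TT_sum {ι : Type*} (s : Finset ι) (A : ι → ℝ → ℝ) (hA : ∀ i ∈ s, Continuous (A i)) (r : ℝ) :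
    TT (fun t => ∑ i ∈ s, A i t) r = ∑ i ∈ s, TT (A i) r := by
  classical
  induction s using Finset.induction_on with
  | empty => simp [TT]
  | insert i s hi ih =>
    simp only [Finset.sum_insert hi]
    rw [TT_add (hA i (Finset.mem_insert_self _ _))
      (continuous_finsetSum _ fun j hj => hA j (Finset.mem_insert_of_mem hj)),
      ih fun j hj => hA j (Finset.mem_insert_of_mem hj)]

/-- the coefficients `1 / (4^k k!²)` -/
def cc (k : ℕ) : ℝ := 1 / (4 ^ k * (k.factorial : ℝ) ^ 2)

lemma cc_pos (k : ℕ) : 0 < cc k := by unfold cc; positivity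

lemma cc_zero : cc 0 = 1 := by simp [cc]

lemma cc_succ (k : ℕ) : cc (k + 1) = cc k / (2 * k + 2) ^ 2 := by
  unfold cc
  rw [Nat.factorial_succ]
  push_cast
  have : ((k.factorial : ℕ) : ℝ) ≠ 0 := by positivity
  have : (k : ℝ) + 1 ≠ 0 := by positivity
  field_simp
  ring

/-- Iteration of the radial equation. -/
theorem iterate (R e M : ℝ) (he : 0 ≤ e) (hM : 0 ≤ M) (K : ℕ) :
    ∀ (G E : ℕ → ℝ → ℝ), (∀ k, Continuous (G k)) → (∀ k, Continuous (E k)) →
    (∀ k < K, ∀ r ∈ Icc 0 R, G k r = G k 0 - TT (fun t => G (k + 1) t + E k t) r) →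
    (∀ t ∈ Icc 0 R, |G K t| ≤ M) → (∀ k < K, ∀ t ∈ Icc 0 R, |E k t| ≤ e) →
    ∀ r ∈ Icc 0 R, |G 0 r - ∑ k ∈ Finset.range K, (-1) ^ k * cc k * r ^ (2 * k) * G k 0| ≤
      cc K * r ^ (2 * K) * M + e * ∑ k ∈ Finset.range K, cc (k + 1) * r ^ (2 * k + 2) := by
  induction K with
  | zero =>
    intro G E _ _ _ hG _ r hr
    simpa [cc_zero] using hG r hr
  | succ K ih =>
    intro G E cG cE hrec hGK hE r hr
    have ih' := ih (fun k => G (k + 1)) (fun k => E (k + 1)) (fun k => cG _) (fun k => cE _)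
      (fun k hk r hr => hrec (k + 1) (by omega) r hr) (fun t ht => hGK t ht)
      (fun k hk t ht => hE (k + 1) (by omega) t ht)
    simp only [zero_add] at ih'
    set P : ℝ → ℝ := fun t => ∑ k ∈ Finset.range K, (-1) ^ k * cc k * t ^ (2 * k) * G (k + 1) 0
      with hP
    set Q : ℝ → ℝ := fun t => cc K * t ^ (2 * K) * M +
      e * ∑ k ∈ Finset.range K, cc (k + 1) * t ^ (2 * k + 2) with hQ
    have cP : Continuous P := by simp only [hP]; fun_prop
    have cQ : Continuous Q := by simp only [hQ]; fun_prop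
    have r0 : 0 ≤ r := hr.1
    have b1 : |TT (fun t => G 1 t - P t) r| ≤ TT Q r := by
      refine TT_abs ((cG 1).sub cP) cQ r0 fun t ht => ?_
      exact ih' t ⟨ht.1, ht.2.trans hr.2⟩
    have b2 : |TT (E 0) r| ≤ TT (fun t => e * t ^ 0) r := by
      refine TT_abs (cE 0) (by fun_prop) r0 fun t ht => ?_
      simpa using hE 0 (by omega) t ⟨ht.1, ht.2.trans hr.2⟩
    rw [TT_smul, TT_pow] at b2
    have e1 : TT P r = ∑ k ∈ Finset.range K, (-1) ^ k * cc (k + 1) * r ^ (2 * k + 2) *
        G (k + 1) 0 := by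
      simp only [hP]
      rw [TT_sum _ _ (fun i _ => by fun_prop)]
      refine Finset.sum_congr rfl fun k _ => ?_
      have : (fun t : ℝ => (-1) ^ k * cc k * t ^ (2 * k) * G (k + 1) 0) =
          fun t => ((-1) ^ k * cc k * G (k + 1) 0) * t ^ (2 * k) := by funext t; ring
      rw [this, TT_smul, TT_pow, cc_succ]
      push_cast
      ring
    have e2 : TT Q r = cc (K + 1) * r ^ (2 * (K + 1)) * M +
        e * ∑ k ∈ Finset.range K, cc (k + 2) * r ^ (2 * k + 4) := by
      simp only [hQ]
      rw [TT_add (by fun_prop) (by fun_prop)]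
      congr 1
      · have : (fun t : ℝ => cc K * t ^ (2 * K) * M) = fun t => (cc K * M) * t ^ (2 * K) := by
          funext t; ring
        rw [this, TT_smul, TT_pow, cc_succ]
        push_cast
        ring
      · rw [TT_smul, TT_sum _ _ (fun i _ => by fun_prop)]
        congr 1
        refine Finset.sum_congr rfl fun k _ => ?_
        rw [TT_smul, TT_pow, cc_succ (k + 1)]
        push_cast
        ring
    have e3 : G 0 r - ∑ k ∈ Finset.range (K + 1), (-1) ^ k * cc k * r ^ (2 * k) * G k 0 =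
        - TT (fun t => G 1 t - P t) r - TT (E 0) r := by
      have h1 := hrec 0 (by omega) r hr
      rw [zero_add, TT_add (cG 1) (cE 0)] at h1
      have h2 : TT (fun t => G 1 t - P t) r = TT (G 1) r - TT P r := by
        have cPn : Continuous (fun t => - P t) := cP.neg
        have h3 := TT_add (cG 1) cPn r
        rw [TT_neg] at h3
        have h4 : (fun t => G 1 t - P t) = fun t => G 1 t + - P t := by
          funext t; ring
        rw [h4, h3]; ring
      rw [h1, h2, e1, Finset.sum_range_succ']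
      have h3 : ∑ k ∈ Finset.range K, (-1 : ℝ) ^ (k + 1) * cc (k + 1) * r ^ (2 * (k + 1)) *
          G (k + 1) 0 = - ∑ k ∈ Finset.range K, (-1) ^ k * cc (k + 1) * r ^ (2 * k + 2) *
          G (k + 1) 0 := by
        rw [← Finset.sum_neg_distrib]
        refine Finset.sum_congr rfl fun k _ => ?_
        ring
      rw [h3, cc_zero]
      ring
    rw [e3]
    have e4 : ∑ k ∈ Finset.range (K + 1), cc (k + 1) * r ^ (2 * k + 2) =
        (∑ k ∈ Finset.range K, cc (k + 2) * r ^ (2 * k + 4)) + r ^ 2 / 4 := by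
      rw [Finset.sum_range_succ']
      congr 1
      rw [cc_succ, cc_zero]
      norm_num
      ring
    rw [e4]
    rw [e2] at b1
    have b3 : e * (r ^ (0 + 2) / (((0 : ℕ) : ℝ) + 2) ^ 2) = e * (r ^ 2 / 4) := by norm_num
    rw [b3] at b2
    have := abs_sub (-TT (fun t => G 1 t - P t) r) (TT (E 0) r)
    rw [abs_neg] at this
    calc |-TT (fun t => G 1 t - P t) r - TT (E 0) r| ≤
        |TT (fun t => G 1 t - P t) r| + |TT (E 0) r| := this
      _ ≤ _ := by linarith [b1, b2]

end

end Pool.Agent.T9h62.SQ
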