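import Pool.Agent.Y265.HY.SB3
import Pool.Agent.T9h62.SQ.Rad

/-! Circular means in the hyperbolic plane at the scale of the wave length. -/
set_option autoImplicit false
open MeasureTheory Filter Topology Set Complex
open scoped ContDiff Real

namespace Pool.Agent.T9h62.SQ

open Pool.Agent.Y265.HY (ev ev_re ev_im ev_norm ev_cont MM PP' Av fx fy MM_d NN_d Av_d PP0 MM0
  fx_sm fy_sm arg_cont)

noncomputable section

/-- the flat Laplacian -/
def lp (F : ℂ → ℝ) (z : ℂ) : ℝ := fx (fx F) z + fy (fy F) z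

lemma lp_sm {F : ℂ → ℝ} (hF : ContDiff ℝ ∞ F) : ContDiff ℝ ∞ (lp F) :=
  (fx_sm (fx_sm hF)).add (fy_sm (fy_sm hF))

lemma MM_cont {F : ℂ → ℝ} (hF : ContDiff ℝ ∞ F) : Continuous (MM F) :=
  continuous_iff_continuousAt.2 fun x => (MM_d hF x).continuousAt

lemma PP_eq {F : ℂ → ℝ} (hF : ContDiff ℝ ∞ F) (x : ℝ) :
    PP' F x = x * ∫ v in (0:ℝ)..1, v * MM (lp F) (x * v) := by
  have cA := MM_cont (lp_sm hF)
  by_cases hx : x = 0
  · rw [hx, PP0]; simp
  have h1 : ∀ v ∈ uIcc (0:ℝ) 1, HasDerivAt (fun v : ℝ => (x * v) * PP' F (x * v))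
      (x * (x * v) * MM (lp F) (x * v)) v := by
    intro v _
    have h2 := NN_d hF (x * v)
    have h3 : HasDerivAt (fun v : ℝ => x * v) x v := by
      simpa using (hasDerivAt_id v).const_mul x
    have h4 := HasDerivAt.comp v h2 h3
    refine (h4.congr_deriv ?_)
    show x * v * Av (fun _ => 1) (fun z => fx (fx F) z + fy (fy F) z) (x * v) * x = _
    unfold MM lp
    ring
  have h5 := intervalIntegral.integral_eq_sub_of_hasDerivAt h1
    (Continuous.intervalIntegrable (by fun_prop) _ _)
  have h6 : ∫ v in (0:ℝ)..1, x * (x * v) * MM (lp F) (x * v) =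
      x ^ 2 * ∫ v in (0:ℝ)..1, v * MM (lp F) (x * v) := by
    rw [← intervalIntegral.integral_const_mul]
    congr 1; funext v; ring
  rw [h6] at h5
  simp only [mul_one, mul_zero, zero_mul, sub_zero] at h5
  have : x * PP' F x = x * (x * ∫ v in (0:ℝ)..1, v * MM (lp F) (x * v)) := by rw [← h5]; ring
  exact mul_left_cancel₀ hx this

lemma MM_eq {F : ℂ → ℝ} (hF : ContDiff ℝ ∞ F) (ρ r : ℝ) :
    MM F (ρ * r) = 2 * π * F 0 + TT (fun t => ρ ^ 2 * MM (lp F) (ρ * t)) r := by
  have cA := MM_cont (lp_sm hF)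
  have cP : Continuous (PP' F) := by
    have h1 := inner_cont cA
    have h2 : PP' F = fun x => x * ∫ v in (0:ℝ)..1, v * MM (lp F) (x * v) := by
      funext x; exact PP_eq hF x
    rw [h2]
    refine continuous_id.mul (intervalIntegral.continuous_parametric_intervalIntegral_of_continuous'
      ?_ 0 1)
    unfold Function.uncurry
    fun_prop
  have h1 : ∀ s ∈ uIcc (0:ℝ) r, HasDerivAt (fun s : ℝ => MM F (ρ * s)) (PP' F (ρ * s) * ρ) s := by
    intro s _
    have h3 : HasDerivAt (fun v : ℝ => ρ * v) ρ s := by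
      simpa using (hasDerivAt_id s).const_mul ρ
    exact HasDerivAt.comp s (MM_d hF (ρ * s)) h3
  have h5 := intervalIntegral.integral_eq_sub_of_hasDerivAt h1
    (Continuous.intervalIntegrable (by fun_prop) _ _)
  simp only [mul_zero, MM0] at h5
  have h6 : ∫ s in (0:ℝ)..r, PP' F (ρ * s) * ρ = TT (fun t => ρ ^ 2 * MM (lp F) (ρ * t)) r := by
    unfold TT
    congr 1; funext s
    rw [PP_eq hF, mul_assoc, mul_comm (∫ v in (0:ℝ)..1, _), ← mul_assoc,
      ← intervalIntegral.integral_const_mul]
    congr 1; funext v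
    rw [mul_assoc ρ s v]; ring
  linarith [h5, h6]

/-- circular integrals of hyperbolic radius `≈ h t` -/
def CM (h : ℝ) (G : ℂ → ℝ) (z : ℂ) (t : ℝ) : ℝ :=
  ∫ θ in (-π)..π, G (z + ((h * z.im * t : ℝ) : ℂ) * ev θ)

lemma CM_MM (h : ℝ) (G : ℂ → ℝ) (z : ℂ) (t : ℝ) :
    CM h G z t = MM (fun w => G (z + w)) (h * z.im * t) := by
  unfold CM MM Av
  simp

lemma shift_fx (G : ℂ → ℝ) (z : ℂ) : fx (fun w => G (z + w)) = fun w => fx G (z + w) := by
  funext w
  unfold fx
  rw [fderiv_comp_add_left]

lemma shift_fy (G : ℂ → ℝ) (z : ℂ) : fy (fun w => G (z + w)) = fun w => fy G (z + w) := by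
  funext w
  unfold fy
  rw [fderiv_comp_add_left]

lemma shift_lp (G : ℂ → ℝ) (z : ℂ) : lp (fun w => G (z + w)) = fun w => lp G (z + w) := by
  funext w
  unfold lp
  rw [shift_fx, shift_fx, shift_fy, shift_fy]

lemma CM_eq {G : ℂ → ℝ} (hG : ContDiff ℝ ∞ G) (h : ℝ) (z : ℂ) (r : ℝ) :
    CM h G z r = 2 * π * G z + TT (fun t => (h * z.im) ^ 2 * CM h (lp G) z t) r := by
  have hF : ContDiff ℝ ∞ (fun w => G (z + w)) := hG.comp (contDiff_const.add contDiff_id)
  rw [CM_MM, MM_eq hF, shift_lp]
  simp only [add_zero, CM_MM]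

lemma CM_cont {G : ℂ → ℝ} (hG : Continuous G) (h : ℝ) :
    Continuous (fun p : ℂ × ℝ => CM h G p.1 p.2) := by
  unfold CM
  refine intervalIntegral.continuous_parametric_intervalIntegral_of_continuous' ?_ _ _
  unfold Function.uncurry
  have := ev_cont
  fun_prop

/-- Fubini -/
lemma swap {H : ℂ → ℝ → ℝ} (hH : Continuous (Function.uncurry H)) {K : Set ℂ} (hK : IsCompact K)
    (h0 : ∀ z ∉ K, ∀ s, H z s = 0) (a b : ℝ) :
    ∫ z, ∫ s in a..b, H z s = ∫ s in a..b, ∫ z, H z s := by
  have key : ∀ a b : ℝ, ∫ z, ∫ s in Ioc a b, H z s = ∫ s in Ioc a b, ∫ z, H z s := by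
    intro a b
    refine integral_integral_swap ?_
    have h1 : IntegrableOn (Function.uncurry H) (K ×ˢ Ioc a b) (volume.prod volume) :=
      (hH.continuousOn.integrableOn_compact (hK.prod isCompact_Icc)).mono_set
        (prod_mono_right Ioc_subset_Icc_self)
    have h2 : (volume : Measure ℂ).prod (volume.restrict (Ioc a b)) =
        (volume.prod volume).restrict (univ ×ˢ Ioc a b) := by
      rw [← Measure.prod_restrict, Measure.restrict_univ]
    rw [h2]
    have h3 : IntegrableOn (Function.uncurry H) (univ ×ˢ Ioc a b) (volume.prod volume) := by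
      refine h1.of_forall_diff_eq_zero (MeasurableSet.univ.prod measurableSet_Ioc) ?_
      rintro ⟨z, s⟩ ⟨h4, h5⟩
      refine h0 z (fun hz => h5 ⟨hz, h4.2⟩) s
    exact h3
  simp only [intervalIntegral]
  rw [integral_sub, key, key]
  · have h1 : Continuous (fun z => ∫ s in Ioc a b, H z s) := by
      have : Continuous (fun z => ∫ s in a..max a b, H z s) :=
        intervalIntegral.continuous_parametric_intervalIntegral_of_continuous' hH _ _
      rcases le_total a b with hab | hab
      · rw [max_eq_right hab] at this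
        simpa [intervalIntegral.integral_of_le hab] using this
      · simp [Ioc_eq_empty (not_lt.2 hab), continuous_const]
    refine h1.integrable_of_hasCompactSupport (HasCompactSupport.intro hK fun z hz => ?_)
    simp [h0 z hz]
  · have h1 : Continuous (fun z => ∫ s in Ioc b a, H z s) := by
      have : Continuous (fun z => ∫ s in b..max b a, H z s) :=
        intervalIntegral.continuous_parametric_intervalIntegral_of_continuous' hH _ _
      rcases le_total b a with hab | hab
      · rw [max_eq_right hab] at this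
        simpa [intervalIntegral.integral_of_le hab] using this
      · simp [Ioc_eq_empty (not_lt.2 hab), continuous_const]
    refine h1.integrable_of_hasCompactSupport (HasCompactSupport.intro hK fun z hz => ?_)
    simp [h0 z hz]

lemma int_TT {q : ℂ → ℝ} (hq : Continuous q) (hqs : HasCompactSupport q) {A : ℂ → ℝ → ℝ}
    (hA : Continuous (Function.uncurry A)) (r : ℝ) :
    ∫ z, q z * TT (A z) r = TT (fun t => ∫ z, q z * A z t) r := by
  have hK : IsCompact (tsupport q) := hqs.isCompact
  have hz : ∀ z ∉ tsupport q, q z = 0 := fun z hz => image_eq_zero_of_notMem_tsupport hz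
  have hA' : ∀ f : ℂ × ℝ → ℂ × ℝ, Continuous f → Continuous (fun p => A (f p).1 (f p).2) :=
    fun f hf => hA.comp hf
  unfold TT
  have e1 : ∀ z, q z * (∫ s in (0:ℝ)..r, ∫ v in (0:ℝ)..1, s * v * A z (s * v)) =
      ∫ s in (0:ℝ)..r, ∫ v in (0:ℝ)..1, s * v * (q z * A z (s * v)) := by
    intro z
    rw [← intervalIntegral.integral_const_mul]
    congr 1; funext s
    rw [← intervalIntegral.integral_const_mul]
    congr 1; funext v; ring
  simp only [e1]
  have c3 : Continuous (fun p : (ℂ × ℝ) × ℝ => p.1.2 * p.2 * (q p.1.1 * A p.1.1 (p.1.2 * p.2))) := by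
    have : Continuous (fun p : (ℂ × ℝ) × ℝ => A p.1.1 (p.1.2 * p.2)) :=
      hA.comp (f := fun p : (ℂ × ℝ) × ℝ => (p.1.1, p.1.2 * p.2)) (by fun_prop)
    fun_prop
  rw [swap (H := fun z s => ∫ v in (0:ℝ)..1, s * v * (q z * A z (s * v))) ?_ hK ?_]
  · congr 1; funext s
    rw [swap (H := fun z v => s * v * (q z * A z (s * v))) ?_ hK ?_]
    · congr 1; funext v
      rw [integral_const_mul]
    · have : Continuous (fun p : ℂ × ℝ => A p.1 (s * p.2)) :=
        hA.comp (f := fun p : ℂ × ℝ => (p.1, s * p.2)) (by fun_prop)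
      unfold Function.uncurry
      fun_prop
    · intro z hz' v
      rw [hz z hz']; simp
  · exact intervalIntegral.continuous_parametric_intervalIntegral_of_continuous' c3 _ _
  · intro z hz' s
    simp [hz z hz']

/-- the pairing of the circular integrals with a weight -/
def GG (h : ℝ) (q G : ℂ → ℝ) (r : ℝ) : ℝ := ∫ z, q z * CM h G z r

lemma GG_cont {q G : ℂ → ℝ} (hq : Continuous q) (hqs : HasCompactSupport q) (hG : Continuous G)
    (h : ℝ) : Continuous (GG h q G) := by
  unfold GG
  have hK : IsCompact (tsupport q) := hqs.isCompact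
  have e : (fun r => ∫ z, q z * CM h G z r) = fun r => ∫ z in tsupport q, q z * CM h G z r := by
    funext r
    rw [setIntegral_eq_integral_of_forall_compl_eq_zero]
    intro z hz
    rw [image_eq_zero_of_notMem_tsupport hz, zero_mul]
  rw [e]
  refine continuous_parametric_integral_of_continuous ?_ hK
  have := CM_cont hG h
  have h2 : Continuous (fun p : ℝ × ℂ => CM h G p.2 p.1) := this.comp (by fun_prop :
    Continuous (fun p : ℝ × ℂ => (p.2, p.1)))
  unfold Function.uncurry
  fun_prop

lemma GG_zero (h : ℝ) (q G : ℂ → ℝ) : GG h q G 0 = 2 * π * ∫ z, q z * G z := by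
  unfold GG CM
  rw [← integral_const_mul]
  congr 1; funext z
  simp only [mul_zero, ofReal_zero, zero_mul, add_zero]
  rw [intervalIntegral.integral_const]
  simp only [smul_eq_mul]; ring

lemma GG_eq {q G : ℂ → ℝ} (hq : Continuous q) (hqs : HasCompactSupport q)
    (hG : ContDiff ℝ ∞ G) (h r : ℝ) :
    GG h q G r = GG h q G 0 + TT (fun t => ∫ z, q z * ((h * z.im) ^ 2 * CM h (lp G) z t)) r := by
  have c1 : Continuous (fun p : ℂ × ℝ => CM h G p.1 p.2) := CM_cont hG.continuous h
  have c2 : Continuous (fun p : ℂ × ℝ => CM h (lp G) p.1 p.2) := CM_cont (lp_sm hG).continuous h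
  have cA : Continuous (Function.uncurry fun (z : ℂ) (t : ℝ) => (h * z.im) ^ 2 * CM h (lp G) z t) := by
    unfold Function.uncurry
    fun_prop
  rw [← int_TT hq hqs cA, GG_zero, ← integral_const_mul, ← integral_add]
  · unfold GG
    congr 1; funext z
    rw [CM_eq hG]; ring
  · exact (continuous_const.mul (hq.mul hG.continuous)).integrable_of_hasCompactSupport
      (hqs.mul_right.mul_left)
  · have c4 : Continuous (fun z : ℂ => TT (fun t => (h * z.im) ^ 2 * CM h (lp G) z t) r) := by
      have : (fun z : ℂ => TT (fun t => (h * z.im) ^ 2 * CM h (lp G) z t) r) =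
          fun z => CM h G z r - 2 * π * G z := by
        funext z; rw [CM_eq hG]; ring
      rw [this]
      have := c1.comp (by fun_prop : Continuous (fun z : ℂ => (z, r)))
      have hc := hG.continuous
      exact this.sub (continuous_const.mul hc)
    exact (hq.mul c4).integrable_of_hasCompactSupport hqs.mul_right

end

end Pool.Agent.T9h62.SQ
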