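import Pool.Agent.T9h62.SQ.Bes
import Pool.Agent.TH294.RS.LB
import Pool.Agent.Y265.RW.U

/-! Comparison of the disc means with polynomials in the Laplacian. -/
set_option autoImplicit false
open MeasureTheory Filter Topology Set Complex
open scoped ContDiff Real

namespace Pool.Agent.T9h62.SQ

open Pool.Agent.Y265.HY (ev ev_re ev_im ev_norm ev_cont MM PP' Av fx fy MM_d NN_d Av_d PP0 MM0
  fx_sm fy_sm arg_cont)
open Pool.Agent.W745.RW (TF)
open Pool.Agent.TH294.RS (TF.mulc TF.zero)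

noncomputable section

/-- the open upper half plane -/
def HH : Set ℂ := {z | 0 < z.im}

lemma HH_open : IsOpen HH := isOpen_lt continuous_const continuous_im

/-- the normalised hyperbolic Laplacian -/
def LL (lam : ℝ) (g : ℂ → ℝ) (z : ℂ) : ℝ := -(z.im ^ 2 * lp g z) / lam

/-- polynomials in the normalised Laplacian -/
def oF (F : Polynomial ℝ) (lam : ℝ) (g : ℂ → ℝ) (z : ℂ) : ℝ :=
  F.sum fun i c => c * (LL lam)^[i] g z

lemma oF_add (F G : Polynomial ℝ) (lam : ℝ) (g : ℂ → ℝ) (z : ℂ) :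
    oF (F + G) lam g z = oF F lam g z + oF G lam g z := by
  unfold oF
  exact Polynomial.sum_add_index _ _ _ (fun i => by ring) (fun i a b => by ring)

lemma oF_mono (c : ℝ) (k : ℕ) (lam : ℝ) (g : ℂ → ℝ) (z : ℂ) :
    oF (Polynomial.C c * Polynomial.X ^ k) lam g z = c * (LL lam)^[k] g z := by
  unfold oF
  rw [Polynomial.C_mul_X_pow_eq_monomial]
  exact Polynomial.sum_monomial_index c _ (by ring)

lemma oF_X (k : ℕ) (lam : ℝ) (g : ℂ → ℝ) (z : ℂ) :
    oF (Polynomial.X ^ k) lam g z = (LL lam)^[k] g z := by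
  have := oF_mono 1 k lam g z
  simpa using this

lemma oF_Pol (K : ℕ) (R lam : ℝ) (g : ℂ → ℝ) (z : ℂ) :
    oF (Pol K R) lam g z =
      ∑ k ∈ Finset.range K, (-1) ^ k * dd k * R ^ (2 * k) * (LL lam)^[k] g z := by
  induction K with
  | zero => simp [Pol, oF]
  | succ K ih =>
    have : Pol (K + 1) R = Pol K R + Polynomial.C ((-1) ^ K * dd K * R ^ (2 * K)) *
        Polynomial.X ^ K := by
      unfold Pol
      rw [Finset.sum_range_succ]
    rw [this, oF_add, ih, oF_mono, Finset.sum_range_succ]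

lemma lp_sm_on {g : ℂ → ℝ} (hg : ContDiffOn ℝ ∞ g HH) : ContDiffOn ℝ ∞ (lp g) HH := by
  have d : ∀ v : ℂ, ∀ g : ℂ → ℝ, ContDiffOn ℝ ∞ g HH →
      ContDiffOn ℝ ∞ (fun z => fderiv ℝ g z v) HH := fun v g hg =>
    (hg.fderiv_of_isOpen HH_open (by simp)).clm_apply contDiffOn_const
  exact (d 1 _ (d 1 _ hg)).add (d I _ (d I _ hg))

lemma LL_sm (lam : ℝ) {g : ℂ → ℝ} (hg : ContDiffOn ℝ ∞ g HH) : ContDiffOn ℝ ∞ (LL lam g) HH := by
  have h1 : ContDiffOn ℝ ∞ (fun z : ℂ => z.im ^ 2) HH := (imCLM.contDiff.pow 2).contDiffOn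
  exact ((h1.mul (lp_sm_on hg)).neg).div_const lam

lemma LL_it_sm (lam : ℝ) {g : ℂ → ℝ} (hg : ContDiffOn ℝ ∞ g HH) (k : ℕ) :
    ContDiffOn ℝ ∞ ((LL lam)^[k] g) HH := by
  induction k with
  | zero => exact hg
  | succ k ih =>
    rw [Function.iterate_succ_apply']
    exact LL_sm lam ih

lemma lp_congr {f g : ℂ → ℝ} {z : ℂ} (h : f =ᶠ[𝓝 z] g) : lp f z = lp g z := by
  have h1 : ∀ v : ℂ, (fun w => fderiv ℝ f w v) =ᶠ[𝓝 z] fun w => fderiv ℝ g w v := fun v => by
    filter_upwards [h.fderiv (𝕜 := ℝ)] with x hx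
    rw [hx]
  have h2 : fderiv ℝ (fun w => fderiv ℝ f w 1) z 1 = fderiv ℝ (fun w => fderiv ℝ g w 1) z 1 := by
    rw [(h1 1).fderiv_eq]
  have h3 : fderiv ℝ (fun w => fderiv ℝ f w I) z I = fderiv ℝ (fun w => fderiv ℝ g w I) z I := by
    rw [(h1 I).fderiv_eq]
  show fderiv ℝ (fun w => fderiv ℝ f w 1) z 1 + fderiv ℝ (fun w => fderiv ℝ f w I) z I =
    fderiv ℝ (fun w => fderiv ℝ g w 1) z 1 + fderiv ℝ (fun w => fderiv ℝ g w I) z I
  rw [h2, h3]

/-- pairing of disc means -/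
lemma DM_pair {h R : ℝ} (hh : 0 < h) (hR : 0 < R) (hhR : h * R ≤ 1 / 2) {q G : ℂ → ℝ}
    (hq : Continuous q) (hqs : HasCompactSupport q) (hG : Continuous G)
    (hGs : HasCompactSupport G) :
    |∫ z, q z * DM h R G z| ≤ (∫ z, q z ^ 2) + ∫ z, G z ^ 2 := by
  have hp := Real.pi_pos
  set Y := (∫ z, q z ^ 2) + ∫ z, G z ^ 2 with hY
  have hY0 : 0 ≤ Y := add_nonneg (integral_nonneg fun z => sq_nonneg _)
    (integral_nonneg fun z => sq_nonneg _)
  have b : ∀ s ∈ Icc (0:ℝ) 1, |GG h q G (R * s)| ≤ 2 * π * Y := by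
    intro s hs
    have ha : |h * (R * s)| ≤ 1 / 2 := by
      rw [abs_of_nonneg (mul_nonneg hh.le (mul_nonneg hR.le hs.1))]
      refine le_trans ?_ hhR
      exact mul_le_mul_of_nonneg_left (mul_le_of_le_one_right hR.le hs.2) hh.le
    have h1 := GG_bound ha hq hqs hG hGs (w := fun _ => 1) continuous_const (om := 1)
      (fun θ => by simp)
    simp only [one_mul] at h1
    exact h1
  rw [int_DM hq hqs hG, abs_mul, abs_of_pos (by positivity : (0:ℝ) < 1 / π)]
  have h5 : |∫ s in (0:ℝ)..1, s * GG h q G (R * s)| ≤ ∫ s in (0:ℝ)..1, 2 * π * Y * s := by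
    have := intervalIntegral.norm_integral_le_of_norm_le (μ := volume) zero_le_one
      (f := fun s => s * GG h q G (R * s)) (g := fun s => 2 * π * Y * s)
      (Eventually.of_forall fun s hs => ?_) (Continuous.intervalIntegrable (by fun_prop) _ _)
    · rw [Real.norm_eq_abs] at this
      exact this
    · rw [norm_mul, Real.norm_eq_abs, Real.norm_eq_abs, abs_of_pos hs.1, mul_comm]
      exact mul_le_mul_of_nonneg_right (b s ⟨hs.1.le, hs.2⟩) hs.1.le
  rw [intervalIntegral.integral_const_mul, integral_id] at h5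
  calc 1 / π * _ ≤ 1 / π * (2 * π * Y * ((1 ^ 2 - 0 ^ 2) / 2)) :=
        mul_le_mul_of_nonneg_left h5 (by positivity)
    _ = Y := by field_simp; ring

lemma sq_bound {f p : ℂ → ℝ} {m : ℝ} (hm : ∀ z, |f z| ≤ m) (hf : Continuous f)
    (hfs : HasCompactSupport f) (hp : Continuous p) (hps : Integrable (fun z => p z ^ 2)) :
    ∫ z, (f z * p z) ^ 2 ≤ m ^ 2 * ∫ z, p z ^ 2 := by
  rw [← integral_const_mul]
  refine integral_mono ?_ (hps.const_mul _) fun z => ?_
  · have : HasCompactSupport (fun z : ℂ => (f z * p z) * (f z * p z)) := hfs.mul_right.mul_right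
    have h5 : Integrable (fun z : ℂ => (f z * p z) * (f z * p z)) :=
      ((hf.mul hp).mul (hf.mul hp)).integrable_of_hasCompactSupport this
    simpa only [pow_two] using h5
  · show (f z * p z) ^ 2 ≤ m ^ 2 * p z ^ 2
    rw [mul_pow]
    refine mul_le_mul_of_nonneg_right ?_ (sq_nonneg _)
    rw [← sq_abs]
    exact pow_le_pow_left₀ (abs_nonneg _) (hm z) 2

lemma DM_sq {h R : ℝ} (hh : 0 < h) (hR : 0 < R) (hhR : h * R ≤ 1 / 2) {f G : ℂ → ℝ} {m : ℝ}
    (hm0 : 0 < m) (hm : ∀ z, |f z| ≤ m) (hf : Continuous f) (hfs : HasCompactSupport f)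
    (hG : Continuous G) (hGs : HasCompactSupport G) :
    ∫ z, (f z * DM h R G z) ^ 2 ≤ 4 * m ^ 2 * ∫ z, G z ^ 2 := by
  have cD := DM_cont hG h R
  set c : ℝ := 1 / (2 * m ^ 2) with hc
  have hc0 : 0 < c := by positivity
  have hm2 : c * (2 * m ^ 2) = 1 := by rw [hc]; field_simp
  have h1 := DM_pair hh hR hhR (q := fun z => c * (f z ^ 2 * DM h R G z))
    (by fun_prop) (by
      have : HasCompactSupport (fun z : ℂ => f z * (f z * DM h R G z)) := hfs.mul_right
      have e : (fun z : ℂ => c * (f z ^ 2 * DM h R G z)) =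
          fun z => c * (f z * (f z * DM h R G z)) := by funext z; ring
      rw [e]; exact this.mul_left) hG hGs
  have e1 : ∫ z, c * (f z ^ 2 * DM h R G z) * DM h R G z = c * ∫ z, (f z * DM h R G z) ^ 2 := by
    rw [← integral_const_mul]; congr 1; funext z; ring
  rw [e1] at h1
  have ifd : Integrable (fun z => (f z * DM h R G z) ^ 2) := by
    have : HasCompactSupport (fun z : ℂ => (f z * DM h R G z) * (f z * DM h R G z)) :=
      hfs.mul_right.mul_right
    have h5 : Integrable (fun z : ℂ => (f z * DM h R G z) * (f z * DM h R G z)) :=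
      ((hf.mul cD).mul (hf.mul cD)).integrable_of_hasCompactSupport this
    simpa only [pow_two] using h5
  have e2 : ∫ z, (c * (f z ^ 2 * DM h R G z)) ^ 2 ≤ c ^ 2 * m ^ 2 * ∫ z, (f z * DM h R G z) ^ 2 := by
    rw [← integral_const_mul]
    refine integral_mono ?_ (ifd.const_mul _) fun z => ?_
    · have : HasCompactSupport (fun z : ℂ => (f z * (f z * DM h R G z)) *
          (f z * (f z * DM h R G z))) := hfs.mul_right.mul_right
      have h5 : Integrable (fun z : ℂ => (f z * (f z * DM h R G z)) *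
          (f z * (f z * DM h R G z))) :=
        ((hf.mul (hf.mul cD)).mul (hf.mul (hf.mul cD))).integrable_of_hasCompactSupport this
      refine (h5.const_mul (c ^ 2)).congr (Eventually.of_forall fun z => ?_)
      show c ^ 2 * ((f z * (f z * DM h R G z)) * (f z * (f z * DM h R G z))) =
        (c * (f z ^ 2 * DM h R G z)) ^ 2
      ring
    · show (c * (f z ^ 2 * DM h R G z)) ^ 2 ≤ c ^ 2 * m ^ 2 * (f z * DM h R G z) ^ 2
      have h2 : f z ^ 2 ≤ m ^ 2 := by
        rw [← sq_abs]; exact pow_le_pow_left₀ (abs_nonneg _) (hm z) 2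
      have h3 : (c * (f z ^ 2 * DM h R G z)) ^ 2 = (c ^ 2 * (f z * DM h R G z) ^ 2) * f z ^ 2 := by
        ring
      rw [h3]
      have h4 : 0 ≤ c ^ 2 * (f z * DM h R G z) ^ 2 := by positivity
      calc _ ≤ (c ^ 2 * (f z * DM h R G z) ^ 2) * m ^ 2 := mul_le_mul_of_nonneg_left h2 h4
        _ = _ := by ring
  set X := ∫ z, (f z * DM h R G z) ^ 2 with hX
  have hX0 : 0 ≤ X := integral_nonneg fun z => sq_nonneg _
  have h6 : c * X ≤ c ^ 2 * m ^ 2 * X + ∫ z, G z ^ 2 := by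
    have := le_abs_self (c * X)
    linarith
  have h7 : c ^ 2 * m ^ 2 * X = c * X / 2 := by
    have : c ^ 2 * m ^ 2 * X = (c * (2 * m ^ 2)) * (c * X) / 2 := by ring
    rw [this, hm2, one_mul]
  have h8 : c * X / 2 ≤ ∫ z, G z ^ 2 := by linarith
  have h9 : X = 4 * m ^ 2 * (c * X / 2) := by
    have : 4 * m ^ 2 * (c * X / 2) = (c * (2 * m ^ 2)) * X := by ring
    rw [this, hm2, one_mul]
  rw [h9]
  exact mul_le_mul_of_nonneg_left h8 (by positivity)

/-- the comparison for one eigenfunction -/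
theorem core {lam h R : ℝ} (hh : 0 < h) (hhl : h ^ 2 * lam = 1) (hR : 0 < R)
    (hhR : h * R ≤ 1 / 2) {g : ℂ → ℝ} (hg : ContDiffOn ℝ ∞ g HH) {φ ζ : ℂ → ℝ} (hφ : TF HH φ)
    (hζ : TF HH ζ) {U1 : Set ℂ} (hU1 : IsOpen U1) (hζ1 : ∀ z ∈ U1, ζ z = 1)
    (hd : ∀ z, φ z ≠ 0 → ∀ t ∈ Icc 0 R, ∀ θ : ℝ, z + ((h * z.im * t : ℝ) : ℂ) * ev θ ∈ U1)
    {m : ℝ} (hm0 : 0 < m) (hm : ∀ z, |φ z| ≤ m) (K : ℕ) {W e : ℝ} (he : 0 ≤ e) (hW : 0 ≤ W)
    (b1 : ∀ k ≤ K, ∫ z, (ζ z * (LL lam)^[k] g z) ^ 2 ≤ 16 ^ K * W)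
    (b2 : ∫ z, (ζ z * oF (Pol K R) lam g z) ^ 2 ≤ (1 + e) ^ 2 * W) :
    |(∫ z, φ z * DM h R (fun z => ζ z * g z) z ^ 2) -
      ∫ z, φ z * (ζ z * oF (Pol K R) lam g z) ^ 2| ≤
      4 * π * ((4 * m ^ 2 * (1 + e) ^ 2 + 1) * W) * (ek R K +
        h * (16 ^ K * (10 * R * ∑ k ∈ Finset.range K, cc (k + 1) * R ^ (2 * k + 2)))) := by
  have hp := Real.pi_pos
  have hlam : lam ≠ 0 := by rintro rfl; simp at hhl
  set G : ℕ → ℂ → ℝ := fun k z => ζ z * (LL lam)^[k] g z with hGd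
  have tG : ∀ k, TF HH (G k) := fun k => TF.mulc HH_open hζ (LL_it_sm lam hg k)
  have G0 : (fun z => ζ z * g z) = G 0 := rfl
  rw [G0]
  set D := DM h R (G 0) with hD
  have cD : Continuous D := DM_cont (tG 0).1.continuous h R
  set P : ℂ → ℝ := fun z => ζ z * oF (Pol K R) lam g z with hP
  have Psum : ∀ z, P z = ∑ k ∈ Finset.range K, (-1) ^ k * dd k * R ^ (2 * k) * G k z := by
    intro z
    simp only [hP, hGd]
    rw [oF_Pol, Finset.mul_sum]
    refine Finset.sum_congr rfl fun k _ => by ring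
  have cG : ∀ k, Continuous (G k) := fun k => (tG k).1.continuous
  have cP : Continuous P := by
    have : P = fun z => ∑ k ∈ Finset.range K, (-1) ^ k * dd k * R ^ (2 * k) * G k z := by
      funext z; exact Psum z
    rw [this]
    exact continuous_finsetSum _ fun k _ => continuous_const.mul (cG k)
  have cφ : Continuous φ := hφ.1.continuous
  have hrel : ∀ p : ℂ → ℝ, ∀ k z, φ z * p z ≠ 0 → 0 < z.im ∧ ∀ t ∈ Icc 0 R, ∀ θ : ℝ,
      h ^ 2 * (z + ((h * z.im * t : ℝ) : ℂ) * ev θ).im ^ 2 *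
        lp (G k) (z + ((h * z.im * t : ℝ) : ℂ) * ev θ) =
        - G (k + 1) (z + ((h * z.im * t : ℝ) : ℂ) * ev θ) := by
    intro p k z hz
    have hφz : φ z ≠ 0 := left_ne_zero_of_mul hz
    refine ⟨?_, fun t ht θ => ?_⟩
    · by_contra hn
      exact hφz (TF.zero hφ (fun h => hn h))
    · have hu := hd z hφz t ht θ
      set w := z + ((h * z.im * t : ℝ) : ℂ) * ev θ with hw
      have h1 : G k =ᶠ[𝓝 w] (LL lam)^[k] g := by
        filter_upwards [hU1.mem_nhds hu] with x hx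
        simp only [hGd]
        rw [hζ1 x hx, one_mul]
      rw [lp_congr h1]
      simp only [hGd]
      rw [hζ1 w hu, one_mul, Function.iterate_succ_apply']
      unfold LL
      rw [neg_div, neg_neg, eq_div_iff hlam]
      linear_combination (w.im ^ 2 * lp ((fun g z => -(z.im ^ 2 * lp g z) / lam)^[k] g) w) * hhl
  have hm2 : 0 < m ^ 2 := by positivity
  have h16 : (1:ℝ) ≤ 16 ^ K := one_le_pow₀ (by norm_num)
  set Y : ℝ := 16 ^ K * ((4 * m ^ 2 * (1 + e) ^ 2 + 1) * W) with hY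
  have h1e : 1 ≤ (1 + e) ^ 2 := by nlinarith
  have iP : Integrable (fun z => P z ^ 2) := by
    have cs : HasCompactSupport P := hζ.2.1.mul_right
    have : HasCompactSupport (fun z : ℂ => P z * P z) := cs.mul_right
    have h5 : Integrable (fun z : ℂ => P z * P z) := (cP.mul cP).integrable_of_hasCompactSupport this
    simpa only [pow_two] using h5
  have y1 : ∀ k ≤ K, (∫ z, (φ z * D z) ^ 2) + ∫ z, G k z ^ 2 ≤ Y := by
    intro k hk
    have a1 := DM_sq hh hR hhR hm0 hm cφ hφ.2.1 (cG 0) (tG 0).2.1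
    have a2 := b1 0 (Nat.zero_le _)
    have a3 := b1 k hk
    have a4 : ∫ z, G 0 z ^ 2 ≤ 16 ^ K * W := a2
    have a5 := mul_le_mul_of_nonneg_left a4 (by positivity : 0 ≤ 4 * m ^ 2)
    have a6 : 4 * m ^ 2 * (16 ^ K * W) ≤ 4 * m ^ 2 * (1 + e) ^ 2 * (16 ^ K * W) := by
      have : 0 ≤ 4 * m ^ 2 * (16 ^ K * W) := by positivity
      nlinarith
    have a7 : Y = 4 * m ^ 2 * (1 + e) ^ 2 * (16 ^ K * W) + 16 ^ K * W := by rw [hY]; ring
    rw [a7]
    exact add_le_add (a1.trans (a5.trans a6)) a3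
  have y2 : ∀ k ≤ K, (∫ z, (φ z * P z) ^ 2) + ∫ z, G k z ^ 2 ≤ Y := by
    intro k hk
    have a1 := sq_bound hm cφ hφ.2.1 cP iP
    have a3 := b1 k hk
    have a5 := mul_le_mul_of_nonneg_left b2 hm2.le
    have a6 : m ^ 2 * ((1 + e) ^ 2 * W) ≤ 4 * m ^ 2 * (1 + e) ^ 2 * (16 ^ K * W) := by
      have : 0 ≤ m ^ 2 * ((1 + e) ^ 2 * W) := by positivity
      nlinarith
    have a7 : Y = 4 * m ^ 2 * (1 + e) ^ 2 * (16 ^ K * W) + 16 ^ K * W := by rw [hY]; ring
    rw [a7]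
    exact add_le_add (a1.trans (a5.trans a6)) a3
  have m1 := main_est hh hR hhR (cφ.mul cD) hφ.2.1.mul_right G (fun k => (tG k).1)
    (fun k => (tG k).2.1) (hrel D) K y1
  have m2 := main_est hh hR hhR (cφ.mul cP) hφ.2.1.mul_right G (fun k => (tG k).1)
    (fun k => (tG k).2.1) (hrel P) K y2
  have esum : ∀ p : ℂ → ℝ, Continuous p →
      ∑ k ∈ Finset.range K, (-1) ^ k * dd k * R ^ (2 * k) * ∫ z, φ z * p z * G k z =
      ∫ z, φ z * p z * P z := by
    intro p hp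
    have : ∀ z, φ z * p z * P z = ∑ k ∈ Finset.range K, (-1) ^ k * dd k * R ^ (2 * k) *
        (φ z * p z * G k z) := by
      intro z
      rw [Psum, Finset.mul_sum]
      refine Finset.sum_congr rfl fun k _ => by ring
    simp only [this]
    rw [integral_finsetSum]
    · refine Finset.sum_congr rfl fun k _ => ?_
      rw [integral_const_mul]
    · intro k _
      have : Integrable (fun z => φ z * p z * G k z) :=
        ((cφ.mul hp).mul (cG k)).integrable_of_hasCompactSupport hφ.2.1.mul_right.mul_right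
      exact this.const_mul _
  have e1 := esum D cD
  have e2 := esum P cP
  simp only [Pi.mul_apply] at m1 m2
  rw [e1] at m1
  rw [e2] at m2
  have e3 : ∫ z, φ z * D z * D z = ∫ z, φ z * D z ^ 2 := by congr 1; funext z; ring
  have e4 : ∫ z, φ z * D z * P z = ∫ z, φ z * P z * D z := by congr 1; funext z; ring
  have e5 : ∫ z, φ z * P z * P z = ∫ z, φ z * P z ^ 2 := by congr 1; funext z; ring
  rw [← hD, e3, e4] at m1
  rw [← hD, e5] at m2
  have e6 : (∫ z, φ z * D z ^ 2) - ∫ z, φ z * P z ^ 2 =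
      ((∫ z, φ z * D z ^ 2) - ∫ z, φ z * P z * D z) +
      ((∫ z, φ z * P z * D z) - ∫ z, φ z * P z ^ 2) := by ring
  rw [e6]
  refine (abs_add_le _ _).trans ((add_le_add m1 m2).trans (le_of_eq ?_))
  have e7 : ek R K = cc K * R ^ (2 * K) * 16 ^ K := by
    unfold ek; rw [mul_pow, pow_mul R]; ring
  rw [e7, hY]
  ring

end

end Pool.Agent.T9h62.SQ
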