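import Pool.Agent.T9h62.SQ.Core

/-! The mean square of the disc means in terms of the fourth moment. -/
set_option autoImplicit false
open MeasureTheory Filter Topology Set Complex
open scoped ContDiff Real

namespace Pool.Agent.T9h62.SQ

open Pool.Agent.Y265.HY (ev ev_re ev_im ev_norm ev_cont MM PP' Av fx fy MM_d NN_d Av_d PP0 MM0
  fx_sm fy_sm arg_cont)
open Pool.Agent.W745.RW (TF)
open Pool.Agent.TH294.RS (TF.mulc TF.zero)

noncomputable section

/-- the input: the sharp power spectrum -/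
def SPS (lam : ℕ → ℝ) (g : ℕ → ℂ → ℝ) : Prop :=
  ∀ ψ, TF HH ψ → ∀ F : Polynomial ℝ, Tendsto (fun n =>
    (∫ z, ψ z * oF F (lam n) (g n) z ^ 2 / z.im ^ 2) -
      (2 * F.eval 0 ^ 2 + F.eval 4 ^ 2) / 3 *
        ((∫ z, ψ z * g n z ^ 2 / z.im ^ 2) - 3 * ∫ z, ψ z / z.im ^ 2)) atTop
    (𝓝 (gs F * ∫ z, ψ z / z.im ^ 2))

lemma zeta_int {ζ : ℂ → ℝ} (hζ : TF HH ζ) (a : ℂ → ℝ) :
    ∫ z, ζ z * (ζ z * z.im ^ 2) * a z / z.im ^ 2 = ∫ z, ζ z ^ 2 * a z := by
  congr 1; funext z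
  by_cases hz : z ∈ HH
  · have : z.im ≠ 0 := (show 0 < z.im from hz).ne'
    field_simp
  · rw [TF.zero hζ hz]; simp

lemma sps_bound {lam : ℕ → ℝ} {g : ℕ → ℂ → ℝ} (hS : SPS lam g) {ζ : ℂ → ℝ} (hζ : TF HH ζ)
    {F : Polynomial ℝ} {B : ℝ} (hB : ∀ s, 0 ≤ s → s ≤ 4 → |F.eval s| ≤ B) :
    ∀ᶠ n in atTop, ∫ z, (ζ z * oF F (lam n) (g n) z) ^ 2 ≤
      B ^ 2 * (3 * (∫ z, ζ z ^ 2) + ∫ z, (ζ z * g n z) ^ 2) + 1 := by
  have hψ : TF HH (fun z => ζ z * (ζ z * z.im ^ 2)) :=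
    TF.mulc HH_open hζ (hζ.1.contDiffOn.mul ((imCLM.contDiff.pow 2).contDiffOn))
  have h1 := hS _ hψ F
  have h2 := h1.eventually (gt_mem_nhds (lt_add_one _))
  filter_upwards [h2] with n hn
  have e1 := zeta_int hζ (fun z => oF F (lam n) (g n) z ^ 2)
  have e2 := zeta_int hζ (fun z => g n z ^ 2)
  have e3 := zeta_int hζ (fun _ => 1)
  simp only [mul_one] at e3
  rw [e1, e2, e3] at hn
  have e4 : ∀ a : ℂ → ℝ, ∫ z, (ζ z * a z) ^ 2 = ∫ z, ζ z ^ 2 * a z ^ 2 := by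
    intro a; congr 1; funext z; ring
  rw [e4, e4]
  set A := ∫ z, ζ z ^ 2 with hA
  have hA0 : 0 ≤ A := integral_nonneg fun z => sq_nonneg _
  set N := ∫ z, ζ z ^ 2 * g n z ^ 2 with hN
  have hN0 : 0 ≤ N := integral_nonneg fun z => mul_nonneg (sq_nonneg _) (sq_nonneg _)
  have sq : ∀ s, 0 ≤ s → s ≤ 4 → F.eval s ^ 2 ≤ B ^ 2 := by
    intro s h0 h4
    rw [← sq_abs]; exact pow_le_pow_left₀ (abs_nonneg _) (hB s h0 h4) 2
  set κ := (2 * F.eval 0 ^ 2 + F.eval 4 ^ 2) / 3 with hκ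
  have hκ0 : 0 ≤ κ := by positivity
  have hκ1 : κ ≤ B ^ 2 := by
    have := sq 0 le_rfl (by norm_num)
    have := sq 4 (by norm_num) le_rfl
    rw [hκ]; linarith
  have h5 : gs F * A ≤ 3 * B ^ 2 * A := mul_le_mul_of_nonneg_right (gs_le hB) hA0
  have h6 : κ * N ≤ B ^ 2 * N := mul_le_mul_of_nonneg_right hκ1 hN0
  have h7 : 0 ≤ κ * A := mul_nonneg hκ0 hA0
  nlinarith

lemma discs {φ : ℂ → ℝ} (hφ : HasCompactSupport φ) {U1 : Set ℂ} (hU1 : IsOpen U1)
    (hsub : tsupport φ ⊆ U1) (R : ℝ) {h : ℕ → ℝ} (hh0 : ∀ n, 0 < h n)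
    (hh : Tendsto h atTop (𝓝 0)) :
    ∀ᶠ n in atTop, ∀ z, φ z ≠ 0 → ∀ t ∈ Icc 0 R, ∀ w : ℂ, ‖w‖ ≤ 1 →
      z + ((h n * z.im * t : ℝ) : ℂ) * w ∈ U1 := by
  obtain ⟨δ, hδ, hδU⟩ := hφ.isCompact.exists_cthickening_subset_open hU1 hsub
  obtain ⟨Y, hY⟩ := hφ.isCompact.exists_bound_of_continuousOn
    (Complex.continuous_im.continuousOn)
  have h1 : Tendsto (fun n => h n * (|Y| * |R|)) atTop (𝓝 0) := by
    simpa using hh.mul_const (|Y| * |R|)
  filter_upwards [h1.eventually (gt_mem_nhds hδ)] with n hn z hz t ht w hw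
  have hz' : z ∈ tsupport φ := subset_tsupport _ hz
  refine hδU (Metric.mem_cthickening_of_dist_le _ z δ _ hz' ?_)
  rw [dist_eq_norm, add_sub_cancel_left, norm_mul, Complex.norm_real, Real.norm_eq_abs, abs_mul,
    abs_mul, abs_of_pos (hh0 n)]
  have h2 := hY z hz'
  rw [Real.norm_eq_abs] at h2
  have h3 : |z.im| ≤ |Y| := h2.trans (le_abs_self _)
  have h4 : |t| ≤ |R| := by
    rw [abs_of_nonneg ht.1]; exact ht.2.trans (le_abs_self _)
  calc h n * |z.im| * |t| * ‖w‖ ≤ h n * |z.im| * |t| * 1 :=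
        mul_le_mul_of_nonneg_left hw (by have := hh0 n; positivity)
    _ = h n * (|z.im| * |t|) := by ring
    _ ≤ h n * (|Y| * |R|) := mul_le_mul_of_nonneg_left
        (mul_le_mul h3 h4 (abs_nonneg _) (abs_nonneg _)) (hh0 n).le
    _ ≤ δ := hn.le

lemma DM_congr {h R : ℝ} {f g : ℂ → ℝ} {z : ℂ}
    (he : ∀ t ∈ Icc 0 R, ∀ w : ℂ, ‖w‖ ≤ 1 → f (z + ((h * z.im * t : ℝ) : ℂ) * w) =
      g (z + ((h * z.im * t : ℝ) : ℂ) * w)) (hR : 0 ≤ R) : DM h R f z = DM h R g z := by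
  unfold DM
  congr 1
  refine intervalIntegral.integral_congr fun s hs => ?_
  rw [uIcc_of_le zero_le_one] at hs
  show s * CM h f z (R * s) = s * CM h g z (R * s)
  congr 1
  unfold CM
  congr 1; funext θ
  exact he (R * s) ⟨mul_nonneg hR hs.1, mul_le_of_le_one_right hR hs.2⟩ _ (ev_norm θ).le

theorem small_scale {lam : ℕ → ℝ} (hpos : ∀ n, 0 < lam n) (hlam : Tendsto lam atTop atTop)
    {g : ℕ → ℂ → ℝ} (hg : ∀ n, ContDiffOn ℝ ∞ (g n) HH) (hS : SPS lam g) {R : ℝ} (hR : 0 < R)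
    {ψ : ℂ → ℝ} (hψ : TF HH ψ) {ζ : ℂ → ℝ} (hζ : TF HH ζ) {U1 : Set ℂ}
    (hU1 : IsOpen U1) (hζ1 : ∀ z ∈ U1, ζ z = 1) (hsub : tsupport ψ ⊆ U1) {ε : ℝ} (hε : 0 < ε) :
    ∀ᶠ n in atTop, |(∫ z, ψ z * DM (1 / √(lam n)) R (g n) z ^ 2 / z.im ^ 2) -
      (1 + vr R) * (∫ z, ψ z / z.im ^ 2) - (2 + jj (2 * R) ^ 2) / 3 *
        ((∫ z, ψ z * g n z ^ 2 / z.im ^ 2) - 3 * ∫ z, ψ z / z.im ^ 2)| ≤
      ε * (1 + ∫ z, (ζ z * g n z) ^ 2) := by
  have hp := Real.pi_pos
  set h : ℕ → ℝ := fun n => 1 / √(lam n) with hh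
  have hh0 : ∀ n, 0 < h n := fun n => by
    have := Real.sqrt_pos.2 (hpos n); simp only [hh]; positivity
  have hht : Tendsto h atTop (𝓝 0) := by
    simp only [hh]
    exact tendsto_const_nhds.div_atTop (Real.tendsto_sqrt_atTop.comp hlam)
  have hhl : ∀ n, h n ^ 2 * lam n = 1 := fun n => by
    simp only [hh]
    rw [div_pow, Real.sq_sqrt (hpos n).le, one_pow]
    exact one_div_mul_cancel (hpos n).ne'
  have sy : ContDiffOn ℝ ∞ (fun z : ℂ => (z.im ^ 2)⁻¹) HH := by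
    refine ContDiffOn.inv ((imCLM.contDiff.pow 2).contDiffOn) fun z hz => ?_
    exact pow_ne_zero 2 (show 0 < z.im from hz).ne'
  set φ : ℂ → ℝ := fun z => ψ z / z.im ^ 2 with hφd
  have tφ : TF HH φ := TF.mulc HH_open hψ sy
  have sφ : tsupport φ ⊆ U1 := by
    refine (closure_mono ?_).trans hsub
    intro z hz
    have : ψ z * (z.im ^ 2)⁻¹ ≠ 0 := hz
    exact left_ne_zero_of_mul this
  obtain ⟨m', hm'⟩ := tφ.2.1.exists_bound_of_continuousOn tφ.1.continuous.continuousOn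
  set m : ℝ := |m'| + 1 with hmd
  have hm0 : 0 < m := by positivity
  have hm : ∀ z, |φ z| ≤ m := by
    intro z
    by_cases hz : z ∈ tsupport φ
    · have := hm' z hz
      rw [Real.norm_eq_abs] at this
      linarith [le_abs_self m']
    · rw [image_eq_zero_of_notMem_tsupport hz, abs_zero]; exact hm0.le
  set A := ∫ z, ζ z ^ 2 with hA
  have hA0 : 0 ≤ A := integral_nonneg fun z => sq_nonneg _
  set Aψ := ∫ z, ψ z / z.im ^ 2 with hAψ
  set N : ℕ → ℝ := fun n => ∫ z, (ζ z * g n z) ^ 2 with hN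
  have hN0 : ∀ n, 0 ≤ N n := fun n => integral_nonneg fun z => sq_nonneg _
  -- choice of K
  set bK : ℕ → ℝ := fun K => 4 * π * ((4 * m ^ 2 * (1 + ek R K) ^ 2 + 1) * (3 * A + 1)) * ek R K +
    3 * (ek R K * (2 + ek R K)) * |Aψ| + ek R K * (2 + ek R K) * (m + 3 * |Aψ|) with hbK
  have tb : Tendsto bK atTop (𝓝 0) := by
    have te := ek_tendsto R
    have : Tendsto bK atTop (𝓝 (4 * π * ((4 * m ^ 2 * (1 + 0) ^ 2 + 1) * (3 * A + 1)) * 0 +
        3 * (0 * (2 + 0)) * |Aψ| + 0 * (2 + 0) * (m + 3 * |Aψ|))) := by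
      refine ((Tendsto.mul ?_ te).add ?_).add ?_
      · refine tendsto_const_nhds.mul (Tendsto.mul ?_ tendsto_const_nhds)
        exact (tendsto_const_nhds.mul ((tendsto_const_nhds.add te).pow 2)).add tendsto_const_nhds
      · exact (tendsto_const_nhds.mul (te.mul (tendsto_const_nhds.add te))).mul tendsto_const_nhds
      · exact (te.mul (tendsto_const_nhds.add te)).mul tendsto_const_nhds
    simpa using this
  obtain ⟨K, hK⟩ := (tb.eventually (gt_mem_nhds (half_pos hε))).exists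
  -- events in n
  have ev1 : ∀ᶠ n in atTop, ∀ k ∈ Finset.range (K + 1),
      ∫ z, (ζ z * (LL (lam n))^[k] (g n) z) ^ 2 ≤ 16 ^ K * ((3 * A + 1) * (1 + N n)) := by
    rw [Finset.eventually_all]
    intro k hk
    have hk' : k ≤ K := by simpa [Nat.lt_succ_iff] using hk
    have hb : ∀ s, 0 ≤ s → s ≤ 4 → |(Polynomial.X ^ k : Polynomial ℝ).eval s| ≤ 4 ^ k := by
      intro s h0 h4
      rw [Polynomial.eval_pow, Polynomial.eval_X, abs_of_nonneg (by positivity)]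
      exact pow_le_pow_left₀ h0 h4 k
    filter_upwards [sps_bound hS hζ hb] with n hn
    simp only [oF_X] at hn
    refine hn.trans ?_
    have h1 : ((4:ℝ) ^ k) ^ 2 ≤ 16 ^ K := by
      rw [← pow_mul, mul_comm, pow_mul]
      norm_num
      exact pow_le_pow_right₀ (by norm_num) hk'
    have h2 : (1:ℝ) ≤ 16 ^ K := one_le_pow₀ (by norm_num)
    have h3 := hN0 n
    have h4 : 0 ≤ 3 * A + N n := by positivity
    calc ((4:ℝ) ^ k) ^ 2 * (3 * A + N n) + 1 ≤ 16 ^ K * (3 * A + N n) + 16 ^ K * 1 :=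
          add_le_add (mul_le_mul_of_nonneg_right h1 h4) (by linarith)
      _ = 16 ^ K * (3 * A + N n + 1) := by ring
      _ ≤ 16 ^ K * ((3 * A + 1) * (1 + N n)) := by
          refine mul_le_mul_of_nonneg_left ?_ (by positivity)
          nlinarith [mul_nonneg hA0 h3]
  have ev2 : ∀ᶠ n in atTop, ∫ z, (ζ z * oF (Pol K R) (lam n) (g n) z) ^ 2 ≤
      (1 + ek R K) ^ 2 * ((3 * A + 1) * (1 + N n)) := by
    have hb : ∀ s, 0 ≤ s → s ≤ 4 → |(Pol K R).eval s| ≤ 1 + ek R K := by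
      intro s h0 h4
      have h1 := Pol_close K (R := R) h0 h4
      have h2 := jj_abs (R * √s)
      have : (Pol K R).eval s = jj (R * √s) + ((Pol K R).eval s - jj (R * √s)) := by ring
      rw [this]
      exact (abs_add_le _ _).trans (add_le_add h2 h1)
    filter_upwards [sps_bound hS hζ hb] with n hn
    refine hn.trans ?_
    have h3 := hN0 n
    have h4 : 0 ≤ 3 * A + N n := by positivity
    have h5 := ek_nonneg R K
    have h6 : 1 ≤ (1 + ek R K) ^ 2 := by nlinarith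
    calc (1 + ek R K) ^ 2 * (3 * A + N n) + 1 ≤ (1 + ek R K) ^ 2 * (3 * A + N n) +
        (1 + ek R K) ^ 2 * 1 := by linarith
      _ = (1 + ek R K) ^ 2 * (3 * A + N n + 1) := by ring
      _ ≤ (1 + ek R K) ^ 2 * ((3 * A + 1) * (1 + N n)) := by
          refine mul_le_mul_of_nonneg_left ?_ (by positivity)
          nlinarith [mul_nonneg hA0 h3]
  have ev3 := discs tφ.2.1 hU1 sφ R hh0 hht
  have ev4 : ∀ᶠ n in atTop, h n * R ≤ 1 / 2 := by
    have : Tendsto (fun n => h n * R) atTop (𝓝 0) := by simpa using hht.mul_const R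
    exact (this.eventually (gt_mem_nhds (by norm_num : (0:ℝ) < 1 / 2))).mono fun n hn => hn.le
  set cK : ℝ := 4 * π * ((4 * m ^ 2 * (1 + ek R K) ^ 2 + 1) * (3 * A + 1)) *
    (16 ^ K * (10 * R * ∑ k ∈ Finset.range K, cc (k + 1) * R ^ (2 * k + 2))) with hcK
  have ev5 : ∀ᶠ n in atTop, h n * cK ≤ ε / 4 := by
    have : Tendsto (fun n => h n * cK) atTop (𝓝 0) := by simpa using hht.mul_const cK
    exact (this.eventually (gt_mem_nhds (by positivity : (0:ℝ) < ε / 4))).mono fun n hn => hn.le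
  have ev6 := (hS ψ hψ (Pol K R)).eventually (Metric.ball_mem_nhds _ (by positivity : 0 < ε / 4))
  filter_upwards [ev1, ev2, ev3, ev4, ev5, ev6] with n h1 h2 h3 h4 h5 h6
  have hNn := hN0 n
  have he0 := ek_nonneg R K
  have hW0 : 0 ≤ (3 * A + 1) * (1 + N n) := by positivity
  have c := core (hh0 n) (hhl n) hR h4 (hg n) tφ hζ hU1 hζ1
    (fun z hz t ht θ => h3 z hz t ht _ (ev_norm θ).le) hm0 hm K he0 hW0
    (fun k hk => h1 k (by simpa [Nat.lt_succ_iff] using hk)) h2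
  -- rewriting
  have e1 : ∫ z, φ z * DM (h n) R (fun z => ζ z * g n z) z ^ 2 =
      ∫ z, ψ z * DM (1 / √(lam n)) R (g n) z ^ 2 / z.im ^ 2 := by
    congr 1; funext z
    by_cases hz : φ z = 0
    · have : ψ z = 0 := by
        by_cases hz' : z ∈ HH
        · have h7 : z.im ≠ 0 := (show 0 < z.im from hz').ne'
          have h8 : ψ z / z.im ^ 2 = 0 := hz
          rcases div_eq_zero_iff.1 h8 with h9 | h9
          · exact h9
          · exact absurd h9 (pow_ne_zero 2 h7)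
        · exact TF.zero hψ hz'
      rw [hz, this]; simp
    · have : DM (h n) R (fun z => ζ z * g n z) z = DM (h n) R (g n) z :=
        DM_congr (fun t ht w hw => by
          show ζ _ * g n _ = _
          rw [hζ1 _ (h3 z hz t ht w hw), one_mul]) hR.le
      rw [this]
      simp only [hφd, hh]
      ring
  have e2 : ∫ z, φ z * (ζ z * oF (Pol K R) (lam n) (g n) z) ^ 2 =
      ∫ z, ψ z * oF (Pol K R) (lam n) (g n) z ^ 2 / z.im ^ 2 := by
    congr 1; funext z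
    by_cases hz : φ z = 0
    · have : ψ z = 0 := by
        by_cases hz' : z ∈ HH
        · have h7 : z.im ≠ 0 := (show 0 < z.im from hz').ne'
          have h8 : ψ z / z.im ^ 2 = 0 := hz
          rcases div_eq_zero_iff.1 h8 with h9 | h9
          · exact h9
          · exact absurd h9 (pow_ne_zero 2 h7)
        · exact TF.zero hψ hz'
      rw [hz, this]; simp
    · rw [hζ1 z (sφ (subset_tsupport _ hz)), one_mul]
      simp only [hφd]
      ring
  rw [e1, e2] at c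
  rw [Real.dist_eq, ← hAψ] at h6
  set D2 := ∫ z, ψ z * DM (1 / √(lam n)) R (g n) z ^ 2 / z.im ^ 2 with hD2
  set P2 := ∫ z, ψ z * oF (Pol K R) (lam n) (g n) z ^ 2 / z.im ^ 2 with hP2
  set I4 := ∫ z, ψ z * g n z ^ 2 / z.im ^ 2 with hI4
  -- bound for I4
  have cg : Continuous (fun z => (ζ z * g n z) ^ 2) := (TF.mulc HH_open hζ (hg n)).1.continuous.pow 2
  have bI : |I4| ≤ m * N n := by
    have e3 : I4 = ∫ z, φ z * (ζ z * g n z) ^ 2 := by
      rw [hI4]; congr 1; funext z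
      by_cases hz : ψ z = 0
      · simp [hφd, hz]
      · rw [hζ1 z (hsub (subset_tsupport _ hz)), one_mul]
        simp only [hφd]; ring
    rw [e3, hN]
    simp only
    rw [← integral_const_mul]
    have cs : HasCompactSupport (fun z => (ζ z * g n z) ^ 2) := by
      have : HasCompactSupport (fun z => ζ z * (g n z * (ζ z * g n z))) := hζ.2.1.mul_right
      have e : (fun z => (ζ z * g n z) ^ 2) = fun z => ζ z * (g n z * (ζ z * g n z)) := by
        funext z; ring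
      rw [e]; exact this
    refine (abs_integral_le_integral_abs).trans (integral_mono ?_ ?_ fun z => ?_)
    · have : Integrable (fun z => φ z * (ζ z * g n z) ^ 2) :=
        (tφ.1.continuous.mul cg).integrable_of_hasCompactSupport tφ.2.1.mul_right
      exact this.abs
    · exact (cg.integrable_of_hasCompactSupport cs).const_mul m
    · show |φ z * (ζ z * g n z) ^ 2| ≤ m * (ζ z * g n z) ^ 2
      rw [abs_mul, abs_of_nonneg (sq_nonneg (ζ z * g n z))]
      exact mul_le_mul_of_nonneg_right (hm z) (sq_nonneg _)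
  have hk1 := gs_close K R
  have hk2 : |(2 * (Pol K R).eval 0 ^ 2 + (Pol K R).eval 4 ^ 2) / 3 - (2 + jj (2 * R) ^ 2) / 3| ≤
      ek R K * (2 + ek R K) := by
    have key : ∀ s, 0 ≤ s → s ≤ 4 → |(Pol K R).eval s ^ 2 - jj (R * √s) ^ 2| ≤
        ek R K * (2 + ek R K) := by
      intro s h0 h4
      have h1 := Pol_close K (R := R) h0 h4
      have h2 := jj_abs (R * √s)
      have e : (Pol K R).eval s ^ 2 - jj (R * √s) ^ 2 =
          ((Pol K R).eval s - jj (R * √s)) *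
            (2 * jj (R * √s) + ((Pol K R).eval s - jj (R * √s))) := by ring
      rw [e, abs_mul]
      refine mul_le_mul h1 ?_ (abs_nonneg _) (ek_nonneg R K)
      refine (abs_add_le _ _).trans (add_le_add ?_ h1)
      rw [abs_mul, abs_two]
      linarith
    have k0 := key 0 le_rfl (by norm_num)
    have k4 := key 4 (by norm_num) le_rfl
    rw [Real.sqrt_zero, mul_zero, jj_zero] at k0
    have s4 : √(4:ℝ) = 2 := by
      rw [show (4:ℝ) = 2 ^ 2 by norm_num, Real.sqrt_sq (by norm_num)]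
    rw [s4, mul_comm R 2] at k4
    rw [abs_le] at k0 k4 ⊢
    constructor <;> linarith [k0.1, k0.2, k4.1, k4.2]
  set κ := (2 * (Pol K R).eval 0 ^ 2 + (Pol K R).eval 4 ^ 2) / 3 with hκ
  set κR := (2 + jj (2 * R) ^ 2) / 3 with hκR
  have e3 : D2 - (1 + vr R) * Aψ - κR * (I4 - 3 * Aψ) = (D2 - P2) +
      (P2 - κ * (I4 - 3 * Aψ) - gs (Pol K R) * Aψ) + (gs (Pol K R) - (1 + vr R)) * Aψ +
      (κ - κR) * (I4 - 3 * Aψ) := by ring
  rw [e3]
  have t1 : |(gs (Pol K R) - (1 + vr R)) * Aψ| ≤ 3 * (ek R K * (2 + ek R K)) * |Aψ| := by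
    rw [abs_mul]; exact mul_le_mul_of_nonneg_right hk1 (abs_nonneg _)
  have t2 : |(κ - κR) * (I4 - 3 * Aψ)| ≤ ek R K * (2 + ek R K) * (m * N n + 3 * |Aψ|) := by
    rw [abs_mul]
    refine mul_le_mul hk2 ?_ (abs_nonneg _) (by positivity)
    refine (abs_sub _ _).trans (add_le_add bI ?_)
    rw [abs_mul, abs_of_pos (by norm_num : (0:ℝ) < 3)]
  have t3 : ek R K * (2 + ek R K) * (m * N n + 3 * |Aψ|) ≤
      ek R K * (2 + ek R K) * (m + 3 * |Aψ|) * (1 + N n) := by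
    have a1 : m * N n + 3 * |Aψ| ≤ (m + 3 * |Aψ|) * (1 + N n) := by
      have b1 := mul_nonneg (abs_nonneg Aψ) hNn
      have b2 : (m + 3 * |Aψ|) * (1 + N n) = m * N n + 3 * |Aψ| + (m + 3 * (|Aψ| * N n)) := by ring
      rw [b2]; linarith
    have a2 : 0 ≤ ek R K * (2 + ek R K) := by positivity
    calc _ ≤ ek R K * (2 + ek R K) * ((m + 3 * |Aψ|) * (1 + N n)) :=
          mul_le_mul_of_nonneg_left a1 a2
      _ = _ := by ring
  have t4 : 3 * (ek R K * (2 + ek R K)) * |Aψ| ≤ 3 * (ek R K * (2 + ek R K)) * |Aψ| * (1 + N n) := by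
    have a2 : 0 ≤ 3 * (ek R K * (2 + ek R K)) * |Aψ| := by positivity
    exact le_mul_of_one_le_right a2 (by linarith)
  have t5 : |D2 - P2| ≤ 4 * π * ((4 * m ^ 2 * (1 + ek R K) ^ 2 + 1) * (3 * A + 1)) * ek R K *
      (1 + N n) + ε / 4 * (1 + N n) := by
    refine c.trans ?_
    have a1 : 4 * π * ((4 * m ^ 2 * (1 + ek R K) ^ 2 + 1) * ((3 * A + 1) * (1 + N n))) *
        (ek R K + h n * (16 ^ K * (10 * R * ∑ k ∈ Finset.range K, cc (k + 1) * R ^ (2 * k + 2)))) =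
        4 * π * ((4 * m ^ 2 * (1 + ek R K) ^ 2 + 1) * (3 * A + 1)) * ek R K * (1 + N n) +
        h n * cK * (1 + N n) := by
      rw [hcK]; ring
    rw [a1]
    exact add_le_add le_rfl (mul_le_mul_of_nonneg_right h5 (by positivity))
  have t6 : |P2 - κ * (I4 - 3 * Aψ) - gs (Pol K R) * Aψ| ≤ ε / 4 * (1 + N n) := by
    exact h6.le.trans (le_mul_of_one_le_right (by positivity) (by linarith))
  have t7 : bK K * (1 + N n) ≤ ε / 2 * (1 + N n) :=
    mul_le_mul_of_nonneg_right hK.le (by positivity)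
  have t8 : bK K * (1 + N n) = 4 * π * ((4 * m ^ 2 * (1 + ek R K) ^ 2 + 1) * (3 * A + 1)) *
      ek R K * (1 + N n) + 3 * (ek R K * (2 + ek R K)) * |Aψ| * (1 + N n) +
      ek R K * (2 + ek R K) * (m + 3 * |Aψ|) * (1 + N n) := by
    rw [hbK]; ring
  have t9 := abs_add_le (D2 - P2 + (P2 - κ * (I4 - 3 * Aψ) - gs (Pol K R) * Aψ) +
    (gs (Pol K R) - (1 + vr R)) * Aψ) ((κ - κR) * (I4 - 3 * Aψ))
  have t10 := abs_add_le (D2 - P2 + (P2 - κ * (I4 - 3 * Aψ) - gs (Pol K R) * Aψ))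
    ((gs (Pol K R) - (1 + vr R)) * Aψ)
  have t11 := abs_add_le (D2 - P2) (P2 - κ * (I4 - 3 * Aψ) - gs (Pol K R) * Aψ)
  have t12 : ε * (1 + N n) = ε / 2 * (1 + N n) + ε / 4 * (1 + N n) + ε / 4 * (1 + N n) := by ring
  rw [t12]
  linarith

end

end Pool.Agent.T9h62.SQ
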