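import Pool.Agent.T9h62.SQ.Fin

/-! The integrals of the disc means. -/
set_option autoImplicit false
open MeasureTheory Filter Topology Set Complex
open scoped ContDiff Real

namespace Pool.Agent.T9h62.SQ

open Pool.Agent.Y265.HY (ev ev_re ev_im ev_norm ev_cont MM PP' Av fx fy MM_d NN_d Av_d PP0 MM0
  fx_sm fy_sm arg_cont)
open Pool.Agent.W745.RW (TF)
open Pool.Agent.TH294.RS (TF.mulc TF.zero)

noncomputable section

/-- the inverse of `z ↦ z + (im z) a` -/
def Si (a w : ℂ) : ℂ := w - ((w.im / (1 + a.im) : ℝ) : ℂ) * a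

lemma Si_im {a : ℂ} (ha : 1 + a.im ≠ 0) (w : ℂ) : (Si a w).im = w.im / (1 + a.im) := by
  unfold Si
  rw [Complex.sub_im, Complex.im_ofReal_mul]
  field_simp
  ring

lemma Si_left {a : ℂ} (ha : 1 + a.im ≠ 0) (z : ℂ) : Si a (z + (z.im : ℂ) * a) = z := by
  unfold Si
  have : (z + (z.im : ℂ) * a).im = z.im * (1 + a.im) := by simp; ring
  rw [this, mul_div_cancel_right₀ _ ha]
  ring

lemma Si_right {a : ℂ} (ha : 1 + a.im ≠ 0) (w : ℂ) : Si a w + ((Si a w).im : ℂ) * a = w := by
  rw [Si_im ha]; unfold Si; ring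

lemma shift_close {φ ζ : ℂ → ℝ} (hφ : Continuous φ) (hs : HasCompactSupport φ)
    {δ0 : ℝ} (hδ0 : 0 < δ0) (hζ0 : ∀ z, 0 ≤ ζ z)
    (hζ1 : ∀ z ∈ Metric.cthickening δ0 (tsupport φ), ζ z = 1) {ε : ℝ} (hε : 0 < ε) :
    ∃ δ > 0, δ ≤ 1 / 2 ∧ ∀ a : ℂ, ‖a‖ ≤ δ → ∀ w,
      |(1 + a.im)⁻¹ * φ (Si a w) - φ w| ≤ ε * ζ w := by
  obtain ⟨M, hM⟩ := hs.isCompact.exists_bound_of_continuousOn hφ.continuousOn
  have hM' : ∀ z, |φ z| ≤ |M| := by
    intro z
    by_cases hz : z ∈ tsupport φ
    · exact (hM z hz).trans (le_abs_self M)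
    · rw [image_eq_zero_of_notMem_tsupport hz, abs_zero]; positivity
  obtain ⟨Y, hY⟩ := hs.isCompact.exists_bound_of_continuousOn (Complex.continuous_im.continuousOn)
  have hY' : ∀ z ∈ tsupport φ, |z.im| ≤ |Y| := fun z hz => (hY z hz).trans (le_abs_self Y)
  have uc : UniformContinuous φ := hs.uniformContinuous_of_continuous hφ
  rw [Metric.uniformContinuous_iff] at uc
  obtain ⟨η, hη, uc⟩ := uc (ε / 2) (by positivity)
  set δ : ℝ := min (1 / 2) (min (ε / (4 * (|M| + 1))) (min (η / (4 * (|Y| + 1)))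
    (δ0 / (4 * (|Y| + 1))))) with hδ
  have hδpos : 0 < δ := by
    rw [hδ]; refine lt_min (by norm_num) (lt_min (by positivity) (lt_min (by positivity)
      (by positivity)))
  have d1 : δ ≤ 1 / 2 := min_le_left _ _
  have d2 : δ ≤ ε / (4 * (|M| + 1)) := (min_le_right _ _).trans (min_le_left _ _)
  have d3 : δ ≤ η / (4 * (|Y| + 1)) :=
    (min_le_right _ _).trans ((min_le_right _ _).trans (min_le_left _ _))
  have d4 : δ ≤ δ0 / (4 * (|Y| + 1)) :=
    (min_le_right _ _).trans ((min_le_right _ _).trans (min_le_right _ _))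
  refine ⟨δ, hδpos, d1, fun a ha w => ?_⟩
  have ha1 : |a.im| ≤ 1 / 2 := (abs_im_le_norm a).trans (ha.trans d1)
  have h0 : (1 / 2 : ℝ) ≤ 1 + a.im := by linarith [(abs_le.1 ha1).1]
  have hne : 1 + a.im ≠ 0 := by linarith
  by_cases hcase : φ (Si a w) = 0 ∧ φ w = 0
  · rw [hcase.1, hcase.2]; simp only [mul_zero, sub_zero, abs_zero]
    exact mul_nonneg hε.le (hζ0 w)
  -- displacement
  have him : |(Si a w).im| ≤ 2 * |Y| := by
    rw [not_and_or] at hcase
    rcases hcase with h1 | h1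
    · have := hY' _ (subset_tsupport _ h1)
      linarith [abs_nonneg Y]
    · have h2 := hY' _ (subset_tsupport _ h1)
      rw [Si_im hne, abs_div, abs_of_pos (by linarith : 0 < 1 + a.im), div_le_iff₀ (by linarith)]
      nlinarith [abs_nonneg Y]
  have hdisp : ‖Si a w - w‖ ≤ 2 * |Y| * δ := by
    have e : Si a w - w = -(((Si a w).im : ℂ) * a) := by
      have := Si_right hne w
      linear_combination this
    rw [e, norm_neg, norm_mul, Complex.norm_real, Real.norm_eq_abs]
    exact mul_le_mul him ha (norm_nonneg _) (by positivity)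
  have b1 : 2 * |Y| * δ < η := by
    have h1 : 2 * |Y| * δ ≤ 2 * |Y| * (η / (4 * (|Y| + 1))) :=
      mul_le_mul_of_nonneg_left d3 (by positivity)
    refine h1.trans_lt ?_
    rw [mul_div_assoc', div_lt_iff₀ (by positivity)]
    nlinarith [abs_nonneg Y]
  have b2 : 2 * |Y| * δ ≤ δ0 := by
    have h1 : 2 * |Y| * δ ≤ 2 * |Y| * (δ0 / (4 * (|Y| + 1))) :=
      mul_le_mul_of_nonneg_left d4 (by positivity)
    refine h1.trans ?_
    rw [mul_div_assoc', div_le_iff₀ (by positivity)]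
    nlinarith [abs_nonneg Y]
  have hw1 : ζ w = 1 := by
    refine hζ1 w ?_
    rw [not_and_or] at hcase
    rcases hcase with h1 | h1
    · refine Metric.mem_cthickening_of_dist_le w _ δ0 _ (subset_tsupport _ h1) ?_
      rw [dist_comm, dist_eq_norm]
      exact hdisp.trans b2
    · exact Metric.mem_cthickening_of_dist_le w w δ0 _ (subset_tsupport _ h1)
        (by rw [dist_self]; exact hδ0.le)
  rw [hw1, mul_one]
  have c1 : |φ (Si a w) - φ w| ≤ ε / 2 := by
    have := uc (a := Si a w) (b := w) (by rw [dist_eq_norm]; exact hdisp.trans_lt b1)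
    rw [Real.dist_eq] at this
    exact this.le
  have c2 : |(1 + a.im)⁻¹ - 1| ≤ 2 * δ := by
    have e : (1 + a.im)⁻¹ - 1 = -a.im / (1 + a.im) := by field_simp; ring
    rw [e, abs_div, abs_neg, abs_of_pos (by linarith : 0 < 1 + a.im), div_le_iff₀ (by linarith)]
    have := (abs_im_le_norm a).trans ha
    nlinarith
  have e : (1 + a.im)⁻¹ * φ (Si a w) - φ w = ((1 + a.im)⁻¹ - 1) * φ (Si a w) +
      (φ (Si a w) - φ w) := by ring
  rw [e]
  refine (abs_add_le _ _).trans ?_
  rw [abs_mul]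
  have c3 : |(1 + a.im)⁻¹ - 1| * |φ (Si a w)| ≤ 2 * δ * |M| :=
    mul_le_mul c2 (hM' _) (abs_nonneg _) (by positivity)
  have c4 : 2 * δ * |M| ≤ ε / 2 := by
    have h1 : 2 * δ * |M| ≤ 2 * (ε / (4 * (|M| + 1))) * |M| := by
      refine mul_le_mul_of_nonneg_right ?_ (abs_nonneg _)
      linarith
    refine h1.trans ?_
    have : 2 * (ε / (4 * (|M| + 1))) * |M| = ε / 2 * (|M| / (|M| + 1)) := by
      field_simp; ring
    rw [this]
    refine mul_le_of_le_one_right (by positivity) ?_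
    rw [div_le_one (by positivity)]; linarith
  linarith

lemma shift_int {φ ζ : ℂ → ℝ} (hφ : Continuous φ) (hs : HasCompactSupport φ) (hζ : Continuous ζ)
    {a : ℂ} (ha : |a.im| ≤ 1 / 2) {ε : ℝ}
    (hc : ∀ w, |(1 + a.im)⁻¹ * φ (Si a w) - φ w| ≤ ε * ζ w) {G : ℂ → ℝ} (hG : Continuous G)
    (hGs : HasCompactSupport G) (hG0 : ∀ z, 0 ≤ G z) :
    |(∫ z, φ z * G (z + (z.im : ℂ) * a)) - ∫ z, φ z * G z| ≤ ε * ∫ z, ζ z * G z := by
  have h0 : (1 / 2 : ℝ) ≤ 1 + a.im := by linarith [(abs_le.1 ha).1]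
  have hne : 1 + a.im ≠ 0 := by linarith
  have e1 : ∫ z, φ z * G (z + (z.im : ℂ) * a) = ∫ w, (1 + a.im)⁻¹ * φ (Si a w) * G w := by
    have h1 := int_S hne (fun w => φ (Si a w) * G w)
    simp only [Si_left hne] at h1
    rw [h1, abs_of_pos (by have : (0:ℝ) < 1 + a.im := by linarith
                           positivity), ← integral_const_mul]
    congr 1; funext w; ring
  have cSi : Continuous (Si a) := by unfold Si; fun_prop
  have i1 : Integrable (fun w => (1 + a.im)⁻¹ * φ (Si a w) * G w) :=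
    ((continuous_const.mul (hφ.comp cSi)).mul hG).integrable_of_hasCompactSupport hGs.mul_left
  have i2 : Integrable (fun w => φ w * G w) :=
    (hφ.mul hG).integrable_of_hasCompactSupport hGs.mul_left
  have i3 : Integrable (fun w => ζ w * G w) :=
    (hζ.mul hG).integrable_of_hasCompactSupport hGs.mul_left
  rw [e1, ← integral_sub i1 i2, ← integral_const_mul]
  refine abs_integral_le_integral_abs.trans (integral_mono (i1.sub i2).abs (i3.const_mul ε)
    fun w => ?_)
  show |(1 + a.im)⁻¹ * φ (Si a w) * G w - φ w * G w| ≤ ε * (ζ w * G w)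
  rw [← sub_mul, abs_mul, abs_of_nonneg (hG0 w), ← mul_assoc]
  exact mul_le_mul_of_nonneg_right (hc w) (hG0 w)

theorem first_moment {φ : ℂ → ℝ} (hφ : TF HH φ) {R : ℝ} (hR : 0 < R) {g : ℕ → ℂ → ℝ}
    (hg : ∀ n, ContDiffOn ℝ ∞ (g n) HH) (hg0 : ∀ n z, 0 ≤ g n z)
    (hq : ∀ φ, TF HH φ → Tendsto (fun n => ∫ z, φ z * g n z) atTop (𝓝 (∫ z, φ z)))
    {h : ℕ → ℝ} (hh0 : ∀ n, 0 < h n) (hh : Tendsto h atTop (𝓝 0)) :
    Tendsto (fun n => ∫ z, φ z * DM (h n) R (g n) z) atTop (𝓝 (∫ z, φ z)) := by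
  have hp := Real.pi_pos
  obtain ⟨δ0, hδ0, hδU⟩ := hφ.2.1.isCompact.exists_cthickening_subset_open HH_open hφ.2.2
  have hK1 : IsCompact (Metric.cthickening δ0 (tsupport φ)) := hφ.2.1.isCompact.cthickening
  obtain ⟨ζ, hζ, hζ0, hζ2, hζ1⟩ := Pool.Agent.Y265.RW.cutoff HH_open hK1 hδU
  have hqφ := hq φ hφ
  have hqζ := hq ζ hζ
  rw [Metric.tendsto_atTop']
  intro ε hε
  set A := ∫ z, ζ z with hA
  have hA0 : 0 ≤ A := integral_nonneg hζ0
  obtain ⟨δ, hδ, hδ2, hc⟩ := shift_close hφ.1.continuous hφ.2.1 hδ0 hζ0 hζ1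
    (ε := ε / (4 * (A + 1))) (by positivity)
  have ev1 : ∀ᶠ n in atTop, h n * R < δ := by
    have : Tendsto (fun n => h n * R) atTop (𝓝 0) := by simpa using hh.mul_const R
    exact this.eventually (gt_mem_nhds hδ)
  have ev2 := hqφ.eventually (Metric.ball_mem_nhds _ (by positivity : 0 < ε / 4))
  have ev3 : ∀ᶠ n in atTop, ∫ z, ζ z * g n z < A + 1 :=
    hqζ.eventually (gt_mem_nhds (lt_add_one A))
  have ev4 := discs hφ.2.1 (Metric.isOpen_thickening (δ := δ0) (E := tsupport φ))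
    (Metric.self_subset_thickening hδ0 _) R hh0 hh
  have := ((ev1.and ev2).and (ev3.and ev4))
  rw [eventually_atTop] at this
  obtain ⟨n0, hn0⟩ := this
  refine ⟨n0, fun n hn => ?_⟩
  obtain ⟨⟨h1, h2⟩, h3, h4⟩ := hn0 n hn.le
  have tG : TF HH (fun z => ζ z * g n z) := TF.mulc HH_open hζ (hg n)
  set G : ℂ → ℝ := fun z => ζ z * g n z with hG
  have cG := tG.1.continuous
  have cφ := hφ.1.continuous
  have e1 : ∫ z, φ z * DM (h n) R (g n) z = ∫ z, φ z * DM (h n) R G z := by
    congr 1; funext z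
    by_cases hz : φ z = 0
    · rw [hz]; ring
    · congr 1
      refine DM_congr (fun t ht w hw => ?_) hR.le
      simp only [hG]
      rw [hζ1 _ (Metric.thickening_subset_cthickening _ _ (h4 z hz t ht w hw)), one_mul]
  have e2 : ∫ z, φ z * G z = ∫ z, φ z * g n z := by
    congr 1; funext z
    by_cases hz : φ z = 0
    · rw [hz]; ring
    · simp only [hG]
      rw [hζ1 z (Metric.self_subset_cthickening _ (subset_tsupport _ hz)), one_mul]
  have hev := ev_cont
  have i5 : ∫ z, ζ z * G z ≤ A + 1 := by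
    refine le_trans (integral_mono ?_ ?_ fun z => ?_) h3.le
    · exact (hζ.1.continuous.mul cG).integrable_of_hasCompactSupport hζ.2.1.mul_right
    · exact cG.integrable_of_hasCompactSupport tG.2.1
    · show ζ z * (ζ z * g n z) ≤ ζ z * g n z
      exact mul_le_of_le_one_left (mul_nonneg (hζ0 z) (hg0 n z)) (hζ2 z)
  have hG0 : ∀ z, 0 ≤ G z := fun z => mul_nonneg (hζ0 z) (hg0 n z)
  -- circular integrals
  have b : ∀ s ∈ Icc (0:ℝ) 1, |GG (h n) φ G (R * s) - 2 * π * ∫ z, φ z * G z| ≤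
      2 * π * (ε / 4) := by
    intro s hs
    have ha : h n * (R * s) ≤ δ := by
      refine le_trans ?_ h1.le
      exact mul_le_mul_of_nonneg_left (mul_le_of_le_one_right hR.le hs.2) (hh0 n).le
    have ha0 : 0 ≤ h n * (R * s) := mul_nonneg (hh0 n).le (mul_nonneg hR.le hs.1)
    have e3 : GG (h n) φ G (R * s) = ∫ θ in (-π)..π, ∫ z, φ z *
        G (z + ((h n * z.im * (R * s) : ℝ) : ℂ) * ev θ) := by
      unfold GG CM
      rw [← swap (H := fun z θ => φ z * G (z + ((h n * z.im * (R * s) : ℝ) : ℂ) * ev θ)) ?_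
        hφ.2.1.isCompact ?_]
      · congr 1; funext z
        rw [← intervalIntegral.integral_const_mul]
      · unfold Function.uncurry
        fun_prop
      · intro z hz θ
        rw [image_eq_zero_of_notMem_tsupport hz]; ring
    have cI : Continuous (fun θ => ∫ z, φ z *
        G (z + ((h n * z.im * (R * s) : ℝ) : ℂ) * ev θ)) := by
      have e : (fun θ => ∫ z, φ z * G (z + ((h n * z.im * (R * s) : ℝ) : ℂ) * ev θ)) =
          fun θ => ∫ z in tsupport φ, φ z * G (z + ((h n * z.im * (R * s) : ℝ) : ℂ) * ev θ) := by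
        funext θ
        rw [setIntegral_eq_integral_of_forall_compl_eq_zero]
        intro z hz
        rw [image_eq_zero_of_notMem_tsupport hz, zero_mul]
      rw [e]
      refine continuous_parametric_integral_of_continuous ?_ hφ.2.1.isCompact
      unfold Function.uncurry
      fun_prop
    have e4 : 2 * π * ∫ z, φ z * G z = ∫ θ in (-π)..π, ∫ z, φ z * G z := by
      rw [intervalIntegral.integral_const, smul_eq_mul]; ring
    rw [e3, e4, ← intervalIntegral.integral_sub (cI.intervalIntegrable _ _)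
      (continuous_const.intervalIntegrable _ _)]
    have key : ∀ θ, ‖(∫ z, φ z * G (z + ((h n * z.im * (R * s) : ℝ) : ℂ) * ev θ)) -
        ∫ z, φ z * G z‖ ≤ ε / 4 := by
      intro θ
      have hna : ‖((h n * (R * s) : ℝ) : ℂ) * ev θ‖ ≤ δ := by
        rw [norm_mul, ev_norm, mul_one, Complex.norm_real, Real.norm_eq_abs, abs_of_nonneg ha0]
        exact ha
      have h5 := shift_int cφ hφ.2.1 hζ.1.continuous
        ((abs_im_le_norm _).trans (hna.trans hδ2)) (hc _ hna) cG tG.2.1 hG0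
      have e5 : ∫ z, φ z * G (z + ((h n * z.im * (R * s) : ℝ) : ℂ) * ev θ) =
          ∫ z, φ z * G (z + (z.im : ℂ) * (((h n * (R * s) : ℝ) : ℂ) * ev θ)) := by
        congr 1; funext z; rw [arg_eq]
      rw [Real.norm_eq_abs, e5]
      refine h5.trans ?_
      calc ε / (4 * (A + 1)) * ∫ z, ζ z * G z ≤ ε / (4 * (A + 1)) * (A + 1) :=
            mul_le_mul_of_nonneg_left i5 (by positivity)
        _ = ε / 4 := by field_simp
    have := intervalIntegral.norm_integral_le_of_norm_le_const (a := -π) (b := π)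
      (fun θ _ => key θ)
    rw [Real.norm_eq_abs] at this
    refine this.trans (le_of_eq ?_)
    rw [abs_of_pos (by linarith)]
    ring
  have b2 : |(∫ z, φ z * DM (h n) R G z) - ∫ z, φ z * G z| ≤ ε / 4 := by
    have cGG := (GG_cont cφ hφ.2.1 cG (h n)).comp (by fun_prop : Continuous (fun s : ℝ => R * s))
    have e6 : ∫ z, φ z * G z = 1 / π * ∫ s in (0:ℝ)..1, s * (2 * π * ∫ z, φ z * G z) := by
      rw [intervalIntegral.integral_mul_const, integral_id]
      field_simp
      ring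
    have i7 : IntervalIntegrable (fun s => s * GG (h n) φ G (R * s)) volume 0 1 :=
      (continuous_id.mul cGG).intervalIntegrable _ _
    have i8 : IntervalIntegrable (fun s : ℝ => s * (2 * π * ∫ z, φ z * G z)) volume 0 1 :=
      Continuous.intervalIntegrable (by fun_prop) _ _
    rw [int_DM cφ hφ.2.1 cG, e6, ← mul_sub, ← intervalIntegral.integral_sub i7 i8, abs_mul,
      abs_of_pos (by positivity : (0:ℝ) < 1 / π)]
    have h5 : |∫ s in (0:ℝ)..1, (s * GG (h n) φ G (R * s) - s * (2 * π * ∫ z, φ z * G z))| ≤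
        ∫ s in (0:ℝ)..1, 2 * π * (ε / 4) * s := by
      have := intervalIntegral.norm_integral_le_of_norm_le (μ := volume) zero_le_one
        (f := fun s => s * GG (h n) φ G (R * s) - s * (2 * π * ∫ z, φ z * G z))
        (g := fun s => 2 * π * (ε / 4) * s)
        (Eventually.of_forall fun s hs => ?_) (Continuous.intervalIntegrable (by fun_prop) _ _)
      · rw [Real.norm_eq_abs] at this
        exact this
      · rw [← mul_sub, norm_mul, Real.norm_eq_abs, Real.norm_eq_abs, abs_of_pos hs.1, mul_comm]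
        exact mul_le_mul_of_nonneg_right (b s ⟨hs.1.le, hs.2⟩) hs.1.le
    rw [intervalIntegral.integral_const_mul, integral_id] at h5
    calc 1 / π * _ ≤ 1 / π * (2 * π * (ε / 4) * ((1 ^ 2 - 0 ^ 2) / 2)) :=
          mul_le_mul_of_nonneg_left h5 (by positivity)
      _ = ε / 4 := by field_simp; ring
  rw [Real.dist_eq, e1]
  rw [Real.dist_eq, ← e2] at h2
  have e7 : (∫ z, φ z * DM (h n) R G z) - ∫ z, φ z = ((∫ z, φ z * DM (h n) R G z) -
      ∫ z, φ z * G z) + ((∫ z, φ z * G z) - ∫ z, φ z) := by ring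
  rw [e7]
  refine (abs_add_le _ _).trans_lt ?_
  linarith

end

end Pool.Agent.T9h62.SQ
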