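import Pool.Agent.T9h62.SQ.Bd

/-! The disc means of the square of an eigenfunction against a weight. -/
set_option autoImplicit false
open MeasureTheory Filter Topology Set Complex
open scoped ContDiff Real

namespace Pool.Agent.T9h62.SQ

open Pool.Agent.Y265.HY (ev ev_re ev_im ev_norm ev_cont MM PP' Av fx fy MM_d NN_d Av_d PP0 MM0
  fx_sm fy_sm arg_cont)

noncomputable section

/-- the coefficients of `2 J₁(x) / x` -/
def dd (k : ℕ) : ℝ := cc k / (k + 1)

/-- disc means, in polar coordinates -/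
def DM (h R : ℝ) (G : ℂ → ℝ) (z : ℂ) : ℝ :=
  1 / π * ∫ s in (0:ℝ)..1, s * CM h G z (R * s)

lemma DM_cont {G : ℂ → ℝ} (hG : Continuous G) (h R : ℝ) : Continuous (DM h R G) := by
  unfold DM
  refine continuous_const.mul ?_
  refine intervalIntegral.continuous_parametric_intervalIntegral_of_continuous' ?_ _ _
  have := (CM_cont hG h).comp (by fun_prop : Continuous (fun p : ℂ × ℝ => (p.1, R * p.2)))
  unfold Function.uncurry
  exact continuous_snd.mul this

lemma int_DM {q G : ℂ → ℝ} (hq : Continuous q) (hqs : HasCompactSupport q) (hG : Continuous G)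
    (h R : ℝ) :
    ∫ z, q z * DM h R G z = 1 / π * ∫ s in (0:ℝ)..1, s * GG h q G (R * s) := by
  have e1 : ∀ z, q z * DM h R G z = 1 / π * ∫ s in (0:ℝ)..1, s * (q z * CM h G z (R * s)) := by
    intro z
    unfold DM
    have : (∫ s in (0:ℝ)..1, s * (q z * CM h G z (R * s))) =
        q z * ∫ s in (0:ℝ)..1, s * CM h G z (R * s) := by
      rw [← intervalIntegral.integral_const_mul]
      congr 1; funext s; ring
    rw [this]; ring
  simp only [e1]
  rw [integral_const_mul, swap (H := fun z s => s * (q z * CM h G z (R * s))) ?_ hqs.isCompact ?_]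
  · congr 2; funext s
    unfold GG
    rw [← integral_const_mul]
  · have := (CM_cont hG h).comp (by fun_prop : Continuous (fun p : ℂ × ℝ => (p.1, R * p.2)))
    unfold Function.uncurry
    exact continuous_snd.mul ((hq.comp continuous_fst).mul this)
  · intro z hz s
    rw [image_eq_zero_of_notMem_tsupport hz]; ring

lemma inv_sq_bound {x : ℝ} (hx : |x| ≤ 1 / 2) : |((1 + x) ^ 2)⁻¹ - 1| ≤ 10 * |x| := by
  have h0 : (1 / 2 : ℝ) ≤ 1 + x := by linarith [(abs_le.1 hx).1]
  have h1 : (0:ℝ) < (1 + x) ^ 2 := by positivity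
  have e : ((1 + x) ^ 2)⁻¹ - 1 = -(x * (2 + x)) / (1 + x) ^ 2 := by
    field_simp
    ring
  rw [e, abs_div, abs_neg, abs_mul, abs_of_pos h1, div_le_iff₀ h1]
  have h2 : |2 + x| ≤ 5 / 2 := by
    rw [abs_le]; constructor <;> linarith [(abs_le.1 hx).1, (abs_le.1 hx).2]
  have h3 : (1 / 4 : ℝ) ≤ (1 + x) ^ 2 := by nlinarith
  have h4 := mul_le_mul_of_nonneg_left h2 (abs_nonneg x)
  have h5 := mul_le_mul_of_nonneg_left h3 (abs_nonneg x)
  nlinarith

/-- a continuous version of `(1 + h t sin θ)⁻² - 1` -/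
def ww (a : ℝ) (θ : ℝ) : ℝ := ((1 + a * Real.sin θ) ^ 2)⁻¹ - 1

lemma ww_bound {a : ℝ} (ha : |a| ≤ 1 / 2) (θ : ℝ) : |ww a θ| ≤ 10 * |a| := by
  have h1 : |a * Real.sin θ| ≤ |a| := by
    rw [abs_mul]
    exact mul_le_of_le_one_right (abs_nonneg a) (Real.abs_sin_le_one θ)
  exact (inv_sq_bound (h1.trans ha)).trans (by linarith)

lemma ww_cont {a : ℝ} (ha : |a| ≤ 1 / 2) : Continuous (ww a) := by
  unfold ww
  refine (Continuous.inv₀ (by fun_prop) fun θ => ?_).sub continuous_const
  have h1 : |a * Real.sin θ| ≤ |a| := by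
    rw [abs_mul]
    exact mul_le_of_le_one_right (abs_nonneg a) (Real.abs_sin_le_one θ)
  have h2 := (abs_le.1 (h1.trans ha)).1
  have : (0:ℝ) < 1 + a * Real.sin θ := by linarith
  positivity

theorem main_est {h R : ℝ} (hh : 0 < h) (hR : 0 < R) (hhR : h * R ≤ 1 / 2) {q : ℂ → ℝ}
    (hq : Continuous q) (hqs : HasCompactSupport q) (G : ℕ → ℂ → ℝ)
    (hG : ∀ k, ContDiff ℝ ∞ (G k)) (hGs : ∀ k, HasCompactSupport (G k))
    (hrel : ∀ k z, q z ≠ 0 → 0 < z.im ∧ ∀ t ∈ Icc 0 R, ∀ θ : ℝ,
      h ^ 2 * (z + ((h * z.im * t : ℝ) : ℂ) * ev θ).im ^ 2 *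
        lp (G k) (z + ((h * z.im * t : ℝ) : ℂ) * ev θ) =
        - G (k + 1) (z + ((h * z.im * t : ℝ) : ℂ) * ev θ))
    (K : ℕ) {Y : ℝ} (hY : ∀ k ≤ K, (∫ z, q z ^ 2) + ∫ z, G k z ^ 2 ≤ Y) :
    |(∫ z, q z * DM h R (G 0) z) -
      ∑ k ∈ Finset.range K, (-1) ^ k * dd k * R ^ (2 * k) * ∫ z, q z * G k z| ≤
      cc K * R ^ (2 * K) * (2 * π * Y) +
        10 * (h * R) * (2 * π * Y) * ∑ k ∈ Finset.range K, cc (k + 1) * R ^ (2 * k + 2) := by
  have hp := Real.pi_pos
  have hY0 : 0 ≤ Y := by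
    have := hY 0 (Nat.zero_le _)
    have p1 : 0 ≤ ∫ z, q z ^ 2 := integral_nonneg fun z => sq_nonneg _
    have p2 : 0 ≤ ∫ z, G 0 z ^ 2 := integral_nonneg fun z => sq_nonneg _
    linarith
  set Q : ℕ → ℝ → ℝ := fun k t => ∫ z, q z * ((h * z.im) ^ 2 * CM h (lp (G k)) z t) with hQ
  have cQ : ∀ k, Continuous (Q k) := by
    intro k
    have h1 : Continuous (fun z : ℂ => q z * (h * z.im) ^ 2) := by fun_prop
    have h2 := GG_cont h1 hqs.mul_right (lp_sm (hG k)).continuous h
    refine h2.congr fun t => ?_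
    unfold GG
    simp only [hQ]
    congr 1; funext z; ring
  set Γ : ℕ → ℝ → ℝ := fun k => GG h q (G k) with hΓ
  have cΓ : ∀ k, Continuous (Γ k) := fun k => GG_cont hq hqs (hG k).continuous h
  set E : ℕ → ℝ → ℝ := fun k t => - Q k t - Γ (k + 1) t with hE
  have cE : ∀ k, Continuous (E k) := fun k => (cQ k).neg.sub (cΓ (k + 1))
  have habs : ∀ t ∈ Icc 0 R, |h * t| ≤ h * R := by
    intro t ht
    rw [abs_of_nonneg (mul_nonneg hh.le ht.1)]
    exact mul_le_mul_of_nonneg_left ht.2 hh.le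
  have hrec : ∀ k < K, ∀ r ∈ Icc 0 R, Γ k r = Γ k 0 - TT (fun t => Γ (k + 1) t + E k t) r := by
    intro k _ r _
    have h1 := GG_eq hq hqs (hG k) h r
    have h2 : (fun t => Γ (k + 1) t + E k t) = fun t => - Q k t := by
      funext t; simp only [hE]; ring
    rw [h2, TT_neg]
    simp only [hΓ, hQ]
    linarith
  have hM : ∀ t ∈ Icc 0 R, |Γ K t| ≤ 2 * π * Y := by
    intro t ht
    have h1 := GG_bound ((habs t ht).trans hhR) hq hqs (hG K).continuous (hGs K)
      (w := fun _ => 1) continuous_const (om := 1) (fun θ => by simp)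
    simp only [one_mul] at h1
    simp only [hΓ, GG, CM]
    refine h1.trans ?_
    exact mul_le_mul_of_nonneg_left (hY K le_rfl) (by positivity)
  have hEb : ∀ k < K, ∀ t ∈ Icc 0 R, |E k t| ≤ 10 * (h * R) * (2 * π * Y) := by
    intro k hk t ht
    have ha : |h * t| ≤ 1 / 2 := (habs t ht).trans hhR
    have h1 := GG_bound ha hq hqs (hG (k + 1)).continuous (hGs (k + 1))
      (w := ww (h * t)) (ww_cont ha) (om := 10 * |h * t|) (ww_bound ha)
    have e1 : E k t = ∫ z, q z * ∫ θ in (-π)..π, ww (h * t) θ *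
        G (k + 1) (z + ((h * z.im * t : ℝ) : ℂ) * ev θ) := by
      have cl := (lp_sm (hG k)).continuous
      have cg := (hG (k + 1)).continuous
      have c1 : Continuous (fun z : ℂ => CM h (lp (G k)) z t) :=
        (CM_cont cl h).comp (by fun_prop : Continuous (fun z : ℂ => (z, t)))
      have c2 : Continuous (fun z : ℂ => CM h (G (k + 1)) z t) :=
        (CM_cont cg h).comp (by fun_prop : Continuous (fun z : ℂ => (z, t)))
      have i1 : Integrable (fun z : ℂ => q z * ((h * z.im) ^ 2 * CM h (lp (G k)) z t)) :=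
        (by fun_prop : Continuous (fun z : ℂ => q z * ((h * z.im) ^ 2 * CM h (lp (G k)) z t))
          ).integrable_of_hasCompactSupport hqs.mul_right
      have i2 : Integrable (fun z : ℂ => q z * CM h (G (k + 1)) z t) :=
        (hq.mul c2).integrable_of_hasCompactSupport hqs.mul_right
      simp only [hE, hQ, hΓ, GG]
      rw [← integral_neg]
      have i1' : Integrable (fun z : ℂ => -(q z * ((h * z.im) ^ 2 * CM h (lp (G k)) z t))) := i1.neg
      rw [← integral_sub i1' i2]
      congr 1; funext z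
      by_cases hz : q z = 0
      · rw [hz]; ring
      obtain ⟨hy, hr⟩ := hrel k z hz
      have hr := hr t ht
      have e2 : -(q z * ((h * z.im) ^ 2 * CM h (lp (G k)) z t)) - q z * CM h (G (k + 1)) z t =
          q z * (∫ θ in (-π)..π, (-(h * z.im) ^ 2 *
            lp (G k) (z + ((h * z.im * t : ℝ) : ℂ) * ev θ) -
            G (k + 1) (z + ((h * z.im * t : ℝ) : ℂ) * ev θ))) := by
        have hev := ev_cont
        rw [intervalIntegral.integral_sub (Continuous.intervalIntegrable (by fun_prop) _ _)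
          (Continuous.intervalIntegrable (by fun_prop) _ _), intervalIntegral.integral_const_mul]
        unfold CM
        ring
      show -(q z * ((h * z.im) ^ 2 * CM h (lp (G k)) z t)) - q z * CM h (G (k + 1)) z t = _
      rw [e2]
      congr 2; funext θ
      have him : (z + ((h * z.im * t : ℝ) : ℂ) * ev θ).im = z.im * (1 + h * t * Real.sin θ) := by
        rw [add_im, im_ofReal_mul, ev_im]; ring
      have h3 := hr θ
      rw [him] at h3
      have hs : |h * t * Real.sin θ| ≤ 1 / 2 := by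
        rw [abs_mul]
        exact (mul_le_of_le_one_right (abs_nonneg _) (Real.abs_sin_le_one θ)).trans ha
      have hpos : 0 < 1 + h * t * Real.sin θ := by linarith [(abs_le.1 hs).1]
      have h4 : (h * z.im) ^ 2 * lp (G k) (z + ((h * z.im * t : ℝ) : ℂ) * ev θ) =
          - (((1 + h * t * Real.sin θ) ^ 2)⁻¹ *
            G (k + 1) (z + ((h * z.im * t : ℝ) : ℂ) * ev θ)) := by
        rw [← mul_neg, ← h3]
        field_simp
      have h5 : -(h * z.im) ^ 2 * lp (G k) (z + ((h * z.im * t : ℝ) : ℂ) * ev θ) =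
          -((h * z.im) ^ 2 * lp (G k) (z + ((h * z.im * t : ℝ) : ℂ) * ev θ)) := by ring
      rw [h5, h4]
      unfold ww
      ring
    rw [e1]
    refine h1.trans ?_
    have h6 := hY (k + 1) (by omega)
    have h7 := habs t ht
    have h8 : 0 ≤ (∫ z, q z ^ 2) + ∫ z, G (k + 1) z ^ 2 :=
      add_nonneg (integral_nonneg fun z => sq_nonneg _) (integral_nonneg fun z => sq_nonneg _)
    have h9 : 0 ≤ h * R := by positivity
    refine mul_le_mul (by linarith) ?_ (by positivity) (by positivity)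
    exact mul_le_mul_of_nonneg_left h6 (by positivity)
  have it := iterate R (10 * (h * R) * (2 * π * Y)) (2 * π * Y) (by positivity) (by positivity) K
    Γ E cΓ cE hrec hM hEb
  set T : ℝ := cc K * R ^ (2 * K) * (2 * π * Y) +
        10 * (h * R) * (2 * π * Y) * ∑ k ∈ Finset.range K, cc (k + 1) * R ^ (2 * k + 2) with hT
  have hT0 : 0 ≤ T := by
    have h1 : 0 ≤ ∑ k ∈ Finset.range K, cc (k + 1) * R ^ (2 * k + 2) :=
      Finset.sum_nonneg fun k _ => mul_nonneg (cc_pos _).le (by positivity)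
    have := (cc_pos K).le
    positivity
  have it2 : ∀ s ∈ Icc (0:ℝ) 1, |Γ 0 (R * s) -
      ∑ k ∈ Finset.range K, (-1) ^ k * cc k * (R * s) ^ (2 * k) * Γ k 0| ≤ T := by
    intro s hs
    have hr : R * s ∈ Icc 0 R := ⟨mul_nonneg hR.le hs.1, mul_le_of_le_one_right hR.le hs.2⟩
    refine (it (R * s) hr).trans ?_
    refine add_le_add ?_ ?_
    · exact mul_le_mul_of_nonneg_right (mul_le_mul_of_nonneg_left
        (pow_le_pow_left₀ hr.1 hr.2 _) (cc_pos K).le) (by positivity)
    · refine mul_le_mul_of_nonneg_left (Finset.sum_le_sum fun k _ => ?_) (by positivity)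
      exact mul_le_mul_of_nonneg_left (pow_le_pow_left₀ hr.1 hr.2 _) (cc_pos _).le
  have e3 : ∑ k ∈ Finset.range K, (-1) ^ k * dd k * R ^ (2 * k) * ∫ z, q z * G k z =
      1 / π * ∫ s in (0:ℝ)..1, s *
        ∑ k ∈ Finset.range K, (-1) ^ k * cc k * (R * s) ^ (2 * k) * Γ k 0 := by
    have e4 : ∀ s : ℝ, s * ∑ k ∈ Finset.range K, (-1) ^ k * cc k * (R * s) ^ (2 * k) * Γ k 0 =
        ∑ k ∈ Finset.range K, ((-1) ^ k * cc k * R ^ (2 * k) * Γ k 0) * s ^ (2 * k + 1) := by
      intro s
      rw [Finset.mul_sum]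
      refine Finset.sum_congr rfl fun k _ => ?_
      rw [mul_pow]; ring
    simp only [e4]
    rw [intervalIntegral.integral_finsetSum (fun k _ =>
      Continuous.intervalIntegrable (by fun_prop) _ _), Finset.mul_sum]
    refine Finset.sum_congr rfl fun k _ => ?_
    rw [intervalIntegral.integral_const_mul, integral_pow]
    simp only [hΓ]
    rw [GG_zero]
    unfold dd
    push_cast
    have : (k : ℝ) + 1 ≠ 0 := by positivity
    have h2 : (2 * (k : ℝ) + 1 + 1) ≠ 0 := by positivity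
    field_simp
    ring
  rw [int_DM hq hqs (hG 0).continuous, e3, ← mul_sub, ← intervalIntegral.integral_sub]
  · have h5 : ∀ s ∈ uIoc (0:ℝ) 1, ‖s * GG h q (G 0) (R * s) - s *
        ∑ k ∈ Finset.range K, (-1) ^ k * cc k * (R * s) ^ (2 * k) * Γ k 0‖ ≤ T := by
      intro s hs
      rw [uIoc_of_le zero_le_one] at hs
      have h6 := it2 s ⟨hs.1.le, hs.2⟩
      rw [← mul_sub, norm_mul, Real.norm_eq_abs, Real.norm_eq_abs, abs_of_pos hs.1]
      exact (mul_le_of_le_one_left (abs_nonneg _) hs.2).trans h6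
    have h7 := intervalIntegral.norm_integral_le_of_norm_le_const h5
    rw [abs_mul, abs_of_pos (by positivity : (0:ℝ) < 1 / π)]
    rw [Real.norm_eq_abs, sub_zero, abs_one, mul_one] at h7
    have h8 : 1 / π ≤ 1 := by
      rw [div_le_one hp]; linarith [Real.pi_gt_three]
    calc 1 / π * _ ≤ 1 * T := mul_le_mul h8 h7 (abs_nonneg _) zero_le_one
      _ = T := one_mul T
  · have := (cΓ 0).comp (by fun_prop : Continuous (fun s : ℝ => R * s))
    exact (continuous_id.mul this).intervalIntegrable _ _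
  · exact Continuous.intervalIntegrable (by fun_prop) _ _

end

end Pool.Agent.T9h62.SQ
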