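import Pool.Agent.T9h62.SQ.Eqv

/-! The asymptotic formula without bounds on the fourth moments. -/
set_option autoImplicit false
open MeasureTheory Filter Topology Set Complex
open scoped ContDiff Real

namespace Pool.Agent.T9h62.SQ

open Pool.Agent.Y265.HY (ev ev_re ev_im ev_norm ev_cont MM PP' Av fx fy MM_d NN_d Av_d PP0 MM0
  fx_sm fy_sm arg_cont disc_bound)
open Pool.Agent.W745.RW (TF lap)
open Pool.Agent.TH294.RS (TF.mulc TF.zero)

noncomputable section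

variable {lam : ℕ → ℝ} {f : ℕ → ℂ → ℝ}

lemma V_expand (H : Dat lam f) {R : ℝ} (hR : 0 < R) {ψ : ℂ → ℝ} (hψ : TF HH ψ) :
    ∀ᶠ n in atTop, Vn (lam n) R (f n) ψ =
      (∫ z, ψ z * DM (1 / √(lam n)) R (fun z => f n z ^ 2) z ^ 2 / z.im ^ 2) -
      2 * (∫ z, ψ z * (z.im ^ 2)⁻¹ * DM (1 / √(lam n)) R (fun z => f n z ^ 2) z) + Ar ψ := by
  obtain ⟨χ, U1, hχ, hχ0, hχ2, hU1, hχ1, hsub⟩ := nice_cutoff hψ
  have tφ : TF HH (fun z => ψ z * (z.im ^ 2)⁻¹) := TF.mulc HH_open hψ inv_sm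
  filter_upwards [discs hψ.2.1 hU1 hsub R H.hpos H.hlim] with n h2
  set h := 1 / √(lam n) with hh
  set G : ℂ → ℝ := fun z => χ z * f n z ^ 2 with hG
  have tG : TF HH G := TF.mulc HH_open hχ ((H.sm n).pow 2)
  have cG := tG.1.continuous
  have cD := DM_cont cG h R
  have e1 : ∀ z, ψ z ≠ 0 → DM h R (fun w => f n w ^ 2) z = DM h R G z := by
    intro z hz
    refine DM_congr (fun t ht w hw => ?_) hR.le
    simp only [hG]
    rw [hχ1 _ (h2 z hz t ht w hw), one_mul]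
  set φ : ℂ → ℝ := fun z => ψ z * (z.im ^ 2)⁻¹ with hφd
  have cφ := tφ.1.continuous
  have a2 : ∫ z, ψ z * DM h R (fun z => f n z ^ 2) z ^ 2 / z.im ^ 2 =
      ∫ z, φ z * DM h R G z ^ 2 := by
    congr 1; funext z
    by_cases hz : ψ z = 0
    · simp [hφd, hz]
    · rw [e1 z hz]; simp only [hφd]; ring
  have a1 : ∫ z, ψ z * (z.im ^ 2)⁻¹ * DM h R (fun z => f n z ^ 2) z =
      ∫ z, φ z * DM h R G z := by
    congr 1; funext z
    by_cases hz : ψ z = 0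
    · simp [hφd, hz]
    · rw [e1 z hz]
  have a0 : Vn (lam n) R (f n) ψ = ∫ z, φ z * (DM h R G z - 1) ^ 2 := by
    unfold Vn
    congr 1; funext z
    by_cases hz : ψ z = 0
    · simp [hφd, hz]
    · rw [e1 z hz]; simp only [hφd]; ring
  have j2 : Integrable (fun z => φ z * DM h R G z ^ 2) :=
    (cφ.mul (cD.pow 2)).integrable_of_hasCompactSupport tφ.2.1.mul_right
  have j1 : Integrable (fun z => φ z * DM h R G z) :=
    (cφ.mul cD).integrable_of_hasCompactSupport tφ.2.1.mul_right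
  have j0 : Integrable φ := cφ.integrable_of_hasCompactSupport tφ.2.1
  have j3 : Integrable (fun z => 2 * (φ z * DM h R G z)) := j1.const_mul 2
  have j4 : Integrable (fun z => φ z * DM h R G z ^ 2 - 2 * (φ z * DM h R G z)) := j2.sub j3
  have e : (fun z => φ z * (DM h R G z - 1) ^ 2) = fun z => (φ z * DM h R G z ^ 2 -
        2 * (φ z * DM h R G z)) + φ z := by funext z; ring
  rw [a2, a1, a0, e, integral_add j4 j0, integral_sub j2 j3, integral_const_mul]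
  rfl

/-- a cutoff function equal to one near the support -/
lemma nice_cutoff' {B : Set ℂ} (hB : IsOpen B) {ψ : ℂ → ℝ} (hψ : HasCompactSupport ψ)
    (hψB : tsupport ψ ⊆ B) : ∃ (ζ : ℂ → ℝ) (U1 : Set ℂ), TF B ζ ∧
    (∀ z, 0 ≤ ζ z) ∧ (∀ z, ζ z ≤ 1) ∧ IsOpen U1 ∧ (∀ z ∈ U1, ζ z = 1) ∧ tsupport ψ ⊆ U1 := by
  obtain ⟨δ0, hδ0, hδU⟩ := hψ.isCompact.exists_cthickening_subset_open hB hψB
  obtain ⟨ζ, hζ, hζ0, hζ2, hζ1⟩ := Pool.Agent.Y265.RW.cutoff hB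
    hψ.isCompact.cthickening hδU
  exact ⟨ζ, Metric.thickening δ0 (tsupport ψ), hζ, hζ0, hζ2, Metric.isOpen_thickening,
    fun z hz => hζ1 z (Metric.thickening_subset_cthickening _ _ hz),
    Metric.self_subset_thickening hδ0 _⟩

theorem V_main (H : Dat lam f) {R : ℝ} (hR : 0 < R) {ψ : ℂ → ℝ} (hψ : TF HH ψ) {K : Set ℂ}
    (hK : IsCompact K) (hKH : K ⊆ HH) (hsub : tsupport ψ ⊆ interior K) :
    Tendsto (fun n => (Vn (lam n) R (f n) ψ - vr R * Ar ψ -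
      (2 + jj (2 * R) ^ 2) / 3 * (I4 (f n) ψ - 3 * Ar ψ)) /
        (1 + ∫ z in K, f n z ^ 4 / z.im ^ 2)) atTop (𝓝 0) := by
  obtain ⟨χ, U1, hχ, hχ0, hχ2, hU1, hχ1, hsub1⟩ := nice_cutoff' isOpen_interior hψ.2.1 hsub
  have hχ' : TF HH χ := ⟨hχ.1, hχ.2.1, hχ.2.2.trans (interior_subset.trans hKH)⟩
  have tφ : TF HH (fun z => ψ z * (z.im ^ 2)⁻¹) := TF.mulc HH_open hψ inv_sm
  have t1 := first_moment tφ hR (g := fun n z => f n z ^ 2) (fun n => (H.sm n).pow 2)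
    (fun n z => sq_nonneg _) H.qe H.hpos H.hlim
  have e0 : ∫ z, ψ z * (z.im ^ 2)⁻¹ = Ar ψ := rfl
  rw [e0] at t1
  obtain ⟨Y, hY⟩ := hK.exists_bound_of_continuousOn (Complex.continuous_im.continuousOn)
  have hY' : ∀ z ∈ K, z.im ^ 2 ≤ Y ^ 2 := by
    intro z hz
    have := hY z hz
    rw [Real.norm_eq_abs] at this
    rw [← sq_abs]; exact pow_le_pow_left₀ (abs_nonneg _) this 2
  have N4 : ∀ n, 0 ≤ ∫ z in K, f n z ^ 4 / z.im ^ 2 := fun n =>
    integral_nonneg fun z => by positivity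
  have cmp : ∀ n, 1 + ∫ z, (χ z * f n z ^ 2) ^ 2 ≤
      (1 + Y ^ 2) * (1 + ∫ z in K, f n z ^ 4 / z.im ^ 2) := by
    intro n
    have h1 : ∫ z, (χ z * f n z ^ 2) ^ 2 ≤ Y ^ 2 * ∫ z in K, f n z ^ 4 / z.im ^ 2 := by
      have e1 : ∫ z, (χ z * f n z ^ 2) ^ 2 = ∫ z in K, (χ z * f n z ^ 2) ^ 2 := by
        rw [setIntegral_eq_integral_of_forall_compl_eq_zero]
        intro z hz
        rw [TF.zero hχ (fun h => hz (interior_subset h))]; ring
      rw [e1, ← integral_const_mul]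
      have cim : ContinuousOn (fun z : ℂ => f n z ^ 4 / z.im ^ 2) K := by
        refine ContinuousOn.div (((H.sm n).continuousOn.mono hKH).pow 4)
          (Complex.continuous_im.continuousOn.pow 2) fun z hz => ?_
        exact pow_ne_zero 2 (show 0 < z.im from hKH hz).ne'
      have c2 : ContinuousOn (fun z : ℂ => (χ z * f n z ^ 2) ^ 2) K :=
        ((hχ.1.continuous.continuousOn).mul (((H.sm n).continuousOn.mono hKH).pow 2)).pow 2
      refine setIntegral_mono_on (c2.integrableOn_compact hK)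
        ((cim.integrableOn_compact hK).const_mul _) hK.measurableSet fun z hz => ?_
      have hy : 0 < z.im := hKH hz
      have h2 : χ z ^ 2 ≤ 1 := pow_le_one₀ (hχ0 z) (hχ2 z)
      have h3 : (χ z * f n z ^ 2) ^ 2 ≤ f n z ^ 4 := by
        have : (χ z * f n z ^ 2) ^ 2 = χ z ^ 2 * f n z ^ 4 := by ring
        rw [this]
        exact mul_le_of_le_one_left (by positivity) h2
      refine h3.trans ?_
      rw [mul_div_assoc', le_div_iff₀ (by positivity), mul_comm]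
      exact mul_le_mul_of_nonneg_right (hY' z hz) (by positivity)
    have h2 := N4 n
    have h3 : 0 ≤ Y ^ 2 := sq_nonneg Y
    have e : (1 + Y ^ 2) * (1 + ∫ z in K, f n z ^ 4 / z.im ^ 2) =
        1 + Y ^ 2 + (∫ z in K, f n z ^ 4 / z.im ^ 2) +
        Y ^ 2 * ∫ z in K, f n z ^ 4 / z.im ^ 2 := by ring
    rw [e]
    linarith
  rw [Metric.tendsto_atTop']
  intro ε hε
  have e1 := small_scale H.pos H.lim (g := fun n z => f n z ^ 2) (fun n => (H.sm n).pow 2)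
      H.sps hR hψ hχ' hU1 hχ1 hsub1 (ε := ε / (4 * (1 + Y ^ 2))) (by positivity)
  have e2 := t1.eventually (Metric.ball_mem_nhds _ (by positivity : 0 < ε / 8))
  obtain ⟨n0, hn0⟩ := eventually_atTop.1 ((e1.and e2).and (V_expand H hR hψ))
  refine ⟨n0, fun n hn => ?_⟩
  obtain ⟨⟨h1, h2⟩, h3⟩ := hn0 n hn.le
  rw [Real.dist_eq] at h2
  have hN := N4 n
  have hpos : 0 < 1 + ∫ z in K, f n z ^ 4 / z.im ^ 2 := by linarith
  rw [Real.dist_eq, sub_zero, abs_div, abs_of_pos hpos, div_lt_iff₀ hpos, h3]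
  set D2 := ∫ z, ψ z * DM (1 / √(lam n)) R (fun z => f n z ^ 2) z ^ 2 / z.im ^ 2 with hD2
  set D1 := ∫ z, ψ z * (z.im ^ 2)⁻¹ * DM (1 / √(lam n)) R (fun z => f n z ^ 2) z with hD1
  have e4 : D2 - 2 * D1 + Ar ψ - vr R * Ar ψ - (2 + jj (2 * R) ^ 2) / 3 *
      (I4 (f n) ψ - 3 * Ar ψ) = (D2 - (1 + vr R) * (∫ z, ψ z / z.im ^ 2) -
      (2 + jj (2 * R) ^ 2) / 3 * ((∫ z, ψ z * (f n z ^ 2) ^ 2 / z.im ^ 2) -
      3 * ∫ z, ψ z / z.im ^ 2)) - 2 * (D1 - Ar ψ) := by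
    unfold I4 Ar; ring
  rw [e4]
  refine (abs_sub _ _).trans_lt ?_
  have h5 : ε / (4 * (1 + Y ^ 2)) * (1 + ∫ z, (χ z * f n z ^ 2) ^ 2) ≤
      ε / 4 * (1 + ∫ z in K, f n z ^ 4 / z.im ^ 2) := by
    calc _ ≤ ε / (4 * (1 + Y ^ 2)) * ((1 + Y ^ 2) * (1 + ∫ z in K, f n z ^ 4 / z.im ^ 2)) :=
          mul_le_mul_of_nonneg_left (cmp n) (by positivity)
      _ = _ := by
          have : (1 + Y ^ 2) ≠ 0 := by positivity
          field_simp
  have h6 : |2 * (D1 - Ar ψ)| ≤ ε / 4 := by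
    rw [abs_mul, abs_two]; linarith
  have h7 : ε / 4 ≤ ε / 4 * (1 + ∫ z in K, f n z ^ 4 / z.im ^ 2) :=
    le_mul_of_one_le_right (by positivity) (by linarith)
  have h8 : ε / 4 * (1 + ∫ z in K, f n z ^ 4 / z.im ^ 2) + ε / 4 * (1 + ∫ z in K,
      f n z ^ 4 / z.im ^ 2) < ε * (1 + ∫ z in K, f n z ^ 4 / z.im ^ 2) := by
    nlinarith [mul_pos hε hpos]
  linarith

end

end Pool.Agent.T9h62.SQ
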